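import Pool.Agent.Helper82.TP.Rel

/-!
# The rate
-/

set_option autoImplicit false

namespace Pool.Agent.Helper82.TP

open Module Finset Filter Topology
open scoped TensorProduct
open Pool.Agent.Helper17.JB

section real

/-- a polynomial times a geometric sequence is bounded -/
lemma geo_bd (r : ℕ) {ρ : ℝ} (h0 : 0 ≤ ρ) (h1 : ρ < 1) : ∃ K : ℝ, ∀ k : ℕ, (k : ℝ) ^ r * ρ ^ k ≤ K := by
  have h2 := tendsto_pow_const_mul_const_pow_of_abs_lt_one r (r := ρ) (by rwa [abs_of_nonneg h0])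
  obtain ⟨K, hK⟩ := h2.bddAbove_range
  exact ⟨K, fun k => hK ⟨k, rfl⟩⟩

variable {E C : Type} [Field E] [Fintype C] {a : E} {ν : C → E}

/-- few letters `none` -/
lemma split_bound (B : ℕ) (hB : B = Fintype.card C) : ∃ β : ℝ, 0 < β ∧ ∀ (N : ℕ) (c : E), 0 < N →
    S a ν N (fun k => (pw 1 k : ℝ)) c ≤ (√(β * N))⁻¹ * S a ν N (fun k => 2 ^ k) c +
      ((B : ℝ) + 3 / 2) ^ N := by
  set β : ℝ := Real.logb 2 (((B : ℝ) + 3 / 2) / (B + 1)) with hβ
  have hB1 : (0 : ℝ) < B + 1 := by positivity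
  have hβ0 : 0 < β := by
    refine Real.logb_pos (by norm_num) ?_
    rw [lt_div_iff₀ hB1]
    linarith
  have h2β : (2 : ℝ) ^ β = ((B : ℝ) + 3 / 2) / (B + 1) :=
    Real.rpow_logb (by norm_num) (by norm_num) (by positivity)
  refine ⟨β, hβ0, fun N c hN => ?_⟩
  have hN' : (0 : ℝ) < N := by exact_mod_cast hN
  have hβN : 0 < β * N := mul_pos hβ0 hN'
  have h3 : ∀ k : ℕ, (pw 1 k : ℝ) ≤ (√(β * N))⁻¹ * 2 ^ k + (2 : ℝ) ^ (β * N) * 1 := by
    intro k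
    have p1 : (0 : ℝ) ≤ (√(β * N))⁻¹ * 2 ^ k := by positivity
    have p2 : (0 : ℝ) ≤ (2 : ℝ) ^ (β * N) := by positivity
    rcases le_or_gt (k : ℝ) (β * N) with hk | hk
    · have h4 : (pw 1 k : ℝ) ≤ 2 ^ k := by exact_mod_cast pw_le 1 k
      have h5 : (2 : ℝ) ^ k ≤ (2 : ℝ) ^ (β * N) := by
        rw [← Real.rpow_natCast]
        exact Real.rpow_le_rpow_of_exponent_le (by norm_num) hk
      linarith
    · have h4 := pw_sqrt k
      have h5 : (2 : ℝ) ^ k / √(k + 1) ≤ (√(β * N))⁻¹ * 2 ^ k := by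
        rw [div_eq_inv_mul]
        refine mul_le_mul_of_nonneg_right ?_ (by positivity)
        refine inv_anti₀ (Real.sqrt_pos.2 hβN) (Real.sqrt_le_sqrt (by linarith))
      linarith
  refine (S_mono h3 c).trans ?_
  rw [S_add, S_smul, S_smul]
  refine add_le_add le_rfl ?_
  have h6 : (2 : ℝ) ^ (β * N) = (((B : ℝ) + 3 / 2) / (B + 1)) ^ N := by
    rw [Real.rpow_mul (by norm_num), h2β, Real.rpow_natCast]
  have h7 := S_one_le (a := a) (ν := ν) N c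
  rw [← hB] at h7
  calc (2 : ℝ) ^ (β * N) * S a ν N (fun _ => 1) c ≤
      (((B : ℝ) + 3 / 2) / (B + 1)) ^ N * ((B : ℝ) + 1) ^ N := by
        rw [h6]
        exact mul_le_mul_of_nonneg_left h7 (by positivity)
    _ = ((B : ℝ) + 3 / 2) ^ N := by
        rw [← mul_pow, div_mul_cancel₀ _ hB1.ne']

end real

variable {E : Type} [Field E] {q : ℕ} {A : SmoothTheory q E}
  {X : A.Var} {a : E} {C : Type} [Fintype C] {ν : C → E} [CharZero E] [IsAlgClosed E]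

theorem rate (hq : q ≠ 0) (L : Lets A X a C ν) : ∃ K : ℝ, ∀ n : ℕ,
    0 < S a ν (n + 1 + (n + 1)) (fun k => 2 ^ k) ((q : E) ^ ((n + 1) * A.dim X)) ∧
    S a ν (n + 1 + (n + 1)) (fun k => (pw 1 k : ℝ)) ((q : E) ^ ((n + 1) * A.dim X)) ≤
      K / √(n + 1) *
        S a ν (n + 1 + (n + 1)) (fun k => 2 ^ k) ((q : E) ^ ((n + 1) * A.dim X)) := by
  obtain ⟨β, hβ, hsp⟩ := split_bound (a := a) (ν := ν) (Fintype.card C) rfl
  set B : ℝ := (Fintype.card C : ℝ) with hB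
  have B0 : 0 ≤ B := Nat.cast_nonneg _
  set ρ : ℝ := (B + 3 / 2) / (B + 2) with hρ
  have ρ0 : 0 ≤ ρ := by positivity
  have ρ1 : ρ < 1 := by
    rw [hρ, div_lt_one (by positivity)]
    linarith
  obtain ⟨K1, hK1⟩ := geo_bd (Fintype.card C + 1 + 1) ρ0 ρ1
  refine ⟨(√(β * 2))⁻¹ + K1, fun n => ?_⟩
  set M := S a ν (n + 1 + (n + 1)) (fun k => 2 ^ k) ((q : E) ^ ((n + 1) * A.dim X)) with hM
  have hlow := mg_lower hq L n
  rw [← hM, ← hB] at hlow
  have hn2 : (0 : ℝ) < (n : ℝ) + 2 := by positivity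
  have hn1 : (0 : ℝ) < (n : ℝ) + 1 := by positivity
  have hM0 : 0 < M := by
    by_contra hcon
    push Not at hcon
    have h1 : ((n : ℝ) + 2) ^ (Fintype.card C + 1) * M ≤ 0 :=
      mul_nonpos_of_nonneg_of_nonpos (by positivity) hcon
    have h2 : (0 : ℝ) < (B + 2) ^ (n + 1 + (n + 1)) := by positivity
    linarith
  refine ⟨hM0, ?_⟩
  have h1 := hsp (n + 1 + (n + 1)) ((q : E) ^ ((n + 1) * A.dim X)) (by omega)
  rw [← hM] at h1
  refine h1.trans ?_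
  have h2 : (√(β * ((n + 1 + (n + 1) : ℕ) : ℝ)))⁻¹ = (√(β * 2))⁻¹ / √(n + 1) := by
    have e : β * ((n + 1 + (n + 1) : ℕ) : ℝ) = (β * 2) * (n + 1) := by
      push_cast
      ring
    rw [e, Real.sqrt_mul (by positivity), mul_inv, div_eq_mul_inv]
  have h3 : (B + 3 / 2) ^ (n + 1 + (n + 1)) ≤ K1 / √(n + 1) * M := by
    have e1 : (B + 3 / 2) = ρ * (B + 2) := by
      rw [hρ, div_mul_cancel₀ _ (by positivity)]
    have e2 : (B + 3 / 2) ^ (n + 1 + (n + 1)) ≤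
        ρ ^ (n + 1 + (n + 1)) * (((n : ℝ) + 2) ^ (Fintype.card C + 1) * M) := by
      rw [e1, mul_pow]
      exact mul_le_mul_of_nonneg_left hlow (by positivity)
    have e3 : ρ ^ (n + 1 + (n + 1)) ≤ ρ ^ (n + 2) := pow_le_pow_of_le_one ρ0 ρ1.le (by omega)
    have e4 := hK1 (n + 2)
    have e5 : √((n : ℝ) + 1) ≤ n + 2 := by
      rw [Real.sqrt_le_left (by positivity)]
      nlinarith
    have e6 : ρ ^ (n + 2) * ((n : ℝ) + 2) ^ (Fintype.card C + 1) * √((n : ℝ) + 1) ≤ K1 := by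
      calc ρ ^ (n + 2) * ((n : ℝ) + 2) ^ (Fintype.card C + 1) * √((n : ℝ) + 1) ≤
          ρ ^ (n + 2) * ((n : ℝ) + 2) ^ (Fintype.card C + 1) * (n + 2) :=
            mul_le_mul_of_nonneg_left e5 (by positivity)
        _ = ((n + 2 : ℕ) : ℝ) ^ (Fintype.card C + 1 + 1) * ρ ^ (n + 2) := by
            push_cast
            ring
        _ ≤ K1 := e4
    have e7 : ρ ^ (n + 2) * ((n : ℝ) + 2) ^ (Fintype.card C + 1) ≤ K1 / √(n + 1) := by
      rw [le_div_iff₀ (Real.sqrt_pos.2 hn1)]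
      exact e6
    calc (B + 3 / 2) ^ (n + 1 + (n + 1)) ≤
        ρ ^ (n + 1 + (n + 1)) * (((n : ℝ) + 2) ^ (Fintype.card C + 1) * M) := e2
      _ ≤ ρ ^ (n + 2) * (((n : ℝ) + 2) ^ (Fintype.card C + 1) * M) :=
          mul_le_mul_of_nonneg_right e3 (by positivity)
      _ = ρ ^ (n + 2) * ((n : ℝ) + 2) ^ (Fintype.card C + 1) * M := by ring
      _ ≤ K1 / √(n + 1) * M := mul_le_mul_of_nonneg_right e7 hM0.le
  rw [h2]
  calc (√(β * 2))⁻¹ / √(n + 1) * M + (B + 3 / 2) ^ (n + 1 + (n + 1)) ≤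
      (√(β * 2))⁻¹ / √(n + 1) * M + K1 / √(n + 1) * M := add_le_add le_rfl h3
    _ = ((√(β * 2))⁻¹ + K1) / √(n + 1) * M := by ring

end Pool.Agent.Helper82.TP
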