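import Pool.Agent.Helper82.TP.Geo

/-!
# Duality, weights, and generalized eigenspaces
-/

set_option autoImplicit false

namespace Pool.Agent.Helper82.TP

open Module Finset
open scoped TensorProduct
open Pool.Agent.Helper17.JB

variable {E : Type} [Field E]

section pairing

variable {V V' : Type} [AddCommGroup V] [Module E V] [AddCommGroup V'] [Module E V']
  [FiniteDimensional E V] [FiniteDimensional E V']

omit [FiniteDimensional E V] [FiniteDimensional E V'] in
lemma pairing_pow (b : V →ₗ[E] V' →ₗ[E] E) (F : End E V) (F' : End E V') {κ c : E} (hc : c ≠ 0)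
    (h : ∀ x y, b (F x) (F' y) = κ * b x y) (i : ℕ) : ∀ x y,
    b ((F ^ i) x) (((F' - (κ / c) • (1 : End E V')) ^ i) y) =
      (-(κ / c)) ^ i * b (((F - c • (1 : End E V)) ^ i) x) y := by
  have comm : ∀ (i : ℕ) (x : V), ((F - c • (1 : End E V)) ^ i) (F x) =
      F (((F - c • (1 : End E V)) ^ i) x) := by
    intro i
    induction i with
    | zero => intro x; rfl
    | succ i ih =>
      intro x
      rw [pow_succ, End.mul_apply, End.mul_apply, ← ih]
      congr 1
      rw [LinearMap.sub_apply, LinearMap.sub_apply, LinearMap.smul_apply, LinearMap.smul_apply,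
        End.one_apply, End.one_apply, map_sub, map_smul]
  induction i with
  | zero => intro x y; simp
  | succ i ih =>
    intro x y
    rw [pow_succ F, End.mul_apply, pow_succ (F' - (κ / c) • (1 : End E V')), End.mul_apply, ih, comm,
      pow_succ' (F - c • (1 : End E V)), End.mul_apply]
    set z := ((F - c • (1 : End E V)) ^ i) x with hz
    rw [LinearMap.sub_apply, LinearMap.sub_apply, LinearMap.smul_apply, LinearMap.smul_apply,
      End.one_apply, End.one_apply, map_sub, map_sub, map_smul, map_smul, LinearMap.sub_apply,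
      LinearMap.smul_apply, h, smul_eq_mul, smul_eq_mul, pow_succ]
    field_simp
    ring

lemma kd_dual (b : V →ₗ[E] V' →ₗ[E] E) (hb : ∀ x, (∀ y, b x y = 0) → x = 0) (F : End E V)
    (hF : Function.Injective F) (F' : End E V') {κ c : E} (hc : c ≠ 0)
    (h : ∀ x y, b (F x) (F' y) = κ * b x y) (j : ℕ) : kd F c j ≤ kd F' (κ / c) j := by
  unfold kd
  set D := (F - c • (1 : End E V)) ^ j with hD
  set D' := (F' - (κ / c) • (1 : End E V')) ^ j with hD'
  have hFj : Function.Injective (F ^ j) := by
    rw [End.coe_pow]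
    exact hF.iterate j
  have hmem : ∀ x : LinearMap.ker D, (b ∘ₗ (LinearMap.ker D).subtype) x ∈
      (LinearMap.range D').dualAnnihilator := by
    rintro ⟨x, hx⟩
    rw [Submodule.mem_dualAnnihilator]
    rintro _ ⟨y, rfl⟩
    obtain ⟨z, rfl⟩ := (LinearMap.injective_iff_surjective.1 hFj) x
    show b ((F ^ j) z) (D' y) = 0
    rw [pairing_pow b F F' hc h j z y]
    have h1 : D z = 0 := by
      apply hFj
      rw [map_zero]
      have h2 : D ((F ^ j) z) = 0 := hx
      have h3 : Commute D (F ^ j) := by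
        rw [hD]
        refine Commute.pow_pow ?_ _ _
        refine Commute.sub_left (Commute.refl F) ?_
        rw [← Algebra.algebraMap_eq_smul_one]
        exact Algebra.commutes c F
      have h4 : (D * F ^ j) z = (F ^ j * D) z := by rw [h3.eq]
      rw [End.mul_apply, End.mul_apply, h2] at h4
      exact h4.symm
    rw [← hD, h1, map_zero, LinearMap.zero_apply, mul_zero]
  let χ : LinearMap.ker D →ₗ[E] (LinearMap.range D').dualAnnihilator :=
    LinearMap.codRestrict _ _ hmem
  have hχ : Function.Injective χ := by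
    rw [injective_iff_map_eq_zero]
    intro x hx
    refine Subtype.ext (hb _ fun y => ?_)
    have h1 : b x = 0 := congrArg Subtype.val hx
    rw [h1]; rfl
  have h1 := LinearMap.finrank_le_finrank_of_injective hχ
  have h2 := Subspace.finrank_add_finrank_dualAnnihilator_eq (LinearMap.range D')
  have h3 := LinearMap.finrank_range_add_finrank_ker D'
  omega

end pairing

lemma kd_pos_eig {V : Type} [AddCommGroup V] [Module E V] [FiniteDimensional E V] (F : End E V)
    (c : E) (j : ℕ) (h : kd F c j ≠ 0) : F.HasEigenvalue c := by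
  by_contra hcon
  apply h
  have h1 : Function.Injective (F - c • (1 : End E V)) := by
    rw [injective_iff_map_eq_zero]
    intro x hx
    by_contra hx0
    apply hcon
    refine End.hasEigenvalue_of_hasEigenvector (x := x) ⟨?_, hx0⟩
    rw [End.mem_eigenspace_iff]
    rw [LinearMap.sub_apply, sub_eq_zero] at hx
    exact hx
  have h2 : Function.Injective ((F - c • (1 : End E V)) ^ j) := by
    rw [End.coe_pow]
    exact h1.iterate j
  unfold kd
  rw [LinearMap.ker_eq_bot.2 h2, finrank_bot]

lemma kd_top {V : Type} [AddCommGroup V] [Module E V] [FiniteDimensional E V] (F : End E V)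
    (c : E) {j : ℕ} (h : finrank E V ≤ j) : kd F c j = finrank E (F.maxGenEigenspace c) := by
  unfold kd
  rw [End.maxGenEigenspace_eq_genEigenspace_finrank,
    ← End.genEigenspace_eq_genEigenspace_finrank_of_le F c h, End.genEigenspace_nat]

lemma kd_one {V : Type} [AddCommGroup V] [Module E V] (F : End E V)
    (c : E) : kd F c 1 = finrank E (F.eigenspace c) := by
  unfold kd
  rw [pow_one, End.eigenspace_def]

/-- the generalized eigenspaces exhaust the space -/
lemma sum_mult [IsAlgClosed E] {V : Type} [AddCommGroup V] [Module E V] [FiniteDimensional E V]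
    (F : End E V) (T : Finset E) (hT : ∀ c, F.HasEigenvalue c → c ∈ T) :
    ∑ c ∈ T, finrank E (F.maxGenEigenspace c) = finrank E V := by
  classical
  have h1 : ∀ c, finrank E (F.maxGenEigenspace c) = F.charpoly.roots.count c := fun c => by
    rw [LinearMap.finrank_maxGenEigenspace_eq, Polynomial.count_roots]
  rw [sum_congr rfl fun c _ => h1 c, Multiset.sum_count_eq_card]
  · rw [← LinearMap.charpoly_natDegree F]
    exact ((IsAlgClosed.splits F.charpoly).natDegree_eq_card_roots).symm
  · intro c hc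
    refine hT c ?_
    rw [Module.End.hasEigenvalue_iff_isRoot_charpoly]
    exact (Polynomial.mem_roots'.1 hc).2

variable {q : ℕ} (A : SmoothTheory q E)

/-- the sum over all degrees of the multiplicities of `c` -/
noncomputable def mg (X : A.Var) (c : E) : ℕ :=
  ∑ i ∈ range (2 * A.dim X + 1), finrank E ((A.F X i).maxGenEigenspace c)

lemma mg_eq (X : A.Var) (c : E) {j : ℕ} (h : A.betti X ≤ j) : KT A X c j = mg A X c := by
  unfold KT mg
  refine sum_congr rfl fun i hi => kd_top _ _ (le_trans ?_ h)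
  unfold SmoothTheory.betti
  exact single_le_sum (f := fun i => finrank E (A.H X i)) (fun i _ => Nat.zero_le _) hi

lemma mg_total [IsAlgClosed E] (X : A.Var) (T : Finset E)
    (hT : ∀ i ∈ range (2 * A.dim X + 1), ∀ c, (A.F X i).HasEigenvalue c → c ∈ T) :
    ∑ c ∈ T, mg A X c = A.betti X := by
  unfold mg SmoothTheory.betti
  rw [sum_comm]
  exact sum_congr rfl fun i hi => sum_mult (A.F X i) T (hT i hi)

lemma KT_dual [CharZero E] (hq : q ≠ 0) (X : A.Var) {c : E} (hc : c ≠ 0) (j : ℕ) :
    KT A X c j ≤ KT A X ((q : E) ^ A.dim X / c) j := by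
  unfold KT
  rw [← Finset.sum_range_reflect (fun i => kd (A.F X i) ((q : E) ^ A.dim X / c) j)]
  refine sum_le_sum fun i hi => ?_
  rw [mem_range] at hi
  obtain ⟨B, ⟨h1, h2, h3, h4, h5, h6⟩, h7⟩ := A.dual X i (2 * A.dim X + 1 - 1 - i) (by omega)
  exact kd_dual (LinearMap.mk₂ E B h1 h2 h3 h4) h5 _ (F_inj A hq X i) _ hc h7 j

lemma KT_sym [CharZero E] (hq : q ≠ 0) (X : A.Var) {c : E} (hc : c ≠ 0) (j : ℕ) :
    KT A X c j = KT A X ((q : E) ^ A.dim X / c) j := by
  have hq' : ((q : E) ^ A.dim X) ≠ 0 := pow_ne_zero _ (by exact_mod_cast hq)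
  refine le_antisymm (KT_dual A hq X hc j) ?_
  have h1 := KT_dual A hq X (div_ne_zero hq' hc) j
  rwa [div_div_cancel₀ hq'] at h1

lemma mg_sym [CharZero E] (hq : q ≠ 0) (X : A.Var) {c : E} (hc : c ≠ 0) :
    mg A X c = mg A X ((q : E) ^ A.dim X / c) := by
  rw [← mg_eq A X c le_rfl, ← mg_eq A X _ le_rfl]
  exact KT_sym A hq X hc _

lemma mg_zero [CharZero E] (hq : q ≠ 0) (X : A.Var) : mg A X 0 = 0 := by
  rw [← mg_eq A X 0 le_rfl]
  unfold KT
  refine sum_eq_zero fun i _ => ?_
  by_contra h
  obtain ⟨v, hv⟩ := (kd_pos_eig _ _ _ h).exists_hasEigenvector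
  have h1 := hv.apply_eq_smul
  rw [zero_smul] at h1
  exact hv.2 (F_inj A hq X i (by rw [h1, map_zero]))

/-- weights: only the middle degree -/
lemma KT_mid [CharZero E] (hq : q ≠ 0) (X : A.Var) {e : ℕ} (he : A.dim X = 2 * e) (j : ℕ) :
    KT A X ((q : E) ^ e) j = kd (A.F X (2 * e)) ((q : E) ^ e) j := by
  have hq' : ∀ n : ℕ, ((q : E) ^ n) ≠ 0 := fun n => pow_ne_zero _ (by exact_mod_cast hq)
  unfold KT
  refine sum_eq_single_of_mem (2 * e) (by rw [mem_range]; omega) fun i hi hne => ?_
  rw [mem_range] at hi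
  by_contra h
  obtain ⟨B, ⟨h1, h2, h3, h4, h5, h6⟩, h7⟩ := A.dual X i (2 * A.dim X - i) (by omega)
  have h8 := kd_dual (LinearMap.mk₂ E B h1 h2 h3 h4) h5 _ (F_inj A hq X i) _ (hq' e) h7 j
  have h9 : (q : E) ^ A.dim X / (q : E) ^ e = (q : E) ^ e := by
    rw [he, two_mul, pow_add, mul_div_cancel_right₀ _ (hq' e)]
  rw [h9] at h8
  have h10 : kd (A.F X (2 * A.dim X - i)) ((q : E) ^ e) j ≠ 0 := by omega
  exact A.pure X X i (2 * A.dim X - i) _ (by omega) (kd_pos_eig _ _ _ h) (kd_pos_eig _ _ _ h10)

end Pool.Agent.Helper82.TP
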