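import Pool.Agent.Helper82.TP.Asym

/-!
# The final statements
-/

set_option autoImplicit false

namespace Pool.Agent.Helper82.TP

open Module Finset Filter Topology
open scoped TensorProduct
open Pool.Agent.Helper17.JB

section semisimple

variable {E : Type} [Field E] [CharZero E] [IsAlgClosed E]

omit [IsAlgClosed E] in
lemma ss_tensor {V W : Type} [AddCommGroup V] [Module E V] [AddCommGroup W] [Module E W]
    [FiniteDimensional E V] [FiniteDimensional E W] (F : End E V) (G : End E W)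
    (hF : F.IsSemisimple) (hG : G.IsSemisimple) :
    Module.End.IsSemisimple (TensorProduct.map F G) := by
  have h1 : (Module.End.lTensorAlgHom E W V G).IsSemisimple := by
    refine End.isSemisimple_of_squarefree_aeval_eq_zero hG.minpoly_squarefree ?_
    rw [Polynomial.aeval_algHom_apply, minpoly.aeval, map_zero]
  have h2 : (Module.End.rTensorAlgHom E V W F).IsSemisimple := by
    refine End.isSemisimple_of_squarefree_aeval_eq_zero hF.minpoly_squarefree ?_
    rw [Polynomial.aeval_algHom_apply, minpoly.aeval, map_zero]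
  have e1 : TensorProduct.map F G =
      Module.End.rTensorAlgHom E V W F * Module.End.lTensorAlgHom E W V G := by
    refine TensorProduct.ext' fun x y => ?_
    rfl
  have e2 : Commute (Module.End.rTensorAlgHom E V W F) (Module.End.lTensorAlgHom E W V G) := by
    refine TensorProduct.ext' fun x y => ?_
    rfl
  rw [e1]
  exact End.IsSemisimple.mul_of_commute e2 h2 h1

variable {q : ℕ} (A : SmoothTheory q E)

lemma ss_prod (X Y : A.Var) (hX : ∀ i, (A.F X i).IsSemisimple) (hY : ∀ i, (A.F Y i).IsSemisimple)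
    (n : ℕ) : (A.F (A.prod X Y) n).IsSemisimple := by
  by_contra hcon
  obtain ⟨c, k, hk, v, φ, h1, -, h3⟩ := exists_block _ hcon
  apply h3
  obtain ⟨e, he⟩ := Pool.Agent.Helper17.JB.SmoothTheory.kun' A X Y n
  obtain ⟨x, rfl⟩ := e.surjective v
  set T : ∀ i : Fin (n + 1), End E (A.H X i ⊗[E] A.H Y (n - i)) := fun i =>
    TensorProduct.map (A.F X i) (A.F Y (n - i)) with hT
  have hTs : ∀ i, (T i).IsSemisimple := fun i => ss_tensor _ _ (hX _) (hY _)
  set TT : End E (∀ i : Fin (n + 1), A.H X i ⊗[E] A.H Y (n - i)) :=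
    LinearMap.pi fun i => T i ∘ₗ LinearMap.proj i with hTT
  have h4 : ∀ (m : ℕ) (z : ∀ i : Fin (n + 1), A.H X i ⊗[E] A.H Y (n - i)),
      e (((TT - c • 1) ^ m) z) =
        ((A.F (A.prod X Y) n - c • 1) ^ m) (e z) := fun m z =>
    inter_pow e.toLinearMap TT (A.F (A.prod X Y) n) (fun z => (he z).symm) c m z
  have h5 : ∀ (m : ℕ) (z : ∀ i : Fin (n + 1), A.H X i ⊗[E] A.H Y (n - i)) (i : Fin (n + 1)),
      ((TT - c • 1) ^ m) z i = ((T i - c • 1) ^ m) (z i) := fun m z i =>
    inter_pow (LinearMap.proj i) TT (T i) (fun z => rfl) c m z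
  rw [← h4] at h1
  have h6 : ((TT - c • 1) ^ k) x = 0 := e.injective (by rw [h1, map_zero])
  have h7 : ((TT - c • 1) ^ (k - 1)) x = 0 := by
    funext i
    rw [h5]
    have h8 : ((T i - c • 1) ^ k) (x i) = 0 := by
      rw [← h5, h6]
      rfl
    have h9 : x i ∈ (T i).maxGenEigenspace c := by
      rw [End.mem_maxGenEigenspace]
      exact ⟨k, h8⟩
    rw [(hTs i).isFinitelySemisimple.maxGenEigenspace_eq_eigenspace, End.mem_eigenspace_iff] at h9
    have h10 : (T i - c • 1) (x i) = 0 := by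
      rw [LinearMap.sub_apply, LinearMap.smul_apply, End.one_apply, h9, sub_self]
    obtain ⟨m, hm⟩ : ∃ m, k - 1 = m + 1 := ⟨k - 2, by omega⟩
    rw [hm, pow_succ, End.mul_apply, h10, map_zero]
    rfl
  rw [← h4, h7, map_zero, map_zero]

lemma ss_pow (X : A.Var) (hX : ∀ i, (A.F X i).IsSemisimple) (n : ℕ) :
    ∀ i, (A.F (A.pow X n) i).IsSemisimple := by
  induction n with
  | zero => exact hX
  | succ n ih => exact fun i => ss_prod A (A.pow X n) X ih hX i

end semisimple

variable {q : ℕ} {E : Type} [Field E] [CharZero E] [IsAlgClosed E] (A : SmoothTheory q E)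

/-- the dimension of the eigenspace -/
noncomputable def tate (Y : A.Var) (e : ℕ) : ℕ := finrank E ((A.F Y (2 * e)).eigenspace ((q : E) ^ e))

/-- the dimension of the generalized eigenspace -/
noncomputable def pole (Y : A.Var) (e : ℕ) : ℕ :=
  finrank E ((A.F Y (2 * e)).maxGenEigenspace ((q : E) ^ e))

variable {A}

omit [CharZero E] [IsAlgClosed E] in
lemma tate_eq_pole {Y : A.Var} {e : ℕ} (h : (A.F Y (2 * e)).IsSemisimple) : tate A Y e = pole A Y e := by
  unfold tate pole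
  rw [h.isFinitelySemisimple.maxGenEigenspace_eq_eigenspace]

omit [IsAlgClosed E] in
lemma tate_KT (hq : q ≠ 0) {Y : A.Var} {e : ℕ} (he : A.dim Y = 2 * e) :
    tate A Y e = KT A Y ((q : E) ^ e) 1 := by
  rw [KT_mid A hq Y he, kd_one]
  rfl

omit [IsAlgClosed E] in
lemma pole_mg (hq : q ≠ 0) {Y : A.Var} {e : ℕ} (he : A.dim Y = 2 * e) :
    pole A Y e = mg A Y ((q : E) ^ e) := by
  have h1 := KT_mid A hq Y he (A.betti Y)
  rw [mg_eq A Y _ le_rfl] at h1
  rw [h1]
  unfold pole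
  refine (kd_top _ _ ?_).symm
  unfold SmoothTheory.betti
  refine single_le_sum (f := fun i => finrank E (A.H Y i)) (fun i _ => Nat.zero_le _) ?_
  rw [mem_range]
  omega

omit [CharZero E] [IsAlgClosed E] in
lemma dim_even (X : A.Var) (n : ℕ) : A.dim (A.pow X (2 * n + 1)) = 2 * ((n + 1) * A.dim X) := by
  rw [Pool.Agent.Helper17.JB.SmoothTheory.dim_pow]
  ring

/-- the rate for a variety with a Frobenius that is not semisimple -/
theorem decay (hq : q ≠ 0) (X : A.Var) (i : ℕ) (h : ¬ (A.F X i).IsSemisimple) :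
    ∃ K : ℝ, ∀ n : ℕ, 0 < pole A (A.pow X (2 * n + 1)) ((n + 1) * A.dim X) ∧
      (tate A (A.pow X (2 * n + 1)) ((n + 1) * A.dim X) : ℝ) ≤
        K / √(n + 1) * pole A (A.pow X (2 * n + 1)) ((n + 1) * A.dim X) := by
  obtain ⟨a, C, _, ν, L⟩ := exists_lets A hq X i h
  obtain ⟨K, hK⟩ := rate hq L
  refine ⟨K, fun n => ?_⟩
  obtain ⟨h1, h2⟩ := hK n
  have hN : n + 1 + (n + 1) = 2 * n + 1 + 1 := by ring
  rw [hN] at h1 h2
  have e1 : (pole A (A.pow X (2 * n + 1)) ((n + 1) * A.dim X) : ℝ) =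
      S a ν (2 * n + 1 + 1) (fun k => 2 ^ k) ((q : E) ^ ((n + 1) * A.dim X)) := by
    rw [pole_mg hq (dim_even X n), mg_S hq L]
  have hc : ((q : E) ^ ((n + 1) * A.dim X)) ≠ 0 := pow_ne_zero _ (by exact_mod_cast hq)
  have e2 : (tate A (A.pow X (2 * n + 1)) ((n + 1) * A.dim X) : ℝ) ≤
      S a ν (2 * n + 1 + 1) (fun k => (pw 1 k : ℝ)) ((q : E) ^ ((n + 1) * A.dim X)) := by
    rw [tate_KT hq (dim_even X n)]
    exact up L (2 * n + 1 + 1) _ 1 hc
  rw [← e1] at h1 h2
  exact ⟨by exact_mod_cast h1, e2.trans h2⟩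

/-- **The zero-one law.** -/
theorem zero_one (hq : q ≠ 0) (X : A.Var) :
    ((∀ i, (A.F X i).IsSemisimple) ∧ ∀ n : ℕ, tate A (A.pow X (2 * n + 1)) ((n + 1) * A.dim X) =
      pole A (A.pow X (2 * n + 1)) ((n + 1) * A.dim X)) ∨
    ∃ K : ℝ, ∀ n : ℕ, 0 < pole A (A.pow X (2 * n + 1)) ((n + 1) * A.dim X) ∧
      (tate A (A.pow X (2 * n + 1)) ((n + 1) * A.dim X) : ℝ) ≤
        K / √(n + 1) * pole A (A.pow X (2 * n + 1)) ((n + 1) * A.dim X) := by
  by_cases h : ∀ i, (A.F X i).IsSemisimple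
  · exact Or.inl ⟨h, fun n => tate_eq_pole (ss_pow A X h _ _)⟩
  · push Not at h
    obtain ⟨i, hi⟩ := h
    exact Or.inr (decay hq X i hi)

/-- **The criterion.** -/
theorem crit (hq : q ≠ 0) (C : CompleteTheory A) :
    C.Q1 ↔ ∀ ε : ℝ, 0 < ε → ∃ K : ℝ, ∀ (Y : A.Var) (e : ℕ), A.dim Y = 2 * e →
      (pole A Y e : ℝ) ≤ (K + ε * √(Real.log (A.betti Y))) * tate A Y e := by
  constructor
  · intro h ε hε
    refine ⟨1, fun Y e _ => ?_⟩
    have hs : (A.F Y (2 * e)).IsSemisimple := by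
      by_contra hcon
      obtain ⟨c, k, hk, hb⟩ := exists_block _ hcon
      exact smooth_of_q1 C h Y (2 * e) c k hk (hasBlock_of_crit (by omega) hb)
    rw [tate_eq_pole hs]
    have h1 : (0 : ℝ) ≤ pole A Y e := Nat.cast_nonneg _
    have h2 : 0 ≤ ε * √(Real.log (A.betti Y)) := mul_nonneg hε.le (Real.sqrt_nonneg _)
    nlinarith
  · intro h
    refine complete_of_smooth C fun X i => ?_
    by_contra hcon
    obtain ⟨K0, hK0⟩ := decay hq X i hcon
    -- the constant is positive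
    obtain ⟨K, hK, hKn⟩ : ∃ K : ℝ, 0 < K ∧ ∀ n : ℕ,
        0 < pole A (A.pow X (2 * n + 1)) ((n + 1) * A.dim X) ∧
        (tate A (A.pow X (2 * n + 1)) ((n + 1) * A.dim X) : ℝ) ≤
        K / √(n + 1) * pole A (A.pow X (2 * n + 1)) ((n + 1) * A.dim X) := by
      refine ⟨max K0 1, lt_max_of_lt_right one_pos, fun n => ⟨(hK0 n).1, (hK0 n).2.trans ?_⟩⟩
      refine mul_le_mul_of_nonneg_right ?_ (Nat.cast_nonneg _)
      exact div_le_div_of_nonneg_right (le_max_left _ _) (Real.sqrt_nonneg _)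
    set Lb : ℝ := √(2 * Real.log (A.betti X)) with hLb
    have hLb0 : 0 ≤ Lb := Real.sqrt_nonneg _
    obtain ⟨K', hK'⟩ := h (1 / (2 * K * (Lb + 1))) (by positivity)
    obtain ⟨n, hn⟩ := exists_nat_gt ((2 * K * |K'|) ^ 2)
    obtain ⟨h1, h2⟩ := hKn n
    have h3 := hK' _ _ (dim_even X n)
    set P : ℝ := (pole A (A.pow X (2 * n + 1)) ((n + 1) * A.dim X) : ℝ) with hP
    set T : ℝ := (tate A (A.pow X (2 * n + 1)) ((n + 1) * A.dim X) : ℝ) with hT
    have hP0 : 0 < P := by rw [hP]; exact_mod_cast h1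
    have hT0 : 0 ≤ T := Nat.cast_nonneg _
    have hn1 : (0 : ℝ) < (n : ℝ) + 1 := by positivity
    have hsn : 0 < √((n : ℝ) + 1) := Real.sqrt_pos.2 hn1
    have h4 : √(Real.log (A.betti (A.pow X (2 * n + 1)))) = √((n : ℝ) + 1) * Lb := by
      rw [Pool.Agent.Helper17.JB.SmoothTheory.betti_pow, hLb, ← Real.sqrt_mul hn1.le]
      congr 1
      push_cast
      rw [Real.log_pow]
      push_cast
      ring
    rw [h4] at h3
    have h5 : K' < √((n : ℝ) + 1) / (2 * K) := by
      rw [lt_div_iff₀ (by positivity)]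
      refine lt_of_le_of_lt (b := 2 * K * |K'|) ?_ ?_
      · rw [mul_comm]
        exact mul_le_mul_of_nonneg_left (le_abs_self _) (by positivity)
      · refine Real.lt_sqrt_of_sq_lt ?_
        linarith
    have h6 : 1 / (2 * K * (Lb + 1)) * (√((n : ℝ) + 1) * Lb) ≤ √((n : ℝ) + 1) / (2 * K) := by
      rw [div_mul_eq_mul_div, one_mul, div_le_div_iff₀ (by positivity) (by positivity)]
      have : 0 ≤ √((n : ℝ) + 1) * (2 * K) := by positivity
      nlinarith
    have h7 : K' + 1 / (2 * K * (Lb + 1)) * (√((n : ℝ) + 1) * Lb) < √((n : ℝ) + 1) / K := by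
      have : √((n : ℝ) + 1) / K = √((n : ℝ) + 1) / (2 * K) + √((n : ℝ) + 1) / (2 * K) := by
        field_simp
        ring
      linarith
    -- the eigenspace is not zero
    have hT1 : 0 < T := by
      by_contra hcon2
      have : T = 0 := le_antisymm (not_lt.1 hcon2) hT0
      rw [this, mul_zero] at h3
      linarith
    have h8 : P < √((n : ℝ) + 1) / K * T := lt_of_le_of_lt h3 (mul_lt_mul_of_pos_right h7 hT1)
    have h9 : √((n : ℝ) + 1) / K * T ≤ P := by
      calc √((n : ℝ) + 1) / K * T ≤ √((n : ℝ) + 1) / K * (K / √((n : ℝ) + 1) * P) :=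
            mul_le_mul_of_nonneg_left h2 (by positivity)
        _ = P := by field_simp
    linarith

end Pool.Agent.Helper82.TP
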