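import Mathlib
import Pool.Agent.Helper352.Kron
import Pool.Agent.H486R2.RedG

/-!
Zeros of the partial sums of Dirichlet L-series: the transfer from completely multiplicative
unimodular functions (Kronecker's theorem and the maximum principle).
-/

set_option autoImplicit false

open Finset Complex

namespace Pool.Agent.Helper82.TP

/-- the completely multiplicative function with values `c p` at the primes -/
noncomputable def F (c : ℕ → ℂ) (n : ℕ) : ℂ := n.factorization.prod fun p e => c p ^ e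

lemma F_one (c : ℕ → ℂ) : F c 1 = 1 := by simp [F]

lemma F_mul (c : ℕ → ℂ) {m n : ℕ} (hm : m ≠ 0) (hn : n ≠ 0) : F c (m * n) = F c m * F c n := by
  unfold F
  rw [Nat.factorization_mul hm hn]
  exact Finsupp.prod_add_index' (fun _ => pow_zero _) fun _ _ _ => pow_add _ _ _

lemma F_prime (c : ℕ → ℂ) {p : ℕ} (hp : p.Prime) : F c p = c p := by
  unfold F
  rw [hp.factorization]
  have h : (Finsupp.single p 1).prod (fun p e => c p ^ e) = c p ^ 1 :=
    Finsupp.prod_single_index (pow_zero _)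
  rw [h, pow_one]

lemma F_congr {c c' : ℕ → ℂ} {n : ℕ} (h : ∀ p, p.Prime → p ∣ n → c p = c' p) : F c n = F c' n := by
  unfold F
  refine Finsupp.prod_congr fun p hp => ?_
  rw [Nat.support_factorization, Nat.mem_primeFactors] at hp
  rw [h p hp.1 hp.2.1]

lemma norm_F {c : ℕ → ℂ} {n : ℕ} (h : ∀ p, p.Prime → p ∣ n → ‖c p‖ = 1) : ‖F c n‖ = 1 := by
  unfold F
  rw [Finsupp.prod, norm_prod]
  refine prod_eq_one fun p hp => ?_
  rw [Nat.support_factorization, Nat.mem_primeFactors] at hp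
  rw [norm_pow, h p hp.1 hp.2.1, one_pow]

/-- the Dirichlet polynomial of `F c` over the integers prime to `k` -/
noncomputable def D (k N : ℕ) (c : ℕ → ℂ) (s : ℂ) : ℂ :=
  ∑ n ∈ (Icc 1 N).filter (fun n => Nat.Coprime n k), F c n * (n : ℂ) ^ (-s)

/-- the partial sum of the L-series -/
noncomputable def S {k : ℕ} (χ : DirichletCharacter ℂ k) (N : ℕ) (s : ℂ) : ℂ :=
  ∑ n ∈ Icc 1 N, χ n * (n : ℂ) ^ (-s)

lemma S_eq {k : ℕ} (χ : DirichletCharacter ℂ k) (N : ℕ) (s : ℂ) :
    S χ N s = ∑ n ∈ (Icc 1 N).filter (fun n => Nat.Coprime n k), χ n * (n : ℂ) ^ (-s) := by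
  unfold S
  rw [sum_filter]
  refine sum_congr rfl fun n _ => ?_
  split_ifs with h
  · rfl
  · rw [MulChar.map_nonunit, zero_mul]
    rwa [ZMod.isUnit_iff_coprime]

lemma norm_chi {k : ℕ} (χ : DirichletCharacter ℂ k) {n : ℕ} (h : Nat.Coprime n k) :
    ‖χ (n : ZMod k)‖ = 1 := by
  have h1 : IsUnit (n : ZMod k) := (ZMod.isUnit_iff_coprime n k).2 h
  obtain ⟨u, hu⟩ := h1
  rw [← hu]
  exact χ.unit_norm_eq_one u

/-- the twist by `n ^ (-i τ)` -/
noncomputable def w (τ : ℝ) (n : ℕ) : ℂ := exp (-(I * (τ * Real.log n)))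

lemma w_one (τ : ℝ) : w τ 1 = 1 := by simp [w]

lemma w_mul (τ : ℝ) {m n : ℕ} (hm : m ≠ 0) (hn : n ≠ 0) : w τ (m * n) = w τ m * w τ n := by
  unfold w
  rw [← exp_add]
  congr 1
  rw [Nat.cast_mul, Real.log_mul (by exact_mod_cast hm) (by exact_mod_cast hn)]
  push_cast
  ring

lemma norm_w (τ : ℝ) (n : ℕ) : ‖w τ n‖ = 1 := by
  unfold w
  rw [norm_exp]
  have h : (-(I * ((τ : ℂ) * (Real.log n : ℂ)))).re = 0 := by
    rw [← ofReal_mul, neg_re, mul_re, I_re, I_im, ofReal_re, ofReal_im]; ring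
  rw [h, Real.exp_zero]

lemma cpow_add_I {n : ℕ} (hn : n ≠ 0) (s : ℂ) (τ : ℝ) :
    (n : ℂ) ^ (-(s + I * τ)) = w τ n * (n : ℂ) ^ (-s) := by
  have h : (n : ℂ) ≠ 0 := by exact_mod_cast hn
  rw [cpow_def_of_ne_zero h, cpow_def_of_ne_zero h, w, ← exp_add]
  congr 1
  rw [← Complex.natCast_log]
  ring

/-- Kronecker's theorem for the primes up to `N` -/
lemma approx {k : ℕ} (χ : DirichletCharacter ℂ k) (N : ℕ) (c : ℕ → ℂ)
    (hc : ∀ p, p.Prime → p ≤ N → Nat.Coprime p k → ‖c p‖ = 1) {η : ℝ} (hη : 0 < η) :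
    ∃ τ : ℝ, ∀ p : ℕ, p.Prime → p ≤ N → Nat.Coprime p k → ‖χ p * w τ p - c p‖ ≤ η := by
  classical
  set s : Finset ℕ := (Icc 1 N).filter (fun p => p.Prime ∧ Nat.Coprime p k) with hs
  have hpr : ∀ i : s, (i : ℕ).Prime ∧ (i : ℕ) ≤ N ∧ Nat.Coprime (i : ℕ) k := by
    intro i
    obtain ⟨h1, h2⟩ := mem_filter.1 i.2
    exact ⟨h2.1, (mem_Icc.1 h1).2, h2.2⟩
  have hpi : 0 < Real.pi := Real.pi_pos
  obtain ⟨τ, -, hτ⟩ := Pool.Agent.Helper352.kronecker
    (fun i : s => Real.log (i : ℕ) / (2 * Real.pi))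
    (fun i : s => -arg (c i / χ (i : ℕ)) / (2 * Real.pi)) (by
      intro m hm
      have h1 : ∑ i : s, (m i : ℝ) * Real.log (i : ℕ) = 0 := by
        have h2 : (2 * Real.pi) * ∑ i : s, (m i : ℝ) * (Real.log (i : ℕ) / (2 * Real.pi)) = 0 := by
          rw [hm, mul_zero]
        rw [← h2, mul_sum]
        refine sum_congr rfl fun i _ => ?_
        field_simp
      have h3 := Pool.Agent.H486R2.Zneg.log_indep (fun i : s => (i : ℕ)) (fun i => (hpr i).1)
        Subtype.val_injective m h1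
      refine ⟨0, ?_⟩
      simp [h3]) (η / (2 * Real.pi)) (by positivity) 0
  refine ⟨τ, fun p hp hpN hpk => ?_⟩
  obtain ⟨n, hn⟩ := hτ ⟨p, by rw [hs, mem_filter, mem_Icc]; exact ⟨⟨hp.one_lt.le, hpN⟩, hp, hpk⟩⟩
  simp only at hn
  have hchi : ‖χ (p : ZMod k)‖ = 1 := norm_chi χ hpk
  have hcn := hc p hp hpN hpk
  have hchi0 : χ (p : ZMod k) ≠ 0 := fun h => by rw [h, norm_zero] at hchi; norm_num at hchi
  set z : ℂ := c p / χ (p : ZMod k) with hz
  have hz1 : ‖z‖ = 1 := by rw [hz, norm_div, hcn, hchi, div_one]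
  set e : ℝ := τ * (Real.log p / (2 * Real.pi)) - -arg z / (2 * Real.pi) - n with he
  have hlog : τ * Real.log p = -arg z + 2 * Real.pi * n + 2 * Real.pi * e := by
    rw [he]; field_simp; ring
  have hw : w τ p = z * exp (I * ((-(2 * Real.pi * e) : ℝ) : ℂ)) := by
    have hzz : z = exp (arg z * I) := by
      have := norm_mul_exp_arg_mul_I z
      rw [hz1, ofReal_one, one_mul] at this
      exact this.symm
    have h1 : (-(I * ((τ : ℂ) * (Real.log p : ℂ)))) = arg z * I +
        I * ((-(2 * Real.pi * e) : ℝ) : ℂ) + ((-n : ℤ) : ℂ) * (2 * Real.pi * I) := by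
      have h2 : (τ : ℂ) * (Real.log p : ℂ) = ((-arg z + 2 * Real.pi * n + 2 * Real.pi * e : ℝ) : ℂ) := by
        rw [← hlog]; push_cast; rfl
      rw [h2]
      push_cast
      ring
    unfold w
    rw [h1, exp_add, exp_add, exp_int_mul_two_pi_mul_I, mul_one, ← hzz]
  rw [hw]
  have h4 : χ (p : ZMod k) * (z * exp (I * ((-(2 * Real.pi * e) : ℝ) : ℂ))) - c p =
      c p * (exp (I * ((-(2 * Real.pi * e) : ℝ) : ℂ)) - 1) := by
    have : χ (p : ZMod k) * z = c p := by rw [hz]; field_simp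
    rw [← mul_assoc, this]; ring
  rw [h4, norm_mul, hcn, one_mul]
  refine (Real.norm_exp_I_mul_ofReal_sub_one_le).trans ?_
  rw [Real.norm_eq_abs, abs_neg, abs_mul, abs_of_pos (by positivity : 0 < 2 * Real.pi)]
  rw [lt_div_iff₀ (by positivity)] at hn
  linarith

lemma close {k : ℕ} (χ : DirichletCharacter ℂ k) (c : ℕ → ℂ) (P : ℕ → Prop) {τ η : ℝ}
    (hc : ∀ p, p.Prime → P p → ‖c p‖ = 1) (h : ∀ p : ℕ, p.Prime → P p → ‖χ p * w τ p - c p‖ ≤ η) :
    ∀ n : ℕ, n ≠ 0 → (∀ p, p.Prime → p ∣ n → P p) →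
      ‖χ n * w τ n - F c n‖ ≤ ArithmeticFunction.cardFactors n * η := by
  intro n
  induction n using Nat.recOnMul with
  | zero => intro h; exact absurd rfl h
  | one => intro _ _; simp [w_one, F_one]
  | prime p hp =>
    intro _ h1
    rw [F_prime c hp, ArithmeticFunction.cardFactors_apply_prime hp, Nat.cast_one, one_mul]
    exact h p hp (h1 p hp dvd_rfl)
  | mul a b iha ihb =>
    intro hab h1
    have ha : a ≠ 0 := left_ne_zero_of_mul hab
    have hb : b ≠ 0 := right_ne_zero_of_mul hab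
    have h2 := iha ha fun p hp hd => h1 p hp (hd.mul_right b)
    have h3 := ihb hb fun p hp hd => h1 p hp (hd.mul_left a)
    rw [F_mul c ha hb, w_mul τ ha hb, ArithmeticFunction.cardFactors_mul ha hb]
    have h4 : χ ((a * b : ℕ) : ZMod k) = χ (a : ZMod k) * χ (b : ZMod k) := by
      rw [Nat.cast_mul, map_mul]
    rw [h4]
    have h5 : χ (a : ZMod k) * χ (b : ZMod k) * (w τ a * w τ b) - F c a * F c b =
        (χ (a : ZMod k) * w τ a - F c a) * (χ (b : ZMod k) * w τ b) +
          F c a * (χ (b : ZMod k) * w τ b - F c b) := by ring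
    rw [h5]
    have h6 : ‖χ (b : ZMod k) * w τ b‖ ≤ 1 := by
      rw [norm_mul, norm_w, mul_one]; exact χ.norm_le_one _
    have h7 : ‖F c a‖ = 1 := norm_F fun p hp hd => hc p hp (h1 p hp (hd.mul_right b))
    calc _ ≤ ‖(χ (a : ZMod k) * w τ a - F c a) * (χ (b : ZMod k) * w τ b)‖ +
          ‖F c a * (χ (b : ZMod k) * w τ b - F c b)‖ := norm_add_le _ _
      _ ≤ ArithmeticFunction.cardFactors a * η * 1 + 1 * (ArithmeticFunction.cardFactors b * η) := by
          rw [norm_mul (χ (a : ZMod k) * w τ a - F c a), norm_mul (F c a), h7]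
          gcongr
          exact (norm_nonneg _).trans h2
      _ = _ := by push_cast; ring

lemma D_differentiable (k N : ℕ) (c : ℕ → ℂ) : Differentiable ℂ (D k N c) := by
  unfold D
  refine Differentiable.fun_sum fun n hn => ?_
  have h : (n : ℂ) ≠ 0 := by
    rw [mem_filter, mem_Icc] at hn
    exact_mod_cast (by omega : n ≠ 0)
  intro s
  exact (differentiableAt_const _).mul
    ((differentiableAt_id.neg).const_cpow (Or.inl h))

lemma S_differentiable {k : ℕ} (χ : DirichletCharacter ℂ k) (N : ℕ) : Differentiable ℂ (S χ N) := by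
  unfold S
  refine Differentiable.fun_sum fun n hn => ?_
  have h : (n : ℂ) ≠ 0 := by
    rw [mem_Icc] at hn
    exact_mod_cast (by omega : n ≠ 0)
  intro s
  exact (differentiableAt_const _).mul
    ((differentiableAt_id.neg).const_cpow (Or.inl h))

/-- `D` is not identically zero. -/
lemma D_ne_zero (k N : ℕ) (hN : 1 ≤ N) (c : ℕ → ℂ)
    (hc : ∀ p, p.Prime → p ≤ N → Nat.Coprime p k → ‖c p‖ = 1) : ∃ s : ℂ, D k N c s ≠ 0 := by
  obtain ⟨m, hm⟩ : ∃ m : ℕ, N < 2 ^ m := ⟨N, Nat.lt_two_pow_self⟩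
  refine ⟨(m : ℂ), ?_⟩
  intro h0
  unfold D at h0
  have h1 : 1 ∈ (Icc 1 N).filter (fun n => Nat.Coprime n k) := by
    rw [mem_filter, mem_Icc]; exact ⟨⟨le_rfl, hN⟩, Nat.coprime_one_left k⟩
  rw [← add_sum_erase _ _ h1] at h0
  have h2 : F c 1 * ((1 : ℕ) : ℂ) ^ (-(m : ℂ)) = 1 := by simp [F_one]
  rw [h2] at h0
  have h3 : ‖∑ n ∈ ((Icc 1 N).filter (fun n => Nat.Coprime n k)).erase 1,
      F c n * (n : ℂ) ^ (-(m : ℂ))‖ < 1 := by
    calc _ ≤ ∑ n ∈ ((Icc 1 N).filter (fun n => Nat.Coprime n k)).erase 1, ((2 : ℝ) ^ m)⁻¹ := by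
          refine norm_sum_le_of_le _ fun n hn => ?_
          rw [mem_erase, mem_filter, mem_Icc] at hn
          have h4 : ‖F c n‖ = 1 := norm_F fun p hp hd => hc p hp
            ((Nat.le_of_dvd (by omega) hd).trans hn.2.1.2) (hn.2.2.coprime_dvd_left hd)
          rw [norm_mul, h4, one_mul, cpow_neg, cpow_natCast, norm_inv, norm_pow, norm_natCast]
          have h5 : (2 : ℝ) ≤ n := by exact_mod_cast (by omega : 2 ≤ n)
          gcongr
      _ ≤ (N : ℝ) * ((2 : ℝ) ^ m)⁻¹ := by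
          rw [sum_const, nsmul_eq_mul]
          have h5 : (((Icc 1 N).filter (fun n => Nat.Coprime n k)).erase 1).card ≤ N := by
            refine (card_le_card (erase_subset _ _)).trans ((card_le_card (filter_subset _ _)).trans ?_)
            simp
          gcongr
      _ < 1 := by
          rw [mul_inv_lt_iff₀ (by positivity), one_mul]
          exact_mod_cast hm
  have h4 : ∑ n ∈ ((Icc 1 N).filter (fun n => Nat.Coprime n k)).erase 1,
      F c n * (n : ℂ) ^ (-(m : ℂ)) = -1 := by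
    linear_combination h0
  rw [h4, norm_neg, norm_one] at h3
  exact lt_irrefl _ h3

/-- The transfer: a real zero `σ > 1` of `D` yields a zero of the partial sum of the L-series. -/
theorem transfer {k : ℕ} (χ : DirichletCharacter ℂ k) (N : ℕ) (hN : 1 ≤ N) (c : ℕ → ℂ)
    (hc : ∀ p, p.Prime → p ≤ N → Nat.Coprime p k → ‖c p‖ = 1)
    {σ : ℝ} (hσ : 1 < σ) (h0 : D k N c σ = 0) : ∃ s : ℂ, 1 < s.re ∧ S χ N s = 0 := by
  by_contra hcon
  push Not at hcon
  have hDd := D_differentiable k N c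
  have hDa : AnalyticOnNhd ℂ (D k N c) Set.univ :=
    fun z _ => hDd.analyticAt z
  have hiso := (hDa (σ : ℂ) (Set.mem_univ _)).eventually_eq_zero_or_eventually_ne_zero
  rcases hiso with hiso | hiso
  · have h1 := hDa.eqOn_zero_of_preconnected_of_eventuallyEq_zero isPreconnected_univ
      (Set.mem_univ _) hiso
    obtain ⟨s, hs⟩ := D_ne_zero k N hN c hc
    exact hs (h1 (Set.mem_univ s))
  rw [eventually_nhdsWithin_iff, Metric.eventually_nhds_iff] at hiso
  obtain ⟨r, hr, hiso⟩ := hiso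
  set ρ : ℝ := min r (σ - 1) / 2 with hρ
  have hm0 : 0 < min r (σ - 1) := lt_min hr (by linarith)
  have hρ0 : 0 < ρ := by positivity
  have hρr : ρ < r := by
    have := min_le_left r (σ - 1); linarith
  have hρσ : ρ < σ - 1 := by
    have := min_le_right r (σ - 1); linarith
  have hne : ∀ z ∈ Metric.sphere (σ : ℂ) ρ, D k N c z ≠ 0 := by
    intro z hz
    rw [Metric.mem_sphere] at hz
    refine hiso (by rw [hz]; exact hρr) ?_
    intro h
    rw [Set.mem_singleton_iff] at h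
    rw [h, dist_self] at hz
    linarith
  obtain ⟨z₀, hz₀, hmin⟩ := (isCompact_sphere (σ : ℂ) ρ).exists_isMinOn
    ⟨(σ : ℂ) + ρ, by simp [abs_of_pos hρ0]⟩ (hDd.continuous.norm.continuousOn)
  set m : ℝ := ‖D k N c z₀‖ with hm
  have hmpos : 0 < m := norm_pos_iff.2 (hne z₀ hz₀)
  set K : ℝ := ∑ n ∈ (Icc 1 N).filter (fun n => Nat.Coprime n k),
    (ArithmeticFunction.cardFactors n : ℝ) with hK
  have hK0 : 0 ≤ K := sum_nonneg fun _ _ => Nat.cast_nonneg _
  obtain ⟨τ, hτ⟩ := approx χ N c hc (show 0 < m / (4 * (K + 1)) by positivity)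
  have hclose := close χ c (fun p => p ≤ N ∧ Nat.Coprime p k) (τ := τ) (η := m / (4 * (K + 1)))
    (fun p hp h => hc p hp h.1 h.2) (fun p hp h => hτ p hp h.1 h.2)
  have hdiff : ∀ s : ℂ, 0 ≤ s.re → ‖S χ N (s + I * τ) - D k N c s‖ ≤ m / 4 := by
    intro s hs
    rw [S_eq, D, ← sum_sub_distrib]
    calc _ ≤ ∑ n ∈ (Icc 1 N).filter (fun n => Nat.Coprime n k),
          ((ArithmeticFunction.cardFactors n : ℝ) * (m / (4 * (K + 1)))) := by
          refine norm_sum_le_of_le _ fun n hn => ?_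
          rw [mem_filter, mem_Icc] at hn
          have hn0 : n ≠ 0 := by omega
          rw [cpow_add_I hn0]
          have h1 : χ (n : ZMod k) * (w τ n * (n : ℂ) ^ (-s)) - F c n * (n : ℂ) ^ (-s) =
              (χ (n : ZMod k) * w τ n - F c n) * (n : ℂ) ^ (-s) := by ring
          rw [h1, norm_mul]
          have h2 : ‖(n : ℂ) ^ (-s)‖ ≤ 1 := by
            rw [norm_natCast_cpow_of_pos (by omega)]
            exact Real.rpow_le_one_of_one_le_of_nonpos (by exact_mod_cast hn.1.1)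
              (by simp [hs])
          have h3 := hclose n hn0 fun p hp hd =>
            ⟨(Nat.le_of_dvd (by omega) hd).trans hn.1.2, hn.2.coprime_dvd_left hd⟩
          calc _ ≤ (ArithmeticFunction.cardFactors n : ℝ) * (m / (4 * (K + 1))) * 1 := by gcongr
            _ = _ := mul_one _
      _ = K * (m / (4 * (K + 1))) := by rw [← sum_mul]
      _ ≤ m / 4 := by
          rw [mul_div_assoc', div_le_div_iff₀ (by positivity) (by norm_num)]
          nlinarith
  have hre : ∀ z ∈ Metric.closedBall (σ : ℂ) ρ, 1 < z.re := by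
    intro z hz
    rw [Metric.mem_closedBall, dist_eq] at hz
    have h1 := abs_re_le_norm (z - σ)
    rw [sub_re, ofReal_re] at h1
    have h2 := (abs_le.1 (h1.trans hz)).1
    linarith
  have hreI : ∀ z : ℂ, (z + I * τ).re = z.re := by intro z; simp
  have hmax := Complex.norm_le_of_forall_mem_frontier_norm_le (f := fun z => (S χ N (z + I * τ))⁻¹)
    (U := Metric.ball (σ : ℂ) ρ) (C := 4 / (3 * m)) Metric.isBounded_ball (by
      refine DifferentiableOn.diffContOnCl ?_
      rw [closure_ball _ hρ0.ne']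
      intro z hz
      refine DifferentiableAt.differentiableWithinAt ?_
      refine DifferentiableAt.inv ?_ ?_
      · exact ((S_differentiable χ N).differentiableAt).comp z
          (differentiableAt_id.add_const _)
      · refine hcon _ ?_
        rw [hreI]
        exact hre z hz) (by
      intro z hz
      rw [frontier_ball _ hρ0.ne'] at hz
      have h1 : m ≤ ‖D k N c z‖ := hmin hz
      have h2 := hdiff z (by
        have := hre z (Metric.sphere_subset_closedBall hz); linarith)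
      have h3 : ‖D k N c z‖ ≤ ‖S χ N (z + I * τ)‖ + ‖S χ N (z + I * τ) - D k N c z‖ := by
        have := norm_sub_le (S χ N (z + I * τ)) (S χ N (z + I * τ) - D k N c z)
        rwa [sub_sub_cancel] at this
      rw [norm_inv]
      have h4 : 3 * m / 4 ≤ ‖S χ N (z + I * τ)‖ := by linarith
      calc ‖S χ N (z + I * τ)‖⁻¹ ≤ (3 * m / 4)⁻¹ := by gcongr
        _ = 4 / (3 * m) := by field_simp)
    (z := (σ : ℂ)) (subset_closure (Metric.mem_ball_self hρ0))
  have h5 := hdiff σ (by rw [ofReal_re]; linarith)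
  rw [h0, sub_zero] at h5
  have h6 : 0 < ‖S χ N ((σ : ℂ) + I * τ)‖ := norm_pos_iff.2 (hcon _ (by rw [hreI, ofReal_re]; exact hσ))
  rw [norm_inv] at hmax
  have h7 : 4 / m ≤ ‖S χ N ((σ : ℂ) + I * τ)‖⁻¹ := by
    rw [div_eq_mul_inv, ← inv_inv (4 : ℝ), ← mul_inv]
    gcongr
    linarith
  have h8 : 4 / (3 * m) < 4 / m := by
    rw [div_lt_div_iff₀ (by positivity) hmpos]
    nlinarith
  linarith

end Pool.Agent.Helper82.TP
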