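import Mathlib
import Pool.Agent.Helper82.TP.Zero

/-!
Choice of the values at the large primes: a polygon with prescribed sides, and the decomposition
of the Dirichlet polynomials.
-/

set_option autoImplicit false

open Finset Complex

namespace Pool.Agent.Helper82.TP

lemma two_circle (z : ℂ) (r t : ℝ) (h1 : |‖z‖ - r| ≤ t) (h2 : t ≤ ‖z‖ + r) :
    ∃ u : ℂ, ‖u‖ = 1 ∧ ‖z - r * u‖ = t := by
  obtain ⟨e, he, hze⟩ : ∃ e : ℂ, ‖e‖ = 1 ∧ z = ‖z‖ * e := by
    by_cases hz : z = 0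
    · exact ⟨1, norm_one, by simp [hz]⟩
    · refine ⟨z / ‖z‖, ?_, ?_⟩
      · rw [norm_div, norm_real, norm_norm, div_self (norm_ne_zero_iff.2 hz)]
      · rw [mul_div_cancel₀]
        exact_mod_cast norm_ne_zero_iff.2 hz
  set φ : ℝ → ℝ := fun θ => ‖z - r * (e * exp (θ * I))‖ with hφ
  have hcont : ContinuousOn φ (Set.Icc 0 Real.pi) := by
    apply Continuous.continuousOn
    rw [hφ]
    fun_prop
  have h0 : φ 0 = |‖z‖ - r| := by
    simp only [hφ]
    rw [ofReal_zero, zero_mul, exp_zero, mul_one]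
    have : z - r * e = ((‖z‖ - r : ℝ) : ℂ) * e := by
      push_cast
      nth_rewrite 1 [hze]
      ring
    rw [this, norm_mul, he, mul_one, norm_real, Real.norm_eq_abs]
  have hp : φ Real.pi = |‖z‖ + r| := by
    simp only [hφ]
    rw [exp_pi_mul_I]
    have : z - r * (e * -1) = ((‖z‖ + r : ℝ) : ℂ) * e := by
      push_cast
      nth_rewrite 1 [hze]
      ring
    rw [this, norm_mul, he, mul_one, norm_real, Real.norm_eq_abs]
  have hmem : t ∈ Set.Icc (φ 0) (φ Real.pi) := by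
    rw [h0, hp]
    exact ⟨h1, h2.trans (le_abs_self _)⟩
  obtain ⟨θ, -, hθ⟩ := intermediate_value_Icc Real.pi_pos.le hcont hmem
  refine ⟨e * exp (θ * I), ?_, hθ⟩
  rw [norm_mul, he, norm_exp_ofReal_mul_I, mul_one]

lemma polygon_real {ι : Type*} [DecidableEq ι] (r : ι → ℝ) (hr : ∀ i, 0 ≤ r i) (s : Finset ι) :
    ∀ z : ℂ, ‖z‖ ≤ ∑ j ∈ s, r j → (∀ j ∈ s, 2 * r j ≤ ∑ i ∈ s, r i + ‖z‖) →
      ∃ u : ι → ℂ, (∀ i, ‖u i‖ = 1) ∧ ∑ j ∈ s, (r j : ℂ) * u j = z := by
  induction s using Finset.induction_on with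
  | empty =>
    intro z hz _
    refine ⟨fun _ => 1, fun _ => norm_one, ?_⟩
    rw [sum_empty] at hz ⊢
    exact (norm_le_zero_iff.1 hz).symm
  | insert q s hq ih =>
    intro z hz hm
    rw [sum_insert hq] at hz
    have hR : 0 ≤ ∑ j ∈ s, r j := sum_nonneg fun i _ => hr i
    have hmq := hm q (mem_insert_self _ _)
    rw [sum_insert hq] at hmq
    set t := min (‖z‖ + r q) (∑ j ∈ s, r j) with ht
    obtain ⟨u₀, hu₀, hu₁⟩ := two_circle z (r q) t (by
      rw [ht, le_min_iff, abs_le, abs_le]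
      have := norm_nonneg z
      have := hr q
      constructor <;> constructor <;> linarith) (min_le_left _ _)
    obtain ⟨u, hu, hsum⟩ := ih (z - r q * u₀) (by rw [hu₁]; exact min_le_right _ _) (by
      intro j hj
      rw [hu₁, ht]
      have h1 := hm j (mem_insert_of_mem hj)
      rw [sum_insert hq] at h1
      have h2 : r j ≤ ∑ i ∈ s, r i := single_le_sum (fun i _ => hr i) hj
      rcases min_choice (‖z‖ + r q) (∑ j ∈ s, r j) with h | h <;> rw [h] <;> linarith)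
    refine ⟨Function.update u q u₀, ?_, ?_⟩
    · intro i
      by_cases h : i = q
      · subst h; rw [Function.update_self]; exact hu₀
      · rw [Function.update_of_ne h]; exact hu i
    · rw [sum_insert hq, Function.update_self]
      have : ∑ j ∈ s, (r j : ℂ) * Function.update u q u₀ j = ∑ j ∈ s, (r j : ℂ) * u j := by
        refine sum_congr rfl fun j hj => ?_
        rw [Function.update_of_ne (by rintro rfl; exact hq hj)]
      rw [this, hsum]
      ring

lemma polygon {ι : Type*} [DecidableEq ι] (ρ : ι → ℂ) (s : Finset ι) (z : ℂ)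
    (h1 : ‖z‖ ≤ ∑ j ∈ s, ‖ρ j‖) (h2 : ∀ j ∈ s, 2 * ‖ρ j‖ ≤ ∑ i ∈ s, ‖ρ i‖) :
    ∃ c : ι → ℂ, (∀ i, ‖c i‖ = 1) ∧ ∑ j ∈ s, c j * ρ j = z := by
  obtain ⟨u, hu, hs⟩ := polygon_real (fun i => ‖ρ i‖) (fun i => norm_nonneg _) s z h1
    (fun j hj => (h2 j hj).trans (by have := norm_nonneg z; linarith))
  have hv : ∀ i, ∃ v : ℂ, ‖v‖ = 1 ∧ v * ρ i = ‖ρ i‖ := by
    intro i
    by_cases hz : ρ i = 0
    · exact ⟨1, norm_one, by simp [hz]⟩
    · have h3 : (‖ρ i‖ : ℂ) ≠ 0 := by exact_mod_cast norm_ne_zero_iff.2 hz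
      refine ⟨‖ρ i‖ / ρ i, ?_, ?_⟩
      · rw [norm_div, norm_real, norm_norm, div_self (norm_ne_zero_iff.2 hz)]
      · field_simp
  choose v hv1 hv2 using hv
  refine ⟨fun i => u i * v i, fun i => by rw [norm_mul, hu, hv1, one_mul], ?_⟩
  rw [← hs]
  refine sum_congr rfl fun j _ => ?_
  rw [mul_assoc, hv2]
  ring

/-- the large primes -/
def P (k N : ℕ) : Finset ℕ := (Icc 1 N).filter (fun p => p.Prime ∧ N < p * p ∧ Nat.Coprime p k)

lemma mem_P {k N p : ℕ} : p ∈ P k N ↔ (1 ≤ p ∧ p ≤ N) ∧ p.Prime ∧ N < p * p ∧ Nat.Coprime p k := by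
  rw [P, mem_filter, mem_Icc]

lemma lt_mul {k N p q : ℕ} (hp : p ∈ P k N) (hq : q ∈ P k N) : N < p * q := by
  rw [mem_P] at hp hq
  by_contra h
  push Not at h
  rcases le_total p q with h1 | h1
  · exact absurd (hp.2.2.1) (by
      have : p * p ≤ p * q := Nat.mul_le_mul_left _ h1
      omega)
  · exact absurd (hq.2.2.1) (by
      have : q * q ≤ p * q := Nat.mul_le_mul_right _ h1
      omega)

/-- the part of the Dirichlet polynomial without large primes -/
noncomputable def A (k N : ℕ) (c : ℕ → ℂ) (s : ℂ) : ℂ :=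
  ∑ n ∈ ((Icc 1 N).filter (fun n => Nat.Coprime n k)).filter (fun n => ¬ ∃ p ∈ P k N, p ∣ n),
    F c n * (n : ℂ) ^ (-s)

/-- the coefficient of the value at a large prime -/
noncomputable def rho (k N : ℕ) (c : ℕ → ℂ) (s : ℂ) (p : ℕ) : ℂ :=
  (p : ℂ) ^ (-s) * D k (N / p) c s

lemma D_decomp (k N : ℕ) (c c₀ : ℕ → ℂ) (h : ∀ p, p ∉ P k N → c p = c₀ p) (s : ℂ) :
    D k N c s = A k N c₀ s + ∑ p ∈ P k N, c p * rho k N c₀ s p := by
  classical
  unfold D
  rw [← sum_filter_not_add_sum_filter _ (fun n => ∃ p ∈ P k N, p ∣ n)]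
  congr 1
  · unfold A
    refine sum_congr rfl fun n hn => ?_
    rw [mem_filter] at hn
    rw [F_congr fun p _ hd => h p fun hP => hn.2 ⟨p, hP, hd⟩]
  · have hset : ((Icc 1 N).filter (fun n => Nat.Coprime n k)).filter (fun n => ∃ p ∈ P k N, p ∣ n) =
        (P k N).biUnion fun p => ((Icc 1 (N / p)).filter (fun n => Nat.Coprime n k)).image (p * ·) := by
      ext n
      simp only [mem_filter, mem_biUnion, mem_image, mem_Icc]
      constructor
      · rintro ⟨⟨⟨h1, h2⟩, h3⟩, p, hp, m, rfl⟩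
        have hp0 : 0 < p := (mem_P.1 hp).1.1
        refine ⟨p, hp, m, ⟨⟨?_, ?_⟩, ?_⟩, rfl⟩
        · exact Nat.pos_of_mul_pos_left h1 |> fun h => by
            rcases Nat.eq_zero_or_pos m with hm | hm
            · subst hm; simp at h1
            · exact hm
        · rw [Nat.le_div_iff_mul_le hp0]; linarith [mul_comm p m]
        · exact h3.coprime_dvd_left (Dvd.intro_left p rfl)
      · rintro ⟨p, hp, m, ⟨⟨h1, h2⟩, h3⟩, rfl⟩
        have hp' := mem_P.1 hp
        have hp0 : 0 < p := hp'.1.1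
        rw [Nat.le_div_iff_mul_le hp0] at h2
        refine ⟨⟨⟨Nat.mul_pos hp0 h1, by rw [mul_comm]; exact h2⟩, ?_⟩, p, hp, Dvd.intro m rfl⟩
        exact Nat.Coprime.mul_left hp'.2.2.2 h3
    rw [hset, sum_biUnion]
    · refine sum_congr rfl fun p hp => ?_
      have hp' := mem_P.1 hp
      have hp0 : 0 < p := hp'.1.1
      rw [sum_image (fun a _ b _ hab => Nat.eq_of_mul_eq_mul_left hp0 hab)]
      unfold rho D
      rw [mul_sum, mul_sum]
      refine sum_congr rfl fun m hm => ?_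
      rw [mem_filter, mem_Icc] at hm
      have hm0 : m ≠ 0 := by omega
      have hF : F c m = F c₀ m := F_congr fun q _ hd => h q fun hq => by
        have h1 := lt_mul hp hq
        have h2 : q ≤ N / p := (Nat.le_of_dvd (by omega) hd).trans hm.1.2
        rw [Nat.le_div_iff_mul_le hp0] at h2
        rw [mul_comm] at h1
        omega
      rw [F_mul c hp0.ne' hm0, F_prime c hp'.2.1, hF, Nat.cast_mul, natCast_mul_natCast_cpow]
      ring
    · intro p hp q hq hpq
      rw [Function.onFun, disjoint_left]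
      intro n hn1 hn2
      rw [mem_image] at hn1 hn2
      obtain ⟨a, ha, rfl⟩ := hn1
      obtain ⟨b, hb, hab⟩ := hn2
      have hp' := mem_P.1 (mem_coe.1 hp)
      have hq' := mem_P.1 (mem_coe.1 hq)
      rw [mem_filter, mem_Icc] at ha hb
      have h1 : p ∣ q * b := by rw [hab]; exact Dvd.intro a rfl
      rcases (Nat.Prime.dvd_mul hp'.2.1).1 h1 with h2 | h2
      · exact hpq ((Nat.prime_dvd_prime_iff_eq hp'.2.1 hq'.2.1).1 h2)
      · have h3 : p ≤ N / q := (Nat.le_of_dvd (by omega) h2).trans hb.1.2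
        rw [Nat.le_div_iff_mul_le hq'.1.1] at h3
        have h4 := lt_mul (mem_coe.1 hp) (mem_coe.1 hq)
        omega

/-- If the centre is smaller than the radius at `s = 1`, then all partial sums of L-series modulo `k`
of length `N` have a zero with real part greater than `1`. -/
theorem zero_of {k : ℕ} (N : ℕ) (hN : 1 ≤ N) (c₀ : ℕ → ℂ) (hc₀ : ∀ p, ‖c₀ p‖ = 1)
    (h1 : ‖A k N c₀ 1‖ < ∑ p ∈ P k N, ‖rho k N c₀ 1 p‖)
    (h2 : ∀ q ∈ P k N, 2 * ‖rho k N c₀ 1 q‖ < ∑ p ∈ P k N, ‖rho k N c₀ 1 p‖) :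
    ∀ χ : DirichletCharacter ℂ k, ∃ s : ℂ, 1 < s.re ∧ S χ N s = 0 := by
  intro χ
  have hDc : ∀ M : ℕ, Continuous fun σ : ℝ => D k M c₀ σ := fun M =>
    (D_differentiable k M c₀).continuous.comp continuous_ofReal
  have hcp : ∀ n : ℕ, n ≠ 0 → Continuous fun σ : ℝ => (n : ℂ) ^ (-(σ : ℂ)) := by
    intro n hn
    have h : (n : ℂ) ≠ 0 := by exact_mod_cast hn
    exact (continuous_ofReal.neg).const_cpow (Or.inl h)
  have hAc : Continuous fun σ : ℝ => ‖A k N c₀ σ‖ := by
    unfold A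
    refine (continuous_finsetSum _ fun n hn => ?_).norm
    rw [mem_filter, mem_filter, mem_Icc] at hn
    exact continuous_const.mul (hcp n (by omega))
  have hrc : ∀ p ∈ P k N, Continuous fun σ : ℝ => ‖rho k N c₀ σ p‖ := by
    intro p hp
    rw [mem_P] at hp
    unfold rho
    exact ((hcp p (by omega)).mul (hDc _)).norm
  have hsc : Continuous fun σ : ℝ => ∑ p ∈ P k N, ‖rho k N c₀ σ p‖ :=
    continuous_finsetSum _ hrc
  have e1 : ∀ᶠ σ : ℝ in nhds 1, ‖A k N c₀ σ‖ < ∑ p ∈ P k N, ‖rho k N c₀ σ p‖ :=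
    hAc.continuousAt.eventually_lt hsc.continuousAt (by simpa using h1)
  have e2 : ∀ᶠ σ : ℝ in nhds 1, ∀ q ∈ P k N, 2 * ‖rho k N c₀ σ q‖ <
      ∑ p ∈ P k N, ‖rho k N c₀ σ p‖ := by
    rw [Filter.eventually_all_finset]
    intro q hq
    exact (continuous_const.mul (hrc q hq)).continuousAt.eventually_lt hsc.continuousAt
      (by simpa using h2 q hq)
  obtain ⟨δ, hδ, hball⟩ := Metric.eventually_nhds_iff.1 (e1.and e2)
  obtain ⟨h3, h4⟩ := hball (y := 1 + δ / 2) (by
    rw [Real.dist_eq, add_sub_cancel_left, abs_of_pos (by positivity)]; linarith)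
  set σ : ℝ := 1 + δ / 2 with hσ
  obtain ⟨v, hv, hv2⟩ := polygon (rho k N c₀ σ) (P k N) (-A k N c₀ σ)
    (by rw [norm_neg]; exact h3.le) (fun j hj => (h4 j hj).le)
  classical
  set c : ℕ → ℂ := fun p => if p ∈ P k N then v p else c₀ p with hc
  have hD : D k N c σ = 0 := by
    rw [D_decomp k N c c₀ (fun p hp => by rw [hc]; simp [hp])]
    have : ∑ p ∈ P k N, c p * rho k N c₀ σ p = ∑ p ∈ P k N, v p * rho k N c₀ σ p := by
      refine sum_congr rfl fun p hp => ?_
      rw [hc]; simp [hp]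
    rw [this, hv2]
    ring
  refine transfer χ N hN c (fun p _ _ _ => ?_) (σ := σ) (by rw [hσ]; linarith) hD
  rw [hc]
  simp only
  split_ifs
  · exact hv p
  · exact hc₀ p

end Pool.Agent.Helper82.TP
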