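import Mathlib
import Pool.Agent.Helper82.TP.Zero

/-!
The sums of `n ^ (-1 - i t)` over the integers prime to `k`.
-/

set_option autoImplicit false

open Finset Complex

namespace Pool.Agent.Helper82.TP

/-- `φ(k) / k` -/
noncomputable def kap (k : ℕ) : ℝ := (k.totient : ℝ) / k

lemma kap_pos {k : ℕ} (hk : 1 ≤ k) : 0 < kap k := by
  unfold kap
  have h1 : 0 < k.totient := Nat.totient_pos.2 hk
  positivity

lemma kap_le_one {k : ℕ} (hk : 1 ≤ k) : kap k ≤ 1 := by
  unfold kap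
  rw [div_le_one (by exact_mod_cast hk)]
  exact_mod_cast Nat.totient_le k

/-- the number of `x` with `1 ≤ x ≤ m` prime to `k` -/
def cnt (k m : ℕ) : ℕ := ((Ico 1 (m + 1)).filter (fun x => k.Coprime x)).card

lemma cnt_add (k m : ℕ) : cnt k (m + k) = cnt k m + k.totient := by
  unfold cnt
  rw [← Nat.filter_coprime_Ico_eq_totient k (m + 1), ← card_union_of_disjoint]
  · rw [← filter_union, Ico_union_Ico_eq_Ico (by omega) (by omega)]
    congr 2
    congr 1
    omega
  · rw [disjoint_left]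
    intro x hx hx2
    rw [mem_filter, mem_Ico] at hx hx2
    omega

lemma cnt_bound {k : ℕ} (hk : 1 ≤ k) (m : ℕ) : |(cnt k m : ℝ) - kap k * m| ≤ k := by
  have hk0 : (0 : ℝ) < k := by exact_mod_cast hk
  induction m using Nat.strong_induction_on with
  | _ m ih =>
    rcases lt_or_ge m k with h | h
    · have h1 : cnt k m ≤ m := by
        unfold cnt
        refine (card_le_card (filter_subset _ _)).trans ?_
        simp
      have h2 : (cnt k m : ℝ) ≤ m := by exact_mod_cast h1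
      have h3 : (m : ℝ) ≤ k := by exact_mod_cast h.le
      have h4 := kap_pos hk
      have h5 := kap_le_one hk
      have h6 : kap k * m ≤ m := by
        have : (0 : ℝ) ≤ m := Nat.cast_nonneg m
        nlinarith
      have h7 : 0 ≤ kap k * m := by positivity
      have h8 : (0 : ℝ) ≤ cnt k m := Nat.cast_nonneg _
      rw [abs_le]
      constructor <;> linarith
    · obtain ⟨n, rfl⟩ : ∃ n, m = n + k := ⟨m - k, by omega⟩
      have h1 := ih n (by omega)
      rw [cnt_add]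
      have h2 : kap k * k = k.totient := by
        unfold kap; field_simp
      have h3 : ((cnt k n + k.totient : ℕ) : ℝ) - kap k * ((n + k : ℕ) : ℝ) =
          (cnt k n : ℝ) - kap k * n := by
        push_cast
        rw [mul_add, h2]; ring
      rw [h3]
      exact h1

/-- the indicator of the integers prime to `k`, minus its mean -/
noncomputable def ee (k j : ℕ) : ℝ := (if Nat.Coprime (j + 1) k then 1 else 0) - kap k

lemma sum_ee (k m : ℕ) : ∑ j ∈ range m, ee k j = cnt k m - kap k * m := by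
  unfold ee
  rw [sum_sub_distrib, sum_const, card_range, nsmul_eq_mul, mul_comm (m : ℝ)]
  congr 1
  unfold cnt
  rw [card_filter]
  push_cast
  rw [sum_Ico_eq_sum_range]
  simp only [Nat.add_sub_cancel]
  refine sum_congr rfl fun j _ => ?_
  simp only [add_comm 1 j, Nat.coprime_comm]

lemma abel (e : ℕ → ℝ) (g : ℕ → ℂ) (K : ℝ) (he : ∀ m, |∑ j ∈ range m, e j| ≤ K) (M : ℕ) :
    ‖∑ j ∈ range (M + 1), (e j : ℂ) * g j‖ ≤ K * (‖g M‖ + ∑ j ∈ range M, ‖g j - g (j + 1)‖) := by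
  have h : ∀ M : ℕ, ∑ j ∈ range (M + 1), (e j : ℂ) * g j =
      ((∑ j ∈ range (M + 1), e j : ℝ) : ℂ) * g M +
        ∑ j ∈ range M, ((∑ i ∈ range (j + 1), e i : ℝ) : ℂ) * (g j - g (j + 1)) := by
    intro M
    induction M with
    | zero => simp
    | succ M ih =>
      rw [sum_range_succ, ih, sum_range_succ (fun j => e j) (M + 1),
        sum_range_succ (fun j => ((∑ i ∈ range (j + 1), e i : ℝ) : ℂ) * (g j - g (j + 1))) M]
      push_cast
      ring
  rw [h]
  refine (norm_add_le _ _).trans ?_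
  rw [mul_add, mul_sum]
  refine add_le_add ?_ ?_
  · rw [norm_mul, norm_real, Real.norm_eq_abs]
    exact mul_le_mul_of_nonneg_right (he _) (norm_nonneg _)
  · refine norm_sum_le_of_le _ fun j _ => ?_
    rw [norm_mul, norm_real, Real.norm_eq_abs]
    exact mul_le_mul_of_nonneg_right (he _) (norm_nonneg _)

lemma sum_inv_sq (M : ℕ) : ∑ j ∈ range (M + 1), 1 / ((j : ℝ) + 1) ^ 2 ≤ 2 - 1 / ((M : ℝ) + 1) := by
  induction M with
  | zero => norm_num
  | succ M ih =>
    rw [sum_range_succ]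
    have h : (0 : ℝ) ≤ M := Nat.cast_nonneg M
    have h1 : 1 / (((M + 1 : ℕ) : ℝ) + 1) ^ 2 ≤ 1 / ((M : ℝ) + 1) - 1 / (((M + 1 : ℕ) : ℝ) + 1) := by
      push_cast
      rw [div_sub_div _ _ (by positivity) (by positivity), div_le_div_iff₀ (by positivity) (by positivity)]
      nlinarith
    linarith

/-- the increment of the logarithm -/
noncomputable def dl (n : ℕ) : ℝ := Real.log ((n + 1 : ℕ) : ℝ) - Real.log n

lemma dl_bounds {n : ℕ} (hn : 1 ≤ n) : 1 / ((n : ℝ) + 1) ≤ dl n ∧ dl n ≤ 1 / n := by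
  have h0 : (0 : ℝ) < n := by exact_mod_cast hn
  have h1 : dl n = Real.log (((n : ℝ) + 1) / n) := by
    unfold dl
    rw [Real.log_div (by positivity) h0.ne']
    push_cast; rfl
  rw [h1]
  constructor
  · have := Real.one_sub_inv_le_log_of_pos (x := ((n : ℝ) + 1) / n) (by positivity)
    refine le_trans (le_of_eq ?_) this
    field_simp
    ring
  · have := Real.log_le_sub_one_of_pos (x := ((n : ℝ) + 1) / n) (by positivity)
    refine this.trans (le_of_eq ?_)
    field_simp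
    ring

lemma w_succ (t : ℝ) {n : ℕ} (hn : 1 ≤ n) :
    w t (n + 1) = w t n * exp (I * ((-(t * dl n) : ℝ) : ℂ)) := by
  unfold w dl
  rw [← exp_add]
  congr 1
  push_cast
  ring

lemma step1 {t : ℝ} (ht : 0 < t) (ht1 : t ≤ 1) {n : ℕ} (hn : 1 ≤ n) :
    ‖w t n / n - (w t n - w t (n + 1)) / (I * t)‖ ≤ 2 * (1 / (n : ℝ) ^ 2) := by
  have h0 : (0 : ℝ) < n := by exact_mod_cast hn
  obtain ⟨hd1, hd2⟩ := dl_bounds hn
  have hd0 : 0 < dl n := lt_of_lt_of_le (by positivity) hd1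
  set z : ℂ := I * ((-(t * dl n) : ℝ) : ℂ) with hz
  have hzn : ‖z‖ = t * dl n := by
    rw [hz, norm_mul, norm_I, one_mul, norm_real, Real.norm_eq_abs, abs_neg, abs_of_pos (by positivity)]
  have hIt : (I * (t : ℂ)) ≠ 0 := mul_ne_zero I_ne_zero (by exact_mod_cast ht.ne')
  have hz2 : z = -(I * t) * dl n := by rw [hz]; push_cast; ring
  have h1 : w t n / n - (w t n - w t (n + 1)) / (I * t) =
      w t n * ((((1 / n - dl n : ℝ)) : ℂ) + (exp z - 1 - z) / (I * t)) := by
    rw [w_succ t hn, ← hz]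
    have ht0 : (t : ℂ) ≠ 0 := by exact_mod_cast ht.ne'
    have : z / (I * t) = -(dl n : ℂ) := by
      rw [hz2, neg_mul, neg_div, mul_div_cancel_left₀ _ hIt]
    have h2 : (exp z - 1 - z) / (I * t) = (exp z - 1) / (I * t) + dl n := by
      rw [sub_div (exp z - 1), this]; ring
    rw [h2]
    push_cast
    field_simp
    ring
  rw [h1, norm_mul, norm_w, one_mul]
  have hle1 : t * dl n ≤ 1 := by
    have : dl n ≤ 1 := hd2.trans (by rw [div_le_one h0]; exact_mod_cast hn)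
    nlinarith
  have h3 := Complex.norm_exp_sub_one_sub_id_le (x := z) (by rw [hzn]; exact hle1)
  rw [hzn] at h3
  refine (norm_add_le _ _).trans ?_
  have h4 : ‖((1 / n - dl n : ℝ) : ℂ)‖ ≤ 1 / (n : ℝ) ^ 2 := by
    rw [norm_real, Real.norm_eq_abs, abs_of_nonneg (by linarith)]
    have : 1 / (n : ℝ) - 1 / ((n : ℝ) + 1) ≤ 1 / (n : ℝ) ^ 2 := by
      rw [div_sub_div _ _ h0.ne' (by positivity), div_le_div_iff₀ (by positivity) (by positivity)]
      nlinarith
    linarith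
  have h5 : ‖(exp z - 1 - z) / (I * t)‖ ≤ 1 / (n : ℝ) ^ 2 := by
    rw [norm_div, norm_mul, norm_I, one_mul, norm_real, Real.norm_eq_abs, abs_of_pos ht,
      div_le_iff₀ ht]
    calc _ ≤ (t * dl n) ^ 2 := h3
      _ = t * (t * dl n ^ 2) := by ring
      _ ≤ t * (1 * (1 / n) ^ 2) := by gcongr
      _ = _ := by ring
  linarith

lemma step2 {t : ℝ} (ht : 0 < t) (ht1 : t ≤ 1) {n : ℕ} (hn : 1 ≤ n) :
    ‖w t n / n - w t (n + 1) / ((n + 1 : ℕ) : ℂ)‖ ≤ 2 * (1 / (n : ℝ) ^ 2) := by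
  have h0 : (0 : ℝ) < n := by exact_mod_cast hn
  obtain ⟨hd1, hd2⟩ := dl_bounds hn
  have hd0 : 0 < dl n := lt_of_lt_of_le (by positivity) hd1
  set z : ℂ := I * ((-(t * dl n) : ℝ) : ℂ) with hz
  have h1 : w t n / n - w t (n + 1) / ((n + 1 : ℕ) : ℂ) =
      w t n * (((1 / n - 1 / (n + 1) : ℝ) : ℂ) - (exp z - 1) * ((1 / (n + 1) : ℝ) : ℂ)) := by
    rw [w_succ t hn, ← hz]
    push_cast
    ring
  rw [h1, norm_mul, norm_w, one_mul]
  refine (norm_sub_le _ _).trans ?_
  have h4 : ‖((1 / n - 1 / (n + 1) : ℝ) : ℂ)‖ ≤ 1 / (n : ℝ) ^ 2 := by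
    rw [norm_real, Real.norm_eq_abs, div_sub_div _ _ h0.ne' (by positivity),
      abs_of_nonneg (by apply div_nonneg <;> [nlinarith; positivity]),
      div_le_div_iff₀ (by positivity) (by positivity)]
    nlinarith
  have h5 : ‖(exp z - 1) * ((1 / (n + 1) : ℝ) : ℂ)‖ ≤ 1 / (n : ℝ) ^ 2 := by
    rw [norm_mul, norm_real, Real.norm_eq_abs, abs_of_pos (by positivity)]
    have h6 : ‖exp z - 1‖ ≤ 1 / n := by
      refine (Real.norm_exp_I_mul_ofReal_sub_one_le).trans ?_
      rw [Real.norm_eq_abs, abs_neg, abs_of_pos (by positivity)]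
      nlinarith
    calc _ ≤ 1 / (n : ℝ) * (1 / n) := by
          gcongr
          linarith
      _ = _ := by ring
  linarith

/-- the sum over the integers prime to `k` -/
noncomputable def T (k : ℕ) (t : ℝ) (M : ℕ) : ℂ :=
  ∑ n ∈ (Icc 1 M).filter (fun n => Nat.Coprime n k), w t n / n

lemma T_eq (k : ℕ) (t : ℝ) (M : ℕ) : T k t M =
    ∑ j ∈ range M, (ee k j : ℂ) * (w t (j + 1) / ((j + 1 : ℕ) : ℂ)) +
      kap k * ∑ j ∈ range M, w t (j + 1) / ((j + 1 : ℕ) : ℂ) := by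
  unfold T
  rw [mul_sum, ← sum_add_distrib, sum_filter]
  have h1 : Icc 1 M = Ico 1 (M + 1) := by ext x; simp only [mem_Icc, mem_Ico]; omega
  rw [h1, sum_Ico_eq_sum_range]
  simp only [Nat.add_sub_cancel]
  refine sum_congr rfl fun j _ => ?_
  rw [add_comm 1 j]
  unfold ee
  split_ifs with h
  · push_cast; ring
  · push_cast; ring

theorem T_bound {k : ℕ} (hk : 1 ≤ k) {t : ℝ} (ht : 0 < t) (ht1 : t ≤ 1) {M : ℕ} (hM : 1 ≤ M) :
    ‖T k t M - kap k * ((1 - w t M) / (I * t))‖ ≤ 10 * k := by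
  obtain ⟨m, rfl⟩ := Nat.exists_eq_add_of_le' hM
  have hk1 : (1 : ℝ) ≤ k := by exact_mod_cast hk
  have hg : ∀ j : ℕ, ‖w t (j + 1) / ((j + 1 : ℕ) : ℂ)‖ ≤ 1 := by
    intro j
    rw [norm_div, norm_w, norm_natCast]
    rw [div_le_one (by positivity)]
    push_cast
    have : (0 : ℝ) ≤ j := Nat.cast_nonneg j
    linarith
  have hsq : ∀ m : ℕ, ∑ j ∈ range m, 2 * (1 / ((j : ℝ) + 1) ^ 2) ≤ 4 := by
    intro m
    rw [← mul_sum]
    rcases Nat.eq_zero_or_pos m with h | h
    · subst h; simp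
    · obtain ⟨l, rfl⟩ := Nat.exists_eq_add_of_le' h
      have := sum_inv_sq l
      have h2 : (0 : ℝ) ≤ 1 / ((l : ℝ) + 1) := by positivity
      linarith
  have h1 : ‖∑ j ∈ range (m + 1), (ee k j : ℂ) * (w t (j + 1) / ((j + 1 : ℕ) : ℂ))‖ ≤ 5 * k := by
    refine (abel (ee k) (fun j => w t (j + 1) / ((j + 1 : ℕ) : ℂ)) k (fun l => ?_) m).trans ?_
    · rw [sum_ee]; exact cnt_bound hk l
    · have h2 : ∑ j ∈ range m, ‖w t (j + 1) / ((j + 1 : ℕ) : ℂ) -
          w t (j + 1 + 1) / ((j + 1 + 1 : ℕ) : ℂ)‖ ≤ 4 := by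
        refine le_trans (sum_le_sum fun j _ => ?_) (hsq m)
        have := step2 ht ht1 (n := j + 1) (by omega)
        push_cast at this ⊢
        exact this
      have h3 := hg m
      calc _ ≤ (k : ℝ) * (1 + 4) := by gcongr
        _ = _ := by ring
  have h2 : ‖∑ j ∈ range (m + 1), w t (j + 1) / ((j + 1 : ℕ) : ℂ) - (1 - w t (m + 1)) / (I * t)‖ ≤ 5 := by
    have h3 : (1 - w t (m + 1)) / (I * t) =
        ∑ j ∈ range m, (w t (j + 1) - w t (j + 1 + 1)) / (I * t) := by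
      rw [← sum_div]
      congr 1
      have := sum_range_sub' (fun j => w t (j + 1)) m
      rw [this, zero_add, w_one]
    rw [h3, sum_range_succ, add_sub_right_comm, ← sum_sub_distrib]
    refine (norm_add_le _ _).trans ?_
    have h4 : ‖∑ j ∈ range m, (w t (j + 1) / ((j + 1 : ℕ) : ℂ) -
        (w t (j + 1) - w t (j + 1 + 1)) / (I * t))‖ ≤ 4 := by
      refine (norm_sum_le_of_le _ fun j _ => ?_).trans (hsq m)
      have := step1 ht ht1 (n := j + 1) (by omega)
      push_cast at this ⊢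
      exact this
    have h5 := hg m
    linarith
  rw [T_eq]
  have h6 : ∑ j ∈ range (m + 1), (ee k j : ℂ) * (w t (j + 1) / ((j + 1 : ℕ) : ℂ)) +
      kap k * ∑ j ∈ range (m + 1), w t (j + 1) / ((j + 1 : ℕ) : ℂ) -
      kap k * ((1 - w t (m + 1)) / (I * t)) =
      ∑ j ∈ range (m + 1), (ee k j : ℂ) * (w t (j + 1) / ((j + 1 : ℕ) : ℂ)) +
      kap k * (∑ j ∈ range (m + 1), w t (j + 1) / ((j + 1 : ℕ) : ℂ) - (1 - w t (m + 1)) / (I * t)) := by
    ring
  rw [h6]
  refine (norm_add_le _ _).trans ?_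
  rw [norm_mul, norm_real, Real.norm_eq_abs, abs_of_pos (kap_pos hk)]
  have h7 := kap_le_one hk
  have h8 := kap_pos hk
  have h9 : kap k * ‖∑ j ∈ range (m + 1), w t (j + 1) / ((j + 1 : ℕ) : ℂ) - (1 - w t (m + 1)) / (I * t)‖ ≤
      1 * 5 := by gcongr
  linarith

end Pool.Agent.Helper82.TP
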