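import Mathlib
import Pool.Agent.H305R2.MertensM

/-!
Sums of reciprocals of primes over windows `(N ^ a, N ^ b]`.
-/

set_option autoImplicit false

open Finset Filter Topology

namespace Pool.Agent.Helper82.TP

/-- the primes in `(N ^ a, N ^ b]` -/
noncomputable def win (a b : ℝ) (N : ℕ) : Finset ℕ :=
  (Ioc ⌊(N : ℝ) ^ a⌋₊ ⌊(N : ℝ) ^ b⌋₊).filter Nat.Prime

lemma mem_win {a b : ℝ} {N p : ℕ} :
    p ∈ win a b N ↔ p.Prime ∧ (N : ℝ) ^ a < p ∧ (p : ℝ) ≤ (N : ℝ) ^ b := by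
  have ha : (0 : ℝ) ≤ (N : ℝ) ^ a := Real.rpow_nonneg (Nat.cast_nonneg _) _
  have hb : (0 : ℝ) ≤ (N : ℝ) ^ b := Real.rpow_nonneg (Nat.cast_nonneg _) _
  rw [win, mem_filter, mem_Ioc, Nat.floor_lt ha, Nat.le_floor_iff hb]
  tauto

lemma log_floor {a : ℝ} (ha : 0 < a) :
    Tendsto (fun N : ℕ => Real.log (⌊(N : ℝ) ^ a⌋₊ : ℕ) / Real.log N) atTop (𝓝 a) := by
  have h1 : Tendsto (fun N : ℕ => (N : ℝ) ^ a) atTop atTop :=
    (tendsto_rpow_atTop ha).comp tendsto_natCast_atTop_atTop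
  have h2 : Tendsto (fun N : ℕ => ((⌊(N : ℝ) ^ a⌋₊ : ℕ) : ℝ) / (N : ℝ) ^ a) atTop (𝓝 1) :=
    tendsto_nat_floor_div_atTop.comp h1
  have h3 : Tendsto (fun N : ℕ => Real.log (((⌊(N : ℝ) ^ a⌋₊ : ℕ) : ℝ) / (N : ℝ) ^ a)) atTop (𝓝 0) := by
    have := (Real.continuousAt_log one_ne_zero).tendsto.comp h2
    rwa [Real.log_one] at this
  have hL : Tendsto (fun N : ℕ => Real.log N) atTop atTop :=
    Real.tendsto_log_atTop.comp tendsto_natCast_atTop_atTop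
  have h4 : Tendsto (fun N : ℕ => Real.log (((⌊(N : ℝ) ^ a⌋₊ : ℕ) : ℝ) / (N : ℝ) ^ a) / Real.log N)
      atTop (𝓝 0) := h3.div_atTop hL
  have h5 : Tendsto (fun N : ℕ => Real.log (((⌊(N : ℝ) ^ a⌋₊ : ℕ) : ℝ) / (N : ℝ) ^ a) / Real.log N + a)
      atTop (𝓝 (0 + a)) := h4.add_const a
  rw [zero_add] at h5
  refine h5.congr' ?_
  filter_upwards [eventually_ge_atTop 2, h1.eventually_ge_atTop 1] with N hN hN1
  have hN0 : (0 : ℝ) < N := by exact_mod_cast (by omega : 0 < N)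
  have hlog : 0 < Real.log N := Real.log_pos (by exact_mod_cast (by omega : 1 < N))
  have hfl : 0 < ⌊(N : ℝ) ^ a⌋₊ := Nat.floor_pos.2 hN1
  rw [Real.log_div (by exact_mod_cast hfl.ne') (by positivity), Real.log_rpow hN0]
  field_simp
  ring

theorem window {a b : ℝ} (ha : 0 < a) (hab : a ≤ b) :
    Tendsto (fun N : ℕ => ∑ p ∈ win a b N, (1 : ℝ) / p) atTop (𝓝 (Real.log (b / a))) := by
  have hb : 0 < b := ha.trans_le hab
  obtain ⟨M, hM⟩ := Pool.Agent.H305R2.mertens_inv_tendsto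
  have hfl : ∀ c : ℝ, 0 < c → Tendsto (fun N : ℕ => ⌊(N : ℝ) ^ c⌋₊) atTop atTop := fun c hc =>
    tendsto_nat_floor_atTop.comp ((tendsto_rpow_atTop hc).comp tendsto_natCast_atTop_atTop)
  have h1 := hM.comp (hfl a ha)
  have h2 := hM.comp (hfl b hb)
  have h3 := h2.sub h1
  rw [sub_self] at h3
  have h4 : Tendsto (fun N : ℕ => Real.log ((Real.log (⌊(N : ℝ) ^ b⌋₊ : ℕ) / Real.log N) /
      (Real.log (⌊(N : ℝ) ^ a⌋₊ : ℕ) / Real.log N))) atTop (𝓝 (Real.log (b / a))) := by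
    have h5 := (log_floor hb).div (log_floor ha) ha.ne'
    exact (Real.continuousAt_log (div_pos hb ha).ne').tendsto.comp h5
  have h6 := h3.add h4
  rw [zero_add] at h6
  refine h6.congr' ?_
  filter_upwards [eventually_ge_atTop 2, (hfl a ha).eventually_ge_atTop 2,
    (hfl b hb).eventually_ge_atTop 2] with N hN hNa hNb
  have hN1 : (1 : ℝ) ≤ N := by exact_mod_cast (by omega : 1 ≤ N)
  have hlog : 0 < Real.log N := Real.log_pos (by exact_mod_cast (by omega : 1 < N))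
  have hla : 0 < Real.log (⌊(N : ℝ) ^ a⌋₊ : ℕ) := Real.log_pos (by exact_mod_cast (by omega))
  have hlb : 0 < Real.log (⌊(N : ℝ) ^ b⌋₊ : ℕ) := Real.log_pos (by exact_mod_cast (by omega))
  have hle : ⌊(N : ℝ) ^ a⌋₊ ≤ ⌊(N : ℝ) ^ b⌋₊ :=
    Nat.floor_le_floor (Real.rpow_le_rpow_of_exponent_le hN1 hab)
  have h7 : (Real.log (⌊(N : ℝ) ^ b⌋₊ : ℕ) / Real.log N) / (Real.log (⌊(N : ℝ) ^ a⌋₊ : ℕ) / Real.log N) =
      Real.log (⌊(N : ℝ) ^ b⌋₊ : ℕ) / Real.log (⌊(N : ℝ) ^ a⌋₊ : ℕ) := by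
    field_simp
  rw [h7, Real.log_div hlb.ne' hla.ne']
  simp only [Function.comp]
  have h8 : ∑ p ∈ (Icc 1 ⌊(N : ℝ) ^ b⌋₊).filter Nat.Prime, (1 : ℝ) / p =
      ∑ p ∈ (Icc 1 ⌊(N : ℝ) ^ a⌋₊).filter Nat.Prime, (1 : ℝ) / p + ∑ p ∈ win a b N, (1 : ℝ) / p := by
    rw [win, ← sum_union]
    · congr 1
      rw [← filter_union]
      congr 1
      ext x
      simp only [mem_union, mem_Icc, mem_Ioc]
      omega
    · rw [disjoint_left]
      intro x hx hx2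
      rw [mem_filter, mem_Icc] at hx
      rw [mem_filter, mem_Ioc] at hx2
      omega
  rw [h8]
  ring

end Pool.Agent.Helper82.TP
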