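import Mathlib
import Pool.Agent.Helper82.TP.Poly
import Pool.Agent.Helper82.TP.Sums
import Pool.Agent.Helper82.TP.Window

/-!
The centre is smaller than the radius.
-/

set_option autoImplicit false

open Finset Complex Filter Topology

namespace Pool.Agent.Helper82.TP

lemma F_w (t : ℝ) : ∀ n : ℕ, n ≠ 0 → F (w t) n = w t n := by
  intro n
  induction n using Nat.recOnMul with
  | zero => intro h; exact absurd rfl h
  | one => intro _; rw [F_one, w_one]
  | prime p hp => intro _; exact F_prime _ hp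
  | mul a b iha ihb =>
    intro hab
    have ha : a ≠ 0 := left_ne_zero_of_mul hab
    have hb : b ≠ 0 := right_ne_zero_of_mul hab
    rw [F_mul _ ha hb, w_mul t ha hb, iha ha, ihb hb]

lemma D_w (k M : ℕ) (t : ℝ) : D k M (w t) 1 = T k t M := by
  unfold D T
  refine sum_congr rfl fun n hn => ?_
  rw [mem_filter, mem_Icc] at hn
  rw [F_w t n (by omega), cpow_neg, cpow_one]
  rfl

lemma rho_w (k N p : ℕ) (t : ℝ) : rho k N (w t) 1 p = (p : ℂ)⁻¹ * T k t (N / p) := by
  rw [rho, D_w, cpow_neg, cpow_one]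

/-- the main term at a large prime -/
noncomputable def b (k : ℕ) (t : ℝ) (p : ℕ) : ℂ := kap k * ((w t p - 1) / (I * t)) / p

lemma norm_b_le {k : ℕ} (hk : 1 ≤ k) {t : ℝ} (ht : 0 < t) (p : ℕ) : ‖b k t p‖ ≤ 2 / t / p := by
  unfold b
  rw [norm_div, norm_mul, norm_div, norm_mul, norm_I, one_mul, norm_real, norm_real, norm_natCast,
    Real.norm_eq_abs, Real.norm_eq_abs, abs_of_pos ht, abs_of_pos (kap_pos hk)]
  have h1 : ‖w t p - 1‖ ≤ 2 := by
    refine (norm_sub_le _ _).trans ?_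
    rw [norm_w, norm_one]; norm_num
  have h2 := kap_le_one hk
  have h3 := kap_pos hk
  calc kap k * (‖w t p - 1‖ / t) / p ≤ 1 * (2 / t) / p := by gcongr
    _ = _ := by rw [one_mul]

lemma a_sub_b {k : ℕ} (hk : 1 ≤ k) {t : ℝ} (ht : 0 < t) (ht1 : t ≤ 1) {N : ℕ} (hN : w t N = 1)
    {p : ℕ} (hp : 1 ≤ p) (hpN : p ≤ N) :
    ‖w t p * rho k N (w t) 1 p - b k t p‖ ≤ (10 * k + 1) * (1 / p) := by
  set M := N / p with hM
  have hM1 : 1 ≤ M := (Nat.one_le_div_iff hp).2 hpN
  have hp0 : (0 : ℝ) < p := by exact_mod_cast hp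
  have hM0 : (0 : ℝ) < M := by exact_mod_cast hM1
  have hIt : (I * (t : ℂ)) ≠ 0 := mul_ne_zero I_ne_zero (by exact_mod_cast ht.ne')
  have h1 := T_bound hk ht ht1 hM1
  have hpM : p * M ≤ N := Nat.mul_div_le N p
  have hpM2 : N < p * (M + 1) := by
    exact Nat.lt_mul_div_succ N (by omega : 0 < p)
  have h2 : ‖w t (p * M) - 1‖ ≤ t := by
    rw [← hN]
    have h3 : w t (p * M) - w t N = w t N *
        (exp (I * ((t * (Real.log N - Real.log ((p * M : ℕ) : ℝ)) : ℝ) : ℂ)) - 1) := by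
      unfold w
      rw [mul_sub, ← exp_add, mul_one]
      congr 2
      push_cast
      ring
    rw [h3, norm_mul, norm_w, one_mul]
    refine (Real.norm_exp_I_mul_ofReal_sub_one_le).trans ?_
    have hN0 : (0 : ℝ) < N := by exact_mod_cast (by omega : 0 < N)
    have h4 : 0 ≤ Real.log N - Real.log ((p * M : ℕ) : ℝ) := by
      rw [sub_nonneg]
      refine Real.log_le_log ?_ (by exact_mod_cast hpM)
      have : 0 < p * M := by positivity
      exact_mod_cast this
    have h5 : Real.log N - Real.log ((p * M : ℕ) : ℝ) ≤ 1 := by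
      have h6 : Real.log N ≤ Real.log (2 * ((p * M : ℕ) : ℝ)) := by
        refine Real.log_le_log hN0 ?_
        have : N ≤ 2 * (p * M) := by nlinarith
        exact_mod_cast this
      rw [Real.log_mul (by norm_num) (by positivity)] at h6
      have := Real.log_two_lt_d9
      linarith
    rw [Real.norm_eq_abs, abs_of_nonneg (by positivity)]
    nlinarith
  have h3 : w t p * rho k N (w t) 1 p - b k t p =
      (w t p * (T k t M - kap k * ((1 - w t M) / (I * t))) +
        kap k * ((1 - w t (p * M)) / (I * t))) / p := by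
    rw [rho_w, w_mul t (by omega) (by omega), b, ← hM]
    field_simp
    ring
  rw [h3, norm_div, Complex.norm_natCast, div_eq_mul_one_div]
  gcongr
  refine (norm_add_le _ _).trans ?_
  refine add_le_add ?_ ?_
  · rw [norm_mul, norm_w, one_mul]; exact h1
  · rw [norm_mul, norm_div, norm_mul, norm_I, one_mul, norm_real, norm_real, Real.norm_eq_abs,
      Real.norm_eq_abs, abs_of_pos ht, abs_of_pos (kap_pos hk), norm_sub_rev]
    have h4 := kap_le_one hk
    have h5 := kap_pos hk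
    calc kap k * (‖w t (p * M) - 1‖ / t) ≤ 1 * (t / t) := by gcongr
      _ = 1 := by rw [div_self ht.ne', mul_one]

/-- The reduction to the main terms. -/
lemma reduce {k : ℕ} (hk : 1 ≤ k) {t : ℝ} (ht : 0 < t) (ht1 : t ≤ 1) {N : ℕ} (hN1 : 1 ≤ N)
    (hN : w t N = 1) (hP : ∑ p ∈ P k N, (1 : ℝ) / p ≤ 1)
    (hgap : ‖∑ p ∈ P k N, b k t p‖ + (30 * k + 3) ≤ ∑ p ∈ P k N, ‖b k t p‖)
    (hsmall : ∀ q ∈ P k N, 2 * ((2 / t + 10 * k + 1) * (1 / q)) < 1) :
    ∀ χ : DirichletCharacter ℂ k, ∃ s : ℂ, 1 < s.re ∧ S χ N s = 0 := by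
  have hk1 : (1 : ℝ) ≤ k := by exact_mod_cast hk
  have hab : ∀ p ∈ P k N, ‖w t p * rho k N (w t) 1 p - b k t p‖ ≤ (10 * k + 1) * (1 / p) := by
    intro p hp
    have hp' := mem_P.1 hp
    exact a_sub_b hk ht ht1 hN hp'.1.1 hp'.1.2
  have hna : ∀ p, ‖w t p * rho k N (w t) 1 p‖ = ‖rho k N (w t) 1 p‖ := by
    intro p; rw [norm_mul, norm_w, one_mul]
  have hE : ∑ p ∈ P k N, (10 * (k : ℝ) + 1) * (1 / p) ≤ 10 * k + 1 := by
    rw [← mul_sum]
    nlinarith
  have h1 : ∑ p ∈ P k N, ‖b k t p‖ - (10 * k + 1) ≤ ∑ p ∈ P k N, ‖rho k N (w t) 1 p‖ := by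
    have : ∑ p ∈ P k N, ‖b k t p‖ ≤ ∑ p ∈ P k N, (‖rho k N (w t) 1 p‖ + (10 * (k : ℝ) + 1) * (1 / p)) := by
      refine sum_le_sum fun p hp => ?_
      have h2 := hab p hp
      have h3 := norm_sub_le (w t p * rho k N (w t) 1 p) (w t p * rho k N (w t) 1 p - b k t p)
      rw [sub_sub_cancel, hna] at h3
      linarith
    rw [sum_add_distrib] at this
    linarith
  have h2 : ‖∑ p ∈ P k N, w t p * rho k N (w t) 1 p‖ ≤ ‖∑ p ∈ P k N, b k t p‖ + (10 * k + 1) := by
    have h3 : ∑ p ∈ P k N, w t p * rho k N (w t) 1 p = ∑ p ∈ P k N, b k t p +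
        ∑ p ∈ P k N, (w t p * rho k N (w t) 1 p - b k t p) := by
      rw [← sum_add_distrib]
      exact sum_congr rfl fun p _ => by ring
    rw [h3]
    refine (norm_add_le _ _).trans ?_
    gcongr
    exact (norm_sum_le_of_le _ hab).trans hE
  have hA : A k N (w t) 1 = T k t N - ∑ p ∈ P k N, w t p * rho k N (w t) 1 p := by
    have := D_decomp k N (w t) (w t) (fun _ _ => rfl) 1
    rw [D_w] at this
    rw [this]; ring
  have hT : ‖T k t N‖ ≤ 10 * k := by
    have := T_bound hk ht ht1 hN1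
    rwa [hN, sub_self, zero_div, mul_zero, sub_zero] at this
  have hAn : ‖A k N (w t) 1‖ ≤ ‖T k t N‖ + ‖∑ p ∈ P k N, w t p * rho k N (w t) 1 p‖ := by
    rw [hA]; exact norm_sub_le _ _
  have hnb : 0 ≤ ‖∑ p ∈ P k N, b k t p‖ := norm_nonneg _
  refine zero_of N hN1 (w t) (norm_w t) (by linarith) ?_
  intro q hq
  have hq' := mem_P.1 hq
  have h3 := hab q hq
  have h4 := norm_b_le hk ht q
  have h5 : ‖rho k N (w t) 1 q‖ ≤ (2 / t + 10 * k + 1) * (1 / q) := by
    have h6 := norm_add_le (w t q * rho k N (w t) 1 q - b k t q) (b k t q)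
    rw [sub_add_cancel, hna] at h6
    calc _ ≤ (10 * k + 1) * (1 / q) + 2 / t / q := h6.trans (add_le_add h3 h4)
      _ = _ := by ring
  have h6 := hsmall q hq
  linarith

/-- the phase `π - θ / 2` -/
noncomputable def be (t : ℝ) (p : ℕ) : ℝ := Real.pi - t * Real.log p / 2

lemma b_eq (k : ℕ) {t : ℝ} (ht : 0 < t) (p : ℕ) :
    b k t p = ((2 * kap k / t * Real.sin (be t p) * (1 / p) : ℝ) : ℂ) * exp (be t p * I) := by
  have ht0 : (t : ℂ) ≠ 0 := by exact_mod_cast ht.ne'
  set β := be t p with hβ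
  have h1 : w t p = exp (β * I) * exp (β * I) := by
    unfold w
    rw [← exp_add]
    have h2 : (-(I * ((t : ℂ) * (Real.log p : ℂ)))) = (β * I + β * I) - 2 * Real.pi * I := by
      rw [hβ, be]
      push_cast
      ring
    rw [h2, exp_sub, exp_two_pi_mul_I, div_one]
  have h2 : w t p - 1 = 2 * I * Complex.sin β * exp (β * I) := by
    have h3 : (1 : ℂ) = exp (-β * I) * exp (β * I) := by
      rw [← exp_add]; simp
    rw [h1, Complex.sin]
    have hI : I * I = -1 := I_mul_I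
    have : 2 * I * ((exp (-↑β * I) - exp (↑β * I)) * I / 2) * exp (β * I) =
      (I * I) * (exp (-↑β * I) * exp (β * I) - exp (↑β * I) * exp (β * I)) := by ring
    rw [this, hI, ← h3]
    ring
  rw [b, h2]
  push_cast
  field_simp

lemma norm_b {k : ℕ} (hk : 1 ≤ k) {t : ℝ} (ht : 0 < t) {p : ℕ} (hs : 0 ≤ Real.sin (be t p)) :
    ‖b k t p‖ = 2 * kap k / t * Real.sin (be t p) * (1 / p) := by
  have h := kap_pos hk
  rw [b_eq k ht, norm_mul, norm_exp_ofReal_mul_I, mul_one, norm_real, Real.norm_eq_abs,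
    abs_of_nonneg (by positivity)]

end Pool.Agent.Helper82.TP
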