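import Mathlib
import Pool.Agent.Helper82.TP.Gap

/-!
For every modulus all long partial sums of Dirichlet L-series have zeros with real part
greater than `1`.
-/

set_option autoImplicit false

open Finset Complex Filter Topology

namespace Pool.Agent.Helper82.TP

lemma unit_gap {u e : ℂ} (hu : ‖u‖ = 1) (he : ‖e‖ = 1) :
    (e.re - u.re) ^ 2 / 2 ≤ 1 - (starRingEnd ℂ u * e).re := by
  have h1 : u.re * u.re + u.im * u.im = 1 := by
    have := Complex.normSq_eq_norm_sq u
    rw [hu, normSq_apply] at this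
    rw [this]; norm_num
  have h2 : e.re * e.re + e.im * e.im = 1 := by
    have := Complex.normSq_eq_norm_sq e
    rw [he, normSq_apply] at this
    rw [this]; norm_num
  rw [mul_re, conj_re, conj_im]
  nlinarith [sq_nonneg (e.im - u.im)]

lemma re_le_one {u e : ℂ} (hu : ‖u‖ = 1) (he : ‖e‖ = 1) :
    0 ≤ 1 - (starRingEnd ℂ u * e).re := by
  have := unit_gap hu he
  have := sq_nonneg (e.re - u.re)
  linarith

lemma exists_unit (Z : ℂ) : ∃ u : ℂ, ‖u‖ = 1 ∧ (starRingEnd ℂ u * Z).re = ‖Z‖ := by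
  by_cases hz : Z = 0
  · exact ⟨1, norm_one, by simp [hz]⟩
  · have h0 : (‖Z‖ : ℂ) ≠ 0 := by exact_mod_cast norm_ne_zero_iff.2 hz
    refine ⟨Z / ‖Z‖, ?_, ?_⟩
    · rw [norm_div, norm_real, norm_norm, div_self (norm_ne_zero_iff.2 hz)]
    · have h1 : starRingEnd ℂ (Z / ‖Z‖) * Z = ‖Z‖ := by
        rw [map_div₀, conj_ofReal, div_mul_eq_mul_div, mul_comm, mul_conj, normSq_eq_norm_sq]
        push_cast
        field_simp
      rw [h1, ofReal_re]

lemma be_bounds {N : ℕ} (hN : 2 ≤ N) {a b : ℝ} {p : ℕ} (hp : p ∈ win a b N) :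
    Real.pi * (1 - b) ≤ be (2 * Real.pi / Real.log N) p ∧
      be (2 * Real.pi / Real.log N) p ≤ Real.pi * (1 - a) := by
  rw [mem_win] at hp
  obtain ⟨hpp, h1, h2⟩ := hp
  have hpi := Real.pi_pos
  have hN0 : (0 : ℝ) < N := by exact_mod_cast (by omega : 0 < N)
  have hL : 0 < Real.log N := Real.log_pos (by exact_mod_cast (by omega : 1 < N))
  have hp0 : (0 : ℝ) < p := by exact_mod_cast hpp.pos
  have h3 := Real.log_le_log (by positivity) h1.le
  have h4 := Real.log_le_log hp0 h2
  rw [Real.log_rpow hN0] at h3 h4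
  have h5 : be (2 * Real.pi / Real.log N) p = Real.pi - Real.pi * (Real.log p / Real.log N) := by
    unfold be; ring
  rw [h5]
  have h6 : a ≤ Real.log p / Real.log N := by rwa [le_div_iff₀ hL]
  have h7 : Real.log p / Real.log N ≤ b := by rwa [div_le_iff₀ hL]
  constructor <;> nlinarith

lemma win_sub_P {k N : ℕ} (hN : 1 ≤ N) (hkN : k * k ≤ N) (hk : 1 ≤ k) {a b : ℝ} (ha : 1 / 2 ≤ a)
    (hb : b ≤ 1) : win a b N ⊆ P k N := by
  intro p hp
  rw [mem_win] at hp
  obtain ⟨hpp, h1, h2⟩ := hp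
  have hN1 : (1 : ℝ) ≤ N := by exact_mod_cast hN
  have hp0 : (0 : ℝ) < p := by exact_mod_cast hpp.pos
  have h3 : (N : ℝ) ^ (1 / 2 : ℝ) < p := (Real.rpow_le_rpow_of_exponent_le hN1 ha).trans_lt h1
  rw [← Real.sqrt_eq_rpow, Real.sqrt_lt' hp0] at h3
  have h4 : (p : ℝ) ≤ N := by
    have := Real.rpow_le_rpow_of_exponent_le hN1 hb
    rw [Real.rpow_one] at this
    exact h2.trans this
  have h5 : N < p * p := by
    have : (N : ℝ) < ((p * p : ℕ) : ℝ) := by push_cast; linarith [sq (p : ℝ)]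
    exact_mod_cast this
  have h6 : k < p := by
    by_contra hcon
    push Not at hcon
    have : p * p ≤ k * k := Nat.mul_le_mul hcon hcon
    omega
  rw [mem_P]
  refine ⟨⟨hpp.one_lt.le, by exact_mod_cast h4⟩, hpp, h5, ?_⟩
  rw [hpp.coprime_iff_not_dvd]
  intro h
  exact absurd (Nat.le_of_dvd (by omega) h) (by omega)

lemma P_sub_win {k N : ℕ} : P k N ⊆ win (1 / 2) 1 N := by
  intro p hp
  rw [mem_P] at hp
  rw [mem_win, Real.rpow_one, ← Real.sqrt_eq_rpow]
  have hp0 : (0 : ℝ) < p := by exact_mod_cast hp.1.1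
  refine ⟨hp.2.1, ?_, by exact_mod_cast hp.1.2⟩
  rw [Real.sqrt_lt' hp0, sq]
  exact_mod_cast hp.2.2.1

theorem gap {k : ℕ} (hk : 1 ≤ k) {N : ℕ} (hN : 2 ≤ N) (hkN : k * k ≤ N)
    (hW1 : 1 / 20 ≤ ∑ p ∈ win (1 / 2) (7 / 12) N, (1 : ℝ) / p)
    (hW2 : 1 / 20 ≤ ∑ p ∈ win (5 / 6) (11 / 12) N, (1 : ℝ) / p) :
    ‖∑ p ∈ P k N, b k (2 * Real.pi / Real.log N) p‖ + kap k * Real.log N / 10000 ≤
      ∑ p ∈ P k N, ‖b k (2 * Real.pi / Real.log N) p‖ := by
  have hpi := Real.pi_pos
  have hpi2 := Real.pi_lt_d2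
  have hL : 0 < Real.log N := Real.log_pos (by exact_mod_cast (by omega : 1 < N))
  set t : ℝ := 2 * Real.pi / Real.log N with ht
  have ht0 : 0 < t := by positivity
  have hkap := kap_pos hk
  have hbe : ∀ p ∈ P k N, 0 ≤ be t p ∧ be t p ≤ Real.pi / 2 := by
    intro p hp
    have := be_bounds hN (P_sub_win hp)
    constructor
    · linarith [this.1]
    · linarith [this.2]
  have hsin : ∀ p ∈ P k N, 0 ≤ Real.sin (be t p) := fun p hp =>
    Real.sin_nonneg_of_nonneg_of_le_pi (hbe p hp).1 (by linarith [(hbe p hp).2])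
  obtain ⟨u, hu, huZ⟩ := exists_unit (∑ p ∈ P k N, b k t p)
  set g : ℕ → ℝ := fun p => 1 - (starRingEnd ℂ u * exp (be t p * I)).re with hg
  have hg0 : ∀ p, 0 ≤ g p := fun p => re_le_one hu (norm_exp_ofReal_mul_I _)
  have hZ : ‖∑ p ∈ P k N, b k t p‖ = ∑ p ∈ P k N, ‖b k t p‖ -
      ∑ p ∈ P k N, (2 * kap k / t * Real.sin (be t p) * (1 / p)) * g p := by
    rw [← huZ, mul_sum, re_sum, ← sum_sub_distrib]
    refine sum_congr rfl fun p hp => ?_
    rw [norm_b hk ht0 (hsin p hp), b_eq k ht0, mul_left_comm, re_ofReal_mul]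
    simp only [hg]
    ring
  rw [hZ]
  have hfin : ∀ a b : ℝ, 1 / 2 ≤ a → b ≤ 1 → 1 / 20 ≤ ∑ p ∈ win a b N, (1 : ℝ) / p →
      (∀ p ∈ win a b N, 1 / 6 ≤ Real.sin (be t p) ∧ 1 / 25 ≤ g p) →
      kap k * Real.log N / 10000 ≤
        ∑ p ∈ P k N, (2 * kap k / t * Real.sin (be t p) * (1 / p)) * g p := by
    intro a b ha hb hW h
    calc kap k * Real.log N / 10000 ≤ (2 * kap k / t * (1 / 6) * (1 / 25)) * (1 / 20) := by
          rw [ht]
          have : 2 * kap k / (2 * Real.pi / Real.log N) = kap k * Real.log N * (1 / Real.pi) := by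
            field_simp
          rw [this]
          have h1 : 5 / 16 ≤ 1 / Real.pi := by
            rw [le_div_iff₀ hpi]; linarith
          have h2 : 0 < kap k * Real.log N := by positivity
          nlinarith
      _ ≤ (2 * kap k / t * (1 / 6) * (1 / 25)) * ∑ p ∈ win a b N, (1 : ℝ) / p := by gcongr
      _ = ∑ p ∈ win a b N, (2 * kap k / t * (1 / 6) * (1 / p)) * (1 / 25) := by
          rw [mul_sum]
          exact sum_congr rfl fun p _ => by ring
      _ ≤ ∑ p ∈ win a b N, (2 * kap k / t * Real.sin (be t p) * (1 / p)) * g p := by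
          refine sum_le_sum fun p hp => ?_
          obtain ⟨h1, h2⟩ := h p hp
          have : 0 ≤ Real.sin (be t p) := by linarith
          gcongr
      _ ≤ _ := by
          refine sum_le_sum_of_subset_of_nonneg (win_sub_P (by omega) hkN hk ha hb) ?_
          intro p hp _
          have := hsin p hp
          have := hg0 p
          positivity
  have hre : ∀ p, (exp (be t p * I)).re = Real.cos (be t p) := fun p => exp_ofReal_mul_I_re _
  have hgl : ∀ p, (Real.cos (be t p) - u.re) ^ 2 / 2 ≤ g p := by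
    intro p
    have := unit_gap hu (norm_exp_ofReal_mul_I (be t p))
    rwa [hre] at this
  have key : kap k * Real.log N / 10000 ≤
        ∑ p ∈ P k N, (2 * kap k / t * Real.sin (be t p) * (1 / p)) * g p := by
    rcases le_total u.re (14 / 25) with h | h
    · refine hfin (5 / 6) (11 / 12) (by norm_num) (by norm_num) hW2 fun p hp => ?_
      obtain ⟨h1, h2⟩ := be_bounds hN hp
      constructor
      · have := Real.mul_le_sin (x := be t p) (by linarith) (by linarith)
        refine le_trans ?_ this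
        rw [div_mul_eq_mul_div, le_div_iff₀ hpi]
        linarith
      · refine le_trans ?_ (hgl p)
        have h3 := Real.one_sub_sq_div_two_le_cos (x := be t p)
        have h4 : be t p ≤ 0.525 := by linarith
        have h5 : 0 ≤ be t p := by linarith
        have h6 : 0.862 ≤ Real.cos (be t p) := by nlinarith
        nlinarith
    · refine hfin (1 / 2) (7 / 12) (by norm_num) (by norm_num) hW1 fun p hp => ?_
      obtain ⟨h1, h2⟩ := be_bounds hN hp
      constructor
      · have := Real.mul_le_sin (x := be t p) (by linarith) (by linarith)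
        refine le_trans ?_ this
        rw [div_mul_eq_mul_div, le_div_iff₀ hpi]
        linarith
      · refine le_trans ?_ (hgl p)
        have h3 := Real.sin_le (x := Real.pi / 2 - be t p) (by linarith)
        rw [Real.sin_pi_div_two_sub] at h3
        have h6 : Real.cos (be t p) ≤ 0.2625 := by linarith
        nlinarith
  linarith

theorem eventually_zero {k : ℕ} (hk : 1 ≤ k) : ∀ᶠ N : ℕ in atTop,
    ∀ χ : DirichletCharacter ℂ k, ∃ s : ℂ, 1 < s.re ∧ S χ N s = 0 := by
  have hpi := Real.pi_pos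
  have hpi3 := Real.pi_gt_three
  have hkap := kap_pos hk
  have hL : Tendsto (fun N : ℕ => Real.log N) atTop atTop :=
    Real.tendsto_log_atTop.comp tendsto_natCast_atTop_atTop
  have hW1 : ∀ᶠ N : ℕ in atTop, 1 / 20 ≤ ∑ p ∈ win (1 / 2) (7 / 12) N, (1 : ℝ) / p := by
    refine (window (by norm_num) (by norm_num)).eventually_const_le ?_
    have := Real.one_sub_inv_le_log_of_pos (x := (7 / 12) / (1 / 2)) (by norm_num)
    norm_num at this ⊢
    linarith
  have hW2 : ∀ᶠ N : ℕ in atTop, 1 / 20 ≤ ∑ p ∈ win (5 / 6) (11 / 12) N, (1 : ℝ) / p := by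
    refine (window (by norm_num) (by norm_num)).eventually_const_le ?_
    have := Real.one_sub_inv_le_log_of_pos (x := (11 / 12) / (5 / 6)) (by norm_num)
    norm_num at this ⊢
    linarith
  have hW3 : ∀ᶠ N : ℕ in atTop, ∑ p ∈ win (1 / 2) 1 N, (1 : ℝ) / p ≤ 1 := by
    refine (window (by norm_num) (by norm_num)).eventually_le_const ?_
    have := Real.log_two_lt_d9
    norm_num at this ⊢
    linarith
  have hsm : Tendsto (fun N : ℕ => 2 * ((Real.log N + 10 * k + 1) / (N : ℝ) ^ (1 / 2 : ℝ)))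
      atTop (𝓝 0) := by
    have h1 : Tendsto (fun x : ℝ => Real.log x / x ^ (1 / 2 : ℝ)) atTop (𝓝 0) :=
      (isLittleO_log_rpow_atTop (by norm_num)).tendsto_div_nhds_zero
    have h2 : Tendsto (fun x : ℝ => (10 * (k : ℝ) + 1) / x ^ (1 / 2 : ℝ)) atTop (𝓝 0) :=
      tendsto_const_nhds.div_atTop (tendsto_rpow_atTop (by norm_num))
    have h3 := ((h1.add h2).const_mul 2).comp tendsto_natCast_atTop_atTop
    rw [add_zero, mul_zero] at h3
    refine h3.congr fun N => ?_
    simp only [Function.comp]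
    ring
  filter_upwards [hW1, hW2, hW3, hsm.eventually_lt_const one_pos, eventually_ge_atTop 2,
    eventually_ge_atTop (k * k), hL.eventually_ge_atTop (2 * Real.pi),
    hL.eventually_ge_atTop ((30 * k + 3) * 10000 / kap k)] with N h1 h2 h3 h4 hN hkN h5 h6
  have hL0 : 0 < Real.log N := Real.log_pos (by exact_mod_cast (by omega : 1 < N))
  have hN0 : (0 : ℝ) < N := by exact_mod_cast (by omega : 0 < N)
  set t : ℝ := 2 * Real.pi / Real.log N with ht
  have ht0 : 0 < t := by positivity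
  have hwN : w t N = 1 := by
    have h7 : (-(I * ((t : ℂ) * (Real.log N : ℂ)))) = -(2 * Real.pi * I) := by
      have : (t : ℂ) * (Real.log N : ℂ) = ((2 * Real.pi : ℝ) : ℂ) := by
        rw [← ofReal_mul, ht, div_mul_cancel₀ _ hL0.ne']
      rw [this]; push_cast; ring
    rw [w, h7, exp_neg, exp_two_pi_mul_I, inv_one]
  refine reduce hk ht0 ?_ (by omega) hwN ?_ ?_ ?_
  · rw [ht, div_le_one hL0]; exact h5
  · exact (sum_le_sum_of_subset_of_nonneg P_sub_win fun p _ _ => by positivity).trans h3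
  · refine le_trans ?_ (gap hk hN hkN h1 h2)
    gcongr
    rw [div_le_iff₀ hkap] at h6
    rw [le_div_iff₀ (by norm_num)]
    linarith
  · intro q hq
    have hq' := mem_win.1 (P_sub_win hq)
    have hq0 : (0 : ℝ) < q := by exact_mod_cast hq'.1.pos
    refine lt_of_le_of_lt ?_ h4
    have h7 : 2 / t ≤ Real.log N := by
      rw [ht, div_div_eq_mul_div, div_le_iff₀ (by positivity)]
      nlinarith
    have h8 : 1 / (q : ℝ) ≤ 1 / (N : ℝ) ^ (1 / 2 : ℝ) :=
      one_div_le_one_div_of_le (by positivity) hq'.2.1.le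
    rw [div_eq_mul_one_div (Real.log N + 10 * k + 1)]
    gcongr

end Pool.Agent.Helper82.TP
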