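import Pool.Agent.Helper82.TP.Ten

/-!
# Flags
-/

set_option autoImplicit false

namespace Pool.Agent.Helper82.TP

open Module Finset
open scoped TensorProduct

variable {E : Type} [Field E]

section quotient

variable {V : Type} [AddCommGroup V] [Module E V] [FiniteDimensional E V]

lemma mapQ_injective (F : End E V) (hF : Function.Injective F) (U : Submodule E V)
    (hU : U ≤ U.comap F) : Function.Injective (U.mapQ U F hU) := by
  have h1 : Function.Surjective F := LinearMap.injective_iff_surjective.1 hF
  refine LinearMap.injective_iff_surjective.2 fun x => ?_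
  obtain ⟨y, rfl⟩ := U.mkQ_surjective x
  obtain ⟨z, rfl⟩ := h1 y
  exact ⟨U.mkQ z, rfl⟩

omit [FiniteDimensional E V] in
lemma finrank_pair {v u : V} (h : ∀ s t : E, s • v + t • u = 0 → s = 0 ∧ t = 0) :
    finrank E (Submodule.span E {v, u}) = 2 := by
  have h1 : LinearIndependent E ![v, u] := LinearIndependent.pair_iff.2 h
  have h2 := finrank_span_eq_card h1
  have h3 : Set.range ![v, u] = {v, u} := by
    ext x
    simp only [Set.mem_range, Set.mem_insert_iff, Set.mem_singleton_iff, Fin.exists_fin_two,
      Matrix.cons_val_zero, Matrix.cons_val_one]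
    constructor
    · rintro (h | h)
      · exact Or.inl h.symm
      · exact Or.inr h.symm
    · rintro (h | h)
      · exact Or.inl h.symm
      · exact Or.inr h.symm
  rw [h3] at h2
  simpa using h2

end quotient

variable [IsAlgClosed E]

theorem flag : ∀ (n : ℕ) (V : Type) [AddCommGroup V] [Module E V] [FiniteDimensional E V],
    finrank E V = n → ∀ F : End E V, Function.Injective F →
    ∃ ν : Fin n → E, (∀ i, ν i ≠ 0) ∧ ∀ (W : Type) [AddCommGroup W] [Module E W]
      [FiniteDimensional E W] (G : End E W) (c : E) (j : ℕ),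
      kd (TensorProduct.map G F) c j ≤ ∑ i, kd G (c / ν i) j := by
  intro n
  induction n with
  | zero =>
    intro V _ _ _ hV F _
    refine ⟨Fin.elim0, fun i => i.elim0, ?_⟩
    intro W _ _ _ G c j
    refine (kd_le _ c j).trans ?_
    rw [finrank_tensorProduct, hV, mul_zero]
    exact Nat.zero_le _
  | succ n ih =>
    intro V _ _ _ hV F hF
    have hn : Nontrivial V := nontrivial_of_finrank_pos (R := E) (by omega)
    obtain ⟨a, ha⟩ := End.exists_eigenvalue F
    obtain ⟨v, hv⟩ := ha.exists_hasEigenvector
    have hv0 : v ≠ 0 := hv.2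
    have hFv : F v = a • v := hv.apply_eq_smul
    have ha0 : a ≠ 0 := by
      rintro rfl
      rw [zero_smul] at hFv
      exact hv0 (hF (by rw [hFv, map_zero]))
    have hU : Submodule.span E {v} ≤ (Submodule.span E {v}).comap F := by
      rw [Submodule.span_singleton_le_iff_mem, Submodule.mem_comap, hFv]
      exact Submodule.smul_mem _ _ (Submodule.mem_span_singleton_self v)
    have hq : finrank E (V ⧸ Submodule.span E {v}) = n := by
      have h1 := Submodule.finrank_quotient_add_finrank (Submodule.span E {v})
      rw [finrank_span_singleton hv0] at h1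
      omega
    obtain ⟨ν, hν, h⟩ := ih _ hq _ (mapQ_injective F hF _ hU)
    refine ⟨Fin.cons a ν, fun i => Fin.cases (by simpa using ha0) (fun i => by simpa using hν i) i, ?_⟩
    intro W _ _ _ G c j
    refine (kd_line F G hv0 hFv hU c j).trans ?_
    rw [Fin.sum_univ_succ, kd_smul G ha0]
    simp only [Fin.cons_zero, Fin.cons_succ]
    exact Nat.add_le_add_left (h W G c j) _

theorem flagJ [CharZero E] (V : Type) [AddCommGroup V] [Module E V] [FiniteDimensional E V]
    (F : End E V) (hF : Function.Injective F) (hs : ¬ F.IsSemisimple) :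
    ∃ (a : E) (n : ℕ) (ν : Fin n → E), a ≠ 0 ∧ n + 2 = finrank E V ∧ (∀ i, ν i ≠ 0) ∧
      ∀ (W : Type) [AddCommGroup W] [Module E W]
      [FiniteDimensional E W] (G : End E W) (c : E) (j : ℕ), c ≠ 0 → 1 ≤ j →
      kd (TensorProduct.map G F) c j ≤ kd G (c / a) (j + 1) + kd G (c / a) (j - 1) +
        ∑ i, kd G (c / ν i) j := by
  obtain ⟨a, k, hk, w, φ, h1, -, h2⟩ := Pool.Agent.Helper17.JB.exists_block F hs
  obtain ⟨m, rfl⟩ : ∃ m, k = m + 2 := ⟨k - 2, by omega⟩
  have e1 : m + 2 - 1 = m + 1 := by omega
  rw [e1] at h2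
  set D := F - a • (1 : End E V) with hD
  have hDa : ∀ x : V, D x = F x - a • x := fun x => rfl
  set v := (D ^ m) w with hv
  set u := D v with hu
  have hu0 : u ≠ 0 := by
    intro h
    apply h2
    rw [pow_succ', End.mul_apply, ← hv, ← hu, h, map_zero]
  have hDu : D u = 0 := by
    rw [pow_succ', pow_succ', End.mul_apply, End.mul_apply] at h1
    exact h1
  have hFv : F v = a • v + u := by
    rw [hu, hDa]; abel
  have hFu : F u = a • u := by
    rw [hDa, sub_eq_zero] at hDu
    exact hDu
  have ha0 : a ≠ 0 := by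
    intro h0
    rw [h0, zero_smul] at hFu
    exact hu0 (hF (by rw [hFu, map_zero]))
  have hU : Submodule.span E {v, u} ≤ (Submodule.span E {v, u}).comap F := by
    rw [Submodule.span_le]
    rintro x hx
    have mv : v ∈ Submodule.span E {v, u} := Submodule.subset_span (by simp)
    have mu : u ∈ Submodule.span E {v, u} := Submodule.subset_span (by simp)
    rcases hx with rfl | rfl
    · rw [SetLike.mem_coe, Submodule.mem_comap]
      nth_rw 1 [hFv]
      exact Submodule.add_mem _ (Submodule.smul_mem _ _ mv) mu
    · rw [SetLike.mem_coe, Submodule.mem_comap]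
      nth_rw 1 [hFu]
      exact Submodule.smul_mem _ _ mu
  have h2r : finrank E (Submodule.span E {v, u}) = 2 := by
    refine finrank_pair fun s t hst => ?_
    have h3 : s • u = 0 := by
      have := congrArg D hst
      rw [map_add, map_smul, map_smul, ← hu, hDu, smul_zero, add_zero, map_zero] at this
      exact this
    have hs : s = 0 := (smul_eq_zero.1 h3).resolve_right hu0
    rw [hs, zero_smul, zero_add] at hst
    exact ⟨hs, (smul_eq_zero.1 hst).resolve_right hu0⟩
  have hq := Submodule.finrank_quotient_add_finrank (Submodule.span E {v, u})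
  rw [h2r] at hq
  obtain ⟨ν, hν, h⟩ := flag _ _ rfl _ (mapQ_injective F hF _ hU)
  refine ⟨a, _, ν, ha0, hq, hν, ?_⟩
  intro W _ _ _ G c j hc hj
  refine (kd_block F G hu0 hFv hFu hU c j).trans ?_
  have h4 := kd_jd G (a := a) hc hj
  rw [kd_smul G ha0, kd_smul G ha0] at h4
  exact Nat.add_le_add h4 (h W G c j)

end Pool.Agent.Helper82.TP
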