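import Pool.Agent.Helper82.TP.Flag

/-!
# The Künneth formula and the dimensions of the kernels
-/

set_option autoImplicit false

namespace Pool.Agent.Helper82.TP

open Module Finset
open scoped TensorProduct
open Pool.Agent.Helper17.JB

variable {E : Type} [Field E]

/-- products -/
lemma kd_pi {ι : Type} [Fintype ι] (V : ι → Type) [∀ i, AddCommGroup (V i)] [∀ i, Module E (V i)]
    [∀ i, FiniteDimensional E (V i)] (G : ∀ i, End E (V i)) (c : E) (j : ℕ) :
    kd (LinearMap.pi fun i => G i ∘ₗ LinearMap.proj i : End E (∀ i, V i)) c j ≤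
      ∑ i, kd (G i) c j := by
  unfold kd
  set T : End E (∀ i, V i) := LinearMap.pi fun i => G i ∘ₗ LinearMap.proj i with hT
  have h1 : ∀ (i : ι) (x : ∀ i, V i), ((T - c • (1 : End E (∀ i, V i))) ^ j) x i =
      ((G i - c • (1 : End E (V i))) ^ j) (x i) := by
    intro i x
    exact inter_pow (LinearMap.proj i) T (G i) (fun x => rfl) c j x
  have h2 : ∀ (i : ι) (x : LinearMap.ker ((T - c • (1 : End E (∀ i, V i))) ^ j)),
      ((LinearMap.proj i : (∀ i, V i) →ₗ[E] V i) ∘ₗ (LinearMap.ker ((T - c • 1) ^ j)).subtype) x ∈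
        LinearMap.ker ((G i - c • (1 : End E (V i))) ^ j) := by
    intro i x
    rw [LinearMap.mem_ker]
    show ((G i - c • (1 : End E (V i))) ^ j) ((x : ∀ i, V i) i) = 0
    rw [← h1, LinearMap.mem_ker.1 x.2]
    rfl
  let χ : LinearMap.ker ((T - c • (1 : End E (∀ i, V i))) ^ j) →ₗ[E]
      (∀ i, LinearMap.ker ((G i - c • (1 : End E (V i))) ^ j)) :=
    LinearMap.pi fun i => LinearMap.codRestrict _ _ (h2 i)
  have hχ : Function.Injective χ := by
    rw [injective_iff_map_eq_zero]
    intro p hp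
    refine Subtype.ext (funext fun i => ?_)
    exact congrArg Subtype.val (congrFun hp i)
  have := LinearMap.finrank_le_finrank_of_injective hχ
  rwa [finrank_pi_fintype] at this

/-- regrouping of a sum over degrees -/
lemma regroup (f : ℕ → ℕ → ℕ) (a b M : ℕ) (h : ∀ i l, a ≤ i ∨ b ≤ l → f i l = 0)
    (hM : a + b ≤ M + 1) :
    ∑ n ∈ range M, ∑ i : Fin (n + 1), f i (n - i) = ∑ i ∈ range a, ∑ l ∈ range b, f i l := by
  have e1 : ∀ n ∈ range M, ∑ i : Fin (n + 1), f i (n - i) =
      ∑ p ∈ (range a ×ˢ range b).filter (fun p => p.1 + p.2 = n), f p.1 p.2 := by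
    intro n _
    rw [← Finset.sum_range (fun i => f i (n - i)),
      ← Finset.Nat.sum_antidiagonal_eq_sum_range_succ f n]
    symm
    refine Finset.sum_subset (fun p hp => ?_) fun p hp hnp => ?_
    · rw [mem_filter] at hp
      rw [Finset.HasAntidiagonal.mem_antidiagonal]
      exact hp.2
    · rw [Finset.HasAntidiagonal.mem_antidiagonal] at hp
      rw [mem_filter, mem_product, mem_range, mem_range] at hnp
      apply h
      by_contra hcon
      push Not at hcon
      exact hnp ⟨⟨hcon.1, hcon.2⟩, hp⟩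
  rw [Finset.sum_congr rfl e1, Finset.sum_fiberwise_of_maps_to, Finset.sum_product]
  intro p hp
  rw [mem_product, mem_range, mem_range] at hp
  rw [mem_range]
  omega

variable {q : ℕ} (A : SmoothTheory q E)

/-- the sum over all degrees of the dimensions of the kernels of `(F - c) ^ j` -/
noncomputable def KT (X : A.Var) (c : E) (j : ℕ) : ℕ :=
  ∑ i ∈ range (2 * A.dim X + 1), kd (A.F X i) c j

lemma kd_of_sub {V : Type} [AddCommGroup V] [Module E V] [Subsingleton V] (F : End E V) (c : E)
    (j : ℕ) : kd F c j = 0 := by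
  unfold kd
  exact finrank_zero_of_subsingleton

lemma kd_kun (X Y : A.Var) (n : ℕ) (c : E) (j : ℕ) :
    kd (A.F (A.prod X Y) n) c j ≤
      ∑ i : Fin (n + 1), kd (TensorProduct.map (A.F X i) (A.F Y (n - i))) c j := by
  obtain ⟨e, he⟩ := Pool.Agent.Helper17.JB.SmoothTheory.kun' A X Y n
  have h1 := kd_similar (LinearMap.pi fun i : Fin (n + 1) =>
    (TensorProduct.map (A.F X i) (A.F Y (n - i))) ∘ₗ LinearMap.proj i) (A.F (A.prod X Y) n) e
    (fun a => he a) c j
  rw [← h1]
  exact kd_pi (fun i : Fin (n + 1) => A.H X i ⊗[E] A.H Y (n - i)) _ c j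

lemma KT_prod (X Y : A.Var) (c : E) (j : ℕ) :
    KT A (A.prod X Y) c j ≤ ∑ i ∈ range (2 * A.dim X + 1), ∑ l ∈ range (2 * A.dim Y + 1),
      kd (TensorProduct.map (A.F X i) (A.F Y l)) c j := by
  unfold KT
  rw [A.dim_prod]
  refine (Finset.sum_le_sum fun n _ => kd_kun A X Y n c j).trans (le_of_eq ?_)
  refine regroup (fun i l => kd (TensorProduct.map (A.F X i) (A.F Y l)) c j) _ _ _
    (fun i l hil => ?_) (by omega)
  have : Subsingleton (A.H X i ⊗[E] A.H Y l) := by
    rcases hil with h | h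
    · have := A.van X i (by omega)
      infer_instance
    · have := A.van Y l (by omega)
      infer_instance
  exact kd_of_sub _ c j

lemma F_inj [CharZero E] (hq : q ≠ 0) (X : A.Var) (i : ℕ) : Function.Injective (A.F X i) := by
  rcases le_or_gt i (2 * A.dim X) with h | h
  · obtain ⟨B, ⟨h1, h2, h3, h4, h5, h6⟩, h7⟩ := A.dual X i (2 * A.dim X - i) (by omega)
    rw [injective_iff_map_eq_zero]
    intro a ha
    refine h5 a fun b => ?_
    have h8 := h7 a b
    have h9 : B 0 (A.F X (2 * A.dim X - i) b) = 0 := by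
      have := h2 0 0 (A.F X (2 * A.dim X - i) b)
      rwa [zero_smul, zero_mul] at this
    rw [ha, h9] at h8
    have hq' : ((q : E) ^ A.dim X) ≠ 0 := pow_ne_zero _ (by exact_mod_cast hq)
    exact (mul_eq_zero.1 h8.symm).resolve_left hq'
  · have := A.van X i h
    exact Function.injective_of_subsingleton _

/-- all the pieces of the cohomology of `X` -/
theorem pieces [CharZero E] [IsAlgClosed E] (hq : q ≠ 0) (X : A.Var) (l₀ : ℕ)
    (hs : ¬ (A.F X l₀).IsSemisimple) :
    ∃ (a : E) (C : Type) (_ : Fintype C) (ν : C → E), a ≠ 0 ∧ (∀ x, ν x ≠ 0) ∧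
      Fintype.card C + 2 = A.betti X ∧
      ∀ (W : Type) [AddCommGroup W] [Module E W] [FiniteDimensional E W] (G : End E W) (c : E)
        (j : ℕ), c ≠ 0 → 1 ≤ j →
        ∑ l ∈ range (2 * A.dim X + 1), kd (TensorProduct.map G (A.F X l)) c j ≤
          kd G (c / a) (j + 1) + kd G (c / a) (j - 1) + ∑ x, kd G (c / ν x) j := by
  classical
  have hl₀ : l₀ < 2 * A.dim X + 1 := by
    by_contra hcon
    have := A.van X l₀ (by omega)
    apply hs
    rw [Subsingleton.elim (A.F X l₀) 0]
    exact End.isSemisimple_zero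
  obtain ⟨a, n₀, ν₀, ha, hn₀, hν₀, h₀⟩ := flagJ _ (A.F X l₀) (F_inj A hq X l₀) hs
  have key : ∀ l : Fin (2 * A.dim X + 1), ∃ (r : ℕ) (ν : Fin r → E), (∀ i, ν i ≠ 0) ∧
      (r + (if (l : ℕ) = l₀ then 2 else 0) = finrank E (A.H X l)) ∧
      ∀ (W : Type) [AddCommGroup W] [Module E W] [FiniteDimensional E W] (G : End E W) (c : E)
        (j : ℕ), c ≠ 0 → 1 ≤ j → kd (TensorProduct.map G (A.F X l)) c j ≤
          (if (l : ℕ) = l₀ then kd G (c / a) (j + 1) + kd G (c / a) (j - 1) else 0) +
            ∑ i, kd G (c / ν i) j := by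
    intro l
    by_cases hl : (l : ℕ) = l₀
    · obtain ⟨l, hl'⟩ := l
      simp only at hl
      subst hl
      simp only [if_true]
      exact ⟨n₀, ν₀, hν₀, hn₀, h₀⟩
    · simp only [hl, if_false]
      obtain ⟨ν, h1, h2⟩ := flag _ _ rfl (A.F X l) (F_inj A hq X l)
      refine ⟨_, ν, h1, rfl, ?_⟩
      intro W _ _ _ G c j _ _
      rw [zero_add]
      exact h2 W G c j
  choose r ν h1 h2 h3 using key
  refine ⟨a, Σ l : Fin (2 * A.dim X + 1), Fin (r l), inferInstance, fun x => ν x.1 x.2, ha,
    fun x => h1 _ _, ?_, ?_⟩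
  · rw [Fintype.card_sigma]
    simp only [Fintype.card_fin]
    have e1 : A.betti X = ∑ l : Fin (2 * A.dim X + 1), (r l + if (l : ℕ) = l₀ then 2 else 0) := by
      unfold SmoothTheory.betti
      rw [Finset.sum_range]
      exact Finset.sum_congr rfl fun l _ => (h2 l).symm
    rw [e1, Finset.sum_add_distrib]
    congr 1
    have e2 : ∀ l : Fin (2 * A.dim X + 1), (if (l : ℕ) = l₀ then 2 else 0) =
        if l = ⟨l₀, hl₀⟩ then 2 else 0 := by
      intro l
      simp only [Fin.ext_iff]
    rw [Finset.sum_congr rfl fun l _ => e2 l, Finset.sum_ite_eq']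
    simp
  · intro W _ _ _ G c j hc hj
    rw [Finset.sum_range]
    refine (Finset.sum_le_sum fun l _ => h3 l W G c j hc hj).trans (le_of_eq ?_)
    rw [Finset.sum_add_distrib]
    congr 1
    · have e2 : ∀ l : Fin (2 * A.dim X + 1),
          (if (l : ℕ) = l₀ then kd G (c / a) (j + 1) + kd G (c / a) (j - 1) else 0) =
          if l = ⟨l₀, hl₀⟩ then kd G (c / a) (j + 1) + kd G (c / a) (j - 1) else 0 := by
        intro l
        simp only [Fin.ext_iff]
      rw [Finset.sum_congr rfl fun l _ => e2 l, Finset.sum_ite_eq']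
      simp
    · exact (Fintype.sum_sigma (fun x : (Σ l : Fin (2 * A.dim X + 1), Fin (r l)) =>
        kd G (c / ν x.1 x.2) j)).symm

/-- the dimensions for the powers of `X`, starting with the point -/
noncomputable def Kn (X : A.Var) : ℕ → E → ℕ → ℕ
  | 0, c, j => kd (1 : End E E) c j
  | n + 1, c, j => KT A (A.pow X n) c j

lemma Kn_zero (X : A.Var) (n : ℕ) (c : E) : Kn A X n c 0 = 0 := by
  cases n with
  | zero => exact kd_zero _ _
  | succ n =>
    show KT A (A.pow X n) c 0 = 0
    unfold KT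
    exact Finset.sum_eq_zero fun i _ => kd_zero _ _

open Classical in
lemma Kn_pt (X : A.Var) (c : E) (j : ℕ) : Kn A X 0 c j ≤ if c = 1 then 1 else 0 := by
  show kd (1 : End E E) c j ≤ _
  split_ifs with h
  · have := kd_le (1 : End E E) c j
    rwa [finrank_self] at this
  · refine le_of_eq ?_
    unfold kd
    have e1 : (1 : End E E) - c • (1 : End E E) = ((1 : E) - c) • (1 : End E E) := by
      refine LinearMap.ext fun x => ?_
      rw [LinearMap.sub_apply, LinearMap.smul_apply, LinearMap.smul_apply, End.one_apply, sub_smul,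
        one_smul]
    have h0 : (1 - c) ≠ 0 := fun h' => h (sub_eq_zero.1 h').symm
    rw [e1, smul_pow, one_pow, LinearMap.ker_smul _ _ (pow_ne_zero _ h0), End.one_eq_id,
      LinearMap.ker_id, finrank_bot]

/-- the recursion -/
lemma Kn_succ (X : A.Var) (a : E) (C : Type) [Fintype C] (ν : C → E)
    (h : ∀ (W : Type) [AddCommGroup W] [Module E W] [FiniteDimensional E W] (G : End E W) (c : E)
        (j : ℕ), c ≠ 0 → 1 ≤ j →
        ∑ l ∈ range (2 * A.dim X + 1), kd (TensorProduct.map G (A.F X l)) c j ≤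
          kd G (c / a) (j + 1) + kd G (c / a) (j - 1) + ∑ x, kd G (c / ν x) j)
    (n : ℕ) (c : E) (j : ℕ) (hc : c ≠ 0) (hj : 1 ≤ j) :
    Kn A X (n + 1) c j ≤ Kn A X n (c / a) (j + 1) + Kn A X n (c / a) (j - 1) +
      ∑ x, Kn A X n (c / ν x) j := by
  cases n with
  | zero =>
    have h1 := h E (1 : End E E) c j hc hj
    refine le_trans (le_of_eq ?_) h1
    show KT A X c j = _
    unfold KT
    refine Finset.sum_congr rfl fun l _ => ?_
    symm
    refine kd_similar _ _ (TensorProduct.lid E (A.H X l)) (fun t => ?_) c j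
    induction t using TensorProduct.induction_on with
    | zero => simp
    | tmul r v =>
      rw [TensorProduct.map_tmul, TensorProduct.lid_tmul, TensorProduct.lid_tmul, map_smul]
      rfl
    | add s t hs ht => simp only [map_add, hs, ht]
  | succ n =>
    refine (KT_prod A (A.pow X n) X c j).trans ?_
    refine (Finset.sum_le_sum fun i _ => h _ (A.F (A.pow X n) i) c j hc hj).trans (le_of_eq ?_)
    rw [Finset.sum_add_distrib, Finset.sum_add_distrib, Finset.sum_comm]
    rfl

end Pool.Agent.Helper82.TP
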