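import Pool.Agent.Helper17.JB.Main

/-!
# Dimensions of kernels of powers for tensor products
-/

set_option autoImplicit false

namespace Pool.Agent.Helper82.TP

open Module Finset
open scoped TensorProduct

section basic

variable {E V W V' V'' : Type} [Field E] [AddCommGroup V] [Module E V] [AddCommGroup W] [Module E W]
  [AddCommGroup V'] [Module E V'] [AddCommGroup V''] [Module E V'']

/-- the dimension of the kernel of `(F - c) ^ j` -/
noncomputable def kd (F : End E V) (c : E) (j : ℕ) : ℕ :=
  finrank E (LinearMap.ker ((F - c • (1 : End E V)) ^ j))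

lemma kd_zero (F : End E V) (c : E) : kd F c 0 = 0 := by
  unfold kd
  rw [pow_zero, End.one_eq_id, LinearMap.ker_id, finrank_bot]

lemma kd_le [FiniteDimensional E V] (F : End E V) (c : E) (j : ℕ) : kd F c j ≤ finrank E V :=
  Submodule.finrank_le _

lemma inter_pow (f : V' →ₗ[E] V) (A' : End E V') (A : End E V) (h : ∀ x, f (A' x) = A (f x)) (c : E)
    (j : ℕ) (x : V') : f (((A' - c • (1 : End E V')) ^ j) x) = ((A - c • (1 : End E V)) ^ j) (f x) := by
  induction j generalizing x with
  | zero => rfl
  | succ j ih =>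
    rw [pow_succ, pow_succ, End.mul_apply, End.mul_apply, ih]
    congr 1
    rw [LinearMap.sub_apply, LinearMap.sub_apply, LinearMap.smul_apply, LinearMap.smul_apply,
      End.one_apply, End.one_apply, map_sub, map_smul, h]

/-- subadditivity in exact sequences -/
lemma kd_ext [FiniteDimensional E V] [FiniteDimensional E V'] [FiniteDimensional E V'']
    (f : V' →ₗ[E] V) (g : V →ₗ[E] V'') (A' : End E V') (A : End E V) (A'' : End E V'')
    (hf : ∀ x, f (A' x) = A (f x)) (hg : ∀ x, g (A x) = A'' (g x)) (hi : Function.Injective f)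
    (hex : ∀ x, g x = 0 → ∃ y, f y = x) (c : E) (j : ℕ) :
    kd A c j ≤ kd A' c j + kd A'' c j := by
  unfold kd
  set D' := (A' - c • (1 : End E V')) ^ j with hD'
  set D := (A - c • (1 : End E V)) ^ j with hD
  set D'' := (A'' - c • (1 : End E V'')) ^ j with hD''
  have hf' : ∀ x, f (D' x) = D (f x) := inter_pow f A' A hf c j
  have hg' : ∀ x, g (D x) = D'' (g x) := inter_pow g A A'' hg c j
  set φ : LinearMap.ker D →ₗ[E] V'' := g ∘ₗ (LinearMap.ker D).subtype with hφ
  have h1 := LinearMap.finrank_range_add_finrank_ker φ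
  have h2 : finrank E (LinearMap.range φ) ≤ finrank E (LinearMap.ker D'') := by
    refine Submodule.finrank_mono ?_
    rintro _ ⟨x, rfl⟩
    rw [LinearMap.mem_ker]
    show D'' (g x) = 0
    rw [← hg', LinearMap.mem_ker.1 x.2, map_zero]
  have h3 : finrank E (LinearMap.ker φ) ≤ finrank E (LinearMap.ker D') := by
    have e1 : finrank E (LinearMap.ker φ) =
        finrank E ((LinearMap.ker φ).map (LinearMap.ker D).subtype) :=
      (Submodule.finrank_map_subtype_eq _ _).symm
    have e2 : finrank E ((LinearMap.ker D').map f) ≤ finrank E (LinearMap.ker D') :=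
      Submodule.finrank_map_le f _
    rw [e1]
    refine le_trans (Submodule.finrank_mono ?_) e2
    rintro _ ⟨x, hx, rfl⟩
    have hx' : g x = 0 := hx
    obtain ⟨y, hy⟩ := hex _ hx'
    refine ⟨y, ?_, hy⟩
    show D' y = 0
    apply hi
    rw [hf', hy, LinearMap.mem_ker.1 x.2, map_zero]
  omega

/-- similar endomorphisms -/
lemma kd_similar (F : End E V) (G : End E W) (e : V ≃ₗ[E] W) (h : ∀ a, G (e a) = e (F a)) (c : E)
    (j : ℕ) : kd F c j = kd G c j := by
  unfold kd
  refine LinearEquiv.finrank_eq (LinearEquiv.ofSubmodules e _ _ ?_)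
  ext x
  constructor
  · rintro ⟨y, hy, rfl⟩
    have := inter_pow e.toLinearMap F G (fun x => (h x).symm) c j y
    have hy' : ((F - c • (1 : End E V)) ^ j) y = 0 := hy
    rw [hy', map_zero] at this
    exact this.symm
  · intro hx
    refine ⟨e.symm x, ?_, e.apply_symm_apply x⟩
    have := inter_pow e.toLinearMap F G (fun x => (h x).symm) c j (e.symm x)
    show ((F - c • (1 : End E V)) ^ j) (e.symm x) = 0
    apply e.injective
    rw [map_zero]
    have h2 : ((G - c • (1 : End E W)) ^ j) x = 0 := hx
    rw [LinearEquiv.coe_coe, e.apply_symm_apply, h2] at this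
    exact this

end basic

end Pool.Agent.Helper82.TP
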