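import Pool.Agent.Helper82.TP.Words

/-!
# Sums over words with a given product
-/

set_option autoImplicit false

namespace Pool.Agent.Helper82.TP

open Finset

variable {E C : Type} [Field E] [Fintype C]

/-- the value of a letter -/
def lam (a : E) (ν : C → E) (x : Option C) : E := x.elim a ν

/-- `1` for the letter `none` -/
def nn (x : Option C) : ℕ := x.elim 1 fun _ => 0

/-- the number of letters `none` -/
def cnt {N : ℕ} (w : Fin N → Option C) : ℕ := ∑ i, nn (w i)

open Classical in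
/-- the sum of `φ (number of letters none)` over the words of length `N` with product `c` -/
noncomputable def S (a : E) (ν : C → E) (N : ℕ) (φ : ℕ → ℝ) (c : E) : ℝ :=
  ∑ w : Fin N → Option C, if ∏ i, lam a ν (w i) = c then φ (cnt w) else 0

variable {a : E} {ν : C → E}

omit [Fintype C] in
lemma lam_ne (ha : a ≠ 0) (hν : ∀ x, ν x ≠ 0) (x : Option C) : lam a ν x ≠ 0 := by
  cases x with
  | none => exact ha
  | some x => exact hν x

lemma S_nn {N : ℕ} {φ : ℕ → ℝ} (hφ : ∀ k, 0 ≤ φ k) (c : E) : 0 ≤ S a ν N φ c := by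
  unfold S
  refine sum_nonneg fun w _ => ?_
  split_ifs
  · exact hφ _
  · exact le_rfl

lemma S_mono {N : ℕ} {φ ψ : ℕ → ℝ} (h : ∀ k, φ k ≤ ψ k) (c : E) : S a ν N φ c ≤ S a ν N ψ c := by
  unfold S
  refine sum_le_sum fun w _ => ?_
  split_ifs
  · exact h _
  · exact le_rfl

lemma S_add {N : ℕ} (φ ψ : ℕ → ℝ) (c : E) :
    S a ν N (fun k => φ k + ψ k) c = S a ν N φ c + S a ν N ψ c := by
  unfold S
  rw [← sum_add_distrib]
  refine sum_congr rfl fun w _ => ?_
  split_ifs
  · rfl
  · rw [add_zero]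

lemma S_smul {N : ℕ} (r : ℝ) (φ : ℕ → ℝ) (c : E) :
    S a ν N (fun k => r * φ k) c = r * S a ν N φ c := by
  unfold S
  rw [mul_sum]
  refine sum_congr rfl fun w _ => ?_
  split_ifs
  · rfl
  · rw [mul_zero]

open Classical in
lemma S_zero (φ : ℕ → ℝ) (c : E) : S a ν 0 φ c = if c = 1 then φ 0 else 0 := by
  unfold S
  rw [Fintype.sum_unique]
  simp only [univ_eq_empty, prod_empty, cnt, sum_empty, eq_comm]

lemma S_succ (ha : a ≠ 0) (hν : ∀ x, ν x ≠ 0) (N : ℕ) (φ : ℕ → ℝ) (c : E) :
    S a ν (N + 1) φ c = S a ν N (fun k => φ (k + 1)) (c / a) + ∑ x, S a ν N φ (c / ν x) := by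
  classical
  have e1 : S a ν (N + 1) φ c = ∑ x : Option C, ∑ w : Fin N → Option C,
      if lam a ν x * ∏ i, lam a ν (w i) = c then φ (nn x + cnt w) else 0 := by
    unfold S
    rw [← Fintype.sum_prod_type', ← (Fin.consEquiv (fun _ : Fin (N + 1) => Option C)).sum_comp]
    refine sum_congr rfl fun p _ => ?_
    have h1 : ∏ i, lam a ν ((Fin.consEquiv (fun _ : Fin (N + 1) => Option C)) p i) =
        lam a ν p.1 * ∏ i, lam a ν (p.2 i) := by
      rw [Fin.prod_univ_succ]
      rfl
    have h2 : cnt ((Fin.consEquiv (fun _ : Fin (N + 1) => Option C)) p) = nn p.1 + cnt p.2 := by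
      unfold cnt
      rw [Fin.sum_univ_succ]
      rfl
    rw [h1, h2]
  rw [e1, Fintype.sum_option]
  congr 1
  · unfold S
    refine sum_congr rfl fun w _ => ?_
    have h3 : lam a ν none * ∏ i, lam a ν (w i) = c ↔ ∏ i, lam a ν (w i) = c / a := by
      rw [eq_div_iff ha, mul_comm]
      rfl
    simp only [h3]
    have h4 : nn (none : Option C) + cnt w = cnt w + 1 := by rw [add_comm]; rfl
    rw [h4]
  · unfold S
    refine sum_congr rfl fun x _ => sum_congr rfl fun w _ => ?_
    have h3 : lam a ν (some x) * ∏ i, lam a ν (w i) = c ↔ ∏ i, lam a ν (w i) = c / ν x := by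
      rw [eq_div_iff (hν x), mul_comm]
      rfl
    simp only [h3]
    have h4 : nn (some x) + cnt w = cnt w := by
      show 0 + cnt w = cnt w
      rw [zero_add]
    rw [h4]

/-- the number of words, with weights -/
lemma words_two (N : ℕ) : ∑ w : Fin N → Option C, (2 : ℝ) ^ cnt w = (Fintype.card C + 2) ^ N := by
  have e1 : ∀ w : Fin N → Option C, (2 : ℝ) ^ cnt w = ∏ i, (2 : ℝ) ^ nn (w i) := fun w => by
    unfold cnt
    rw [Finset.prod_pow_eq_pow_sum]
  rw [sum_congr rfl fun w _ => e1 w, ← Fintype.sum_pow (fun x : Option C => (2 : ℝ) ^ nn x) N,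
    Fintype.sum_option]
  congr 1
  have e2 : ∀ x : C, (2 : ℝ) ^ nn (some x) = 1 := fun x => pow_zero _
  rw [sum_congr rfl fun x _ => e2 x]
  simp only [sum_const, card_univ, nsmul_eq_mul, mul_one]
  show (2 : ℝ) ^ 1 + _ = _
  ring

lemma words_one (N : ℕ) : ∑ _w : Fin N → Option C, (1 : ℝ) = (Fintype.card C + 1) ^ N := by
  simp

lemma S_one_le (N : ℕ) (c : E) : S a ν N (fun _ => 1) c ≤ (Fintype.card C + 1) ^ N := by
  classical
  rw [← words_one N]
  unfold S
  refine sum_le_sum fun w _ => ?_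
  split_ifs
  · exact le_rfl
  · exact zero_le_one

/-- the total sum -/
lemma S_total [DecidableEq E] (N : ℕ) (φ : ℕ → ℝ) (T : Finset E)
    (hT : ∀ w : Fin N → Option C, ∏ i, lam a ν (w i) ∈ T) :
    ∑ c ∈ T, S a ν N φ c = ∑ w : Fin N → Option C, φ (cnt w) := by
  classical
  unfold S
  rw [sum_comm]
  refine sum_congr rfl fun w _ => ?_
  refine (sum_eq_single_of_mem _ (hT w) fun y _ hy => if_neg hy.symm).trans ?_
  exact if_pos rfl

/-- few products -/
lemma few [DecidableEq E] (N : ℕ) :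
    (univ.image fun w : Fin N → Option C => ∏ i, lam a ν (w i)).card ≤
      (N + 1) ^ (Fintype.card C + 1) := by
  classical
  have h1 : (univ.image fun w : Fin N → Option C => ∏ i, lam a ν (w i)) ⊆
      univ.image fun κ : Option C → Fin (N + 1) => ∏ x, lam a ν x ^ (κ x : ℕ) := by
    intro y hy
    rw [mem_image] at hy ⊢
    obtain ⟨w, -, rfl⟩ := hy
    have hlt : ∀ x, (univ.filter fun i => w i = x).card < N + 1 := fun x =>
      Nat.lt_succ_of_le ((card_filter_le _ _).trans (by simp))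
    refine ⟨fun x => ⟨(univ.filter fun i => w i = x).card, hlt x⟩, mem_univ _, ?_⟩
    show ∏ x, lam a ν x ^ (univ.filter fun i => w i = x).card = _
    rw [← Finset.prod_fiberwise (s := univ) (g := w) (f := fun i => lam a ν (w i))]
    refine prod_congr rfl fun x _ => ?_
    rw [← prod_const]
    refine prod_congr rfl fun i hi => ?_
    rw [(mem_filter.1 hi).2]
  refine (card_le_card h1).trans (card_image_le.trans ?_)
  simp

/-- lower bound for even powers -/
lemma lower (ha : a ≠ 0) (hν : ∀ x, ν x ≠ 0) (N : ℕ) (c : E)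
    (hsym : ∀ t : E, t ≠ 0 → S a ν N (fun k => 2 ^ k) (c / t) = S a ν N (fun k => 2 ^ k) t) :
    ((Fintype.card C + 2 : ℝ)) ^ (N + N) ≤
      ((N : ℝ) + 1) ^ (Fintype.card C + 1) * S a ν (N + N) (fun k => 2 ^ k) c := by
  classical
  set P : (Fin N → Option C) → E := fun w => ∏ i, lam a ν (w i) with hP
  set M : E → ℝ := fun t => S a ν N (fun k => 2 ^ k) t with hM
  have hP0 : ∀ w, P w ≠ 0 := fun w => Finset.prod_ne_zero_iff.2 fun i _ => lam_ne ha hν _
  have e1 : S a ν (N + N) (fun k => 2 ^ k) c = ∑ w : Fin N → Option C, 2 ^ cnt w * M (c / P w) := by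
    have e2 : S a ν (N + N) (fun k => 2 ^ k) c = ∑ w : Fin N → Option C, ∑ w' : Fin N → Option C,
        if P w * P w' = c then (2 : ℝ) ^ (cnt w + cnt w') else 0 := by
      rw [← Fintype.sum_prod_type']
      unfold S
      rw [← (Fin.appendEquiv N N).sum_comp]
      refine sum_congr rfl fun p _ => ?_
      have h1 : ∏ i, lam a ν ((Fin.appendEquiv N N) p i) = P p.1 * P p.2 := by
        rw [Fin.prod_univ_add]
        simp only [Fin.appendEquiv, Equiv.coe_fn_mk, Fin.append_left, Fin.append_right, hP]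
      have h2 : cnt ((Fin.appendEquiv N N) p) = cnt p.1 + cnt p.2 := by
        unfold cnt
        rw [Fin.sum_univ_add]
        simp only [Fin.appendEquiv, Equiv.coe_fn_mk, Fin.append_left, Fin.append_right]
      rw [h1, h2]
    rw [e2]
    refine sum_congr rfl fun w _ => ?_
    simp only [hM, S]
    rw [mul_sum]
    refine sum_congr rfl fun w' _ => ?_
    have h3 : P w * P w' = c ↔ ∏ i, lam a ν (w' i) = c / P w := by
      rw [eq_div_iff (hP0 w), mul_comm]
    simp only [h3]
    split_ifs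
    · rw [pow_add]
    · rw [mul_zero]
  set T := univ.image P with hT
  have hmap : ∀ w ∈ (univ : Finset (Fin N → Option C)), P w ∈ T := fun w hw => mem_image_of_mem P hw
  have e3 : S a ν (N + N) (fun k => 2 ^ k) c = ∑ t ∈ T, M t ^ 2 := by
    rw [e1, ← sum_fiberwise_of_maps_to hmap]
    refine sum_congr rfl fun t _ => ?_
    have e4 : ∀ w ∈ univ.filter (fun w => P w = t), (2 : ℝ) ^ cnt w * M (c / P w) =
        2 ^ cnt w * M t := by
      intro w hw
      have h5 : P w = t := (mem_filter.1 hw).2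
      have h6 : M (c / P w) = M (P w) := hsym _ (hP0 w)
      rw [h6, h5]
    rw [sum_congr rfl e4, ← sum_mul, pow_two]
    congr 1
    simp only [hM, S]
    rw [sum_filter]
  have e5 : ∑ t ∈ T, M t = (Fintype.card C + 2 : ℝ) ^ N := by
    rw [← words_two N]
    exact S_total N _ T fun w => mem_image_of_mem P (mem_univ w)
  have e6 := sq_sum_le_card_mul_sum_sq (s := T) (f := M)
  rw [e5, ← e3] at e6
  have e7 : (T.card : ℝ) ≤ ((N : ℝ) + 1) ^ (Fintype.card C + 1) := by
    exact_mod_cast few (a := a) (ν := ν) N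
  have e8 : 0 ≤ S a ν (N + N) (fun k => 2 ^ k) c := S_nn (fun k => by positivity) c
  calc (Fintype.card C + 2 : ℝ) ^ (N + N) = ((Fintype.card C + 2 : ℝ) ^ N) ^ 2 := by
        rw [pow_add, pow_two]
    _ ≤ T.card * S a ν (N + N) (fun k => 2 ^ k) c := e6
    _ ≤ _ := mul_le_mul_of_nonneg_right e7 e8

end Pool.Agent.Helper82.TP
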