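import Pool.Agent.Helper82.TP.Dual
import Pool.Agent.Helper82.TP.Sw

/-!
# The dimensions of the kernels and the sums over words
-/

set_option autoImplicit false

namespace Pool.Agent.Helper82.TP

open Module Finset
open scoped TensorProduct
open Pool.Agent.Helper17.JB

variable {E : Type} [Field E] {q : ℕ} (A : SmoothTheory q E)

/-- the data of the letters -/
structure Lets (X : A.Var) (a : E) (C : Type) [Fintype C] (ν : C → E) : Prop where
  ha : a ≠ 0
  hν : ∀ x, ν x ≠ 0
  card : Fintype.card C + 2 = A.betti X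
  step : ∀ (n : ℕ) (c : E) (j : ℕ), c ≠ 0 → 1 ≤ j →
    Kn A X (n + 1) c j ≤ Kn A X n (c / a) (j + 1) + Kn A X n (c / a) (j - 1) +
      ∑ x, Kn A X n (c / ν x) j

theorem exists_lets [CharZero E] [IsAlgClosed E] (hq : q ≠ 0) (X : A.Var) (l₀ : ℕ)
    (hs : ¬ (A.F X l₀).IsSemisimple) :
    ∃ (a : E) (C : Type) (_ : Fintype C) (ν : C → E), Lets A X a C ν := by
  obtain ⟨a, C, _, ν, ha, hν, hc, h⟩ := pieces A hq X l₀ hs
  exact ⟨a, C, inferInstance, ν, ⟨ha, hν, hc, fun n c j h0 h1 => Kn_succ A X a C ν h n c j h0 h1⟩⟩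

variable {A} {X : A.Var} {a : E} {C : Type} [Fintype C] {ν : C → E}

theorem up (L : Lets A X a C ν) (n : ℕ) : ∀ (c : E) (j : ℕ), c ≠ 0 →
    (Kn A X n c j : ℝ) ≤ S a ν n (fun k => (pw j k : ℝ)) c := by
  induction n with
  | zero =>
    intro c j hc
    rcases Nat.eq_zero_or_pos j with rfl | hj
    · rw [Kn_zero]
      push_cast
      exact S_nn (fun k => Nat.cast_nonneg _) c
    · rw [S_zero, pw_start hj]
      have := Kn_pt A X c j
      split_ifs at this ⊢
      · exact_mod_cast this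
      · exact_mod_cast this
  | succ n ih =>
    intro c j hc
    rcases Nat.eq_zero_or_pos j with rfl | hj
    · rw [Kn_zero]
      push_cast
      exact S_nn (fun k => Nat.cast_nonneg _) c
    · have h1 : (Kn A X (n + 1) c j : ℝ) ≤ Kn A X n (c / a) (j + 1) + Kn A X n (c / a) (j - 1) +
          ∑ x, (Kn A X n (c / ν x) j : ℝ) := by
        exact_mod_cast L.step n c j hc hj
      rw [S_succ L.ha L.hν]
      refine h1.trans (add_le_add ?_ (sum_le_sum fun x _ => ih _ j (div_ne_zero hc (L.hν x))))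
      have e1 : (fun k => (pw j (k + 1) : ℝ)) = fun k => (pw (j + 1) k : ℝ) + (pw (j - 1) k : ℝ) := by
        funext k
        rw [← pw_rec hj]
        push_cast
        ring
      rw [e1, S_add]
      exact add_le_add (ih _ _ (div_ne_zero hc L.ha)) (ih _ _ (div_ne_zero hc L.ha))

variable [CharZero E] [IsAlgClosed E]

omit [IsAlgClosed E] in
theorem mg_le (hq : q ≠ 0) (L : Lets A X a C ν) (n : ℕ) (c : E) :
    (mg A (A.pow X n) c : ℝ) ≤ S a ν (n + 1) (fun k => 2 ^ k) c := by
  rcases eq_or_ne c 0 with rfl | hc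
  · rw [mg_zero A hq]
    push_cast
    exact S_nn (fun k => by positivity) 0
  · have h1 := up L (n + 1) c (A.betti (A.pow X n)) hc
    have h2 : Kn A X (n + 1) c (A.betti (A.pow X n)) = mg A (A.pow X n) c := mg_eq A _ c le_rfl
    rw [h2] at h1
    exact h1.trans (S_mono (fun k => by exact_mod_cast pw_le _ k) c)

theorem mg_S (hq : q ≠ 0) (L : Lets A X a C ν) (n : ℕ) (c : E) :
    (mg A (A.pow X n) c : ℝ) = S a ν (n + 1) (fun k => 2 ^ k) c := by
  classical
  set T : Finset E := (univ.image fun w : Fin (n + 1) → Option C => ∏ i, lam a ν (w i)) ∪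
    (((range (2 * A.dim (A.pow X n) + 1)).biUnion fun i => (A.F (A.pow X n) i).charpoly.roots.toFinset)
      ∪ {c}) with hT
  have hT1 : ∀ w : Fin (n + 1) → Option C, ∏ i, lam a ν (w i) ∈ T := fun w =>
    mem_union_left _ (mem_image_of_mem (fun w : Fin (n + 1) → Option C => ∏ i, lam a ν (w i))
      (mem_univ w))
  have hT2 : ∀ i ∈ range (2 * A.dim (A.pow X n) + 1), ∀ c, (A.F (A.pow X n) i).HasEigenvalue c →
      c ∈ T := by
    intro i hi c hc
    refine mem_union_right _ (mem_union_left _ (mem_biUnion.2 ⟨i, hi, ?_⟩))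
    rw [Multiset.mem_toFinset, Polynomial.mem_roots (LinearMap.charpoly_monic _).ne_zero]
    exact (Module.End.hasEigenvalue_iff_isRoot_charpoly _ _).1 hc
  have hc : c ∈ T := mem_union_right _ (mem_union_right _ (mem_singleton_self c))
  have e1 : ∑ c ∈ T, (mg A (A.pow X n) c : ℝ) = ∑ c ∈ T, S a ν (n + 1) (fun k => 2 ^ k) c := by
    rw [S_total (n + 1) _ T hT1, words_two, ← Nat.cast_sum, mg_total A _ T hT2,
      Pool.Agent.Helper17.JB.SmoothTheory.betti_pow, ← L.card]
    push_cast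
    ring
  exact (Finset.sum_eq_sum_iff_of_le fun c _ => mg_le hq L n c).1 e1 c hc

/-- the lower bound for the multiplicity -/
theorem mg_lower (hq : q ≠ 0) (L : Lets A X a C ν) (n : ℕ) :
    (Fintype.card C + 2 : ℝ) ^ (n + 1 + (n + 1)) ≤ ((n : ℝ) + 2) ^ (Fintype.card C + 1) *
      S a ν (n + 1 + (n + 1)) (fun k => 2 ^ k) ((q : E) ^ ((n + 1) * A.dim X)) := by
  have h1 := lower L.ha L.hν (n + 1) ((q : E) ^ ((n + 1) * A.dim X)) fun t ht => ?_
  · push_cast at h1
    convert h1 using 3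
    ring
  · rw [← mg_S hq L, ← mg_S hq L, mg_sym A hq (A.pow X n) ht,
      Pool.Agent.Helper17.JB.SmoothTheory.dim_pow]

end Pool.Agent.Helper82.TP
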