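import Pool.Agent.Helper82.TP.LA

/-!
# Tensor products with a line and with a Jordan block of size two
-/

set_option autoImplicit false

namespace Pool.Agent.Helper82.TP

open Module Finset
open scoped TensorProduct

set_option linter.unusedSectionVars false

variable {E V W : Type} [Field E] [AddCommGroup V] [Module E V] [AddCommGroup W] [Module E W]
  [FiniteDimensional E V] [FiniteDimensional E W]

lemma tmul_inj {v : V} (hv : v ≠ 0) {w : W} (h : w ⊗ₜ[E] v = 0) : w = 0 := by
  by_contra hw
  have h1 : ¬ ∀ φ : Dual E V, φ v = 0 := fun h => hv ((Module.forall_dual_apply_eq_zero_iff E v).1 h)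
  push Not at h1
  obtain ⟨φ, hφ⟩ := h1
  have h2 : TensorProduct.rid E W (LinearMap.lTensor W φ (w ⊗ₜ[E] v)) = 0 := by
    rw [h, map_zero, map_zero]
  rw [LinearMap.lTensor_tmul, TensorProduct.rid_tmul] at h2
  exact (smul_ne_zero hφ hw) h2

lemma mapQ_inter (U : Submodule E V) (F : End E V) (G : End E W) (hU : U ≤ U.comap F) (x : W ⊗[E] V) :
    LinearMap.lTensor W U.mkQ (TensorProduct.map G F x) =
      TensorProduct.map G (U.mapQ U F hU) (LinearMap.lTensor W U.mkQ x) := by
  induction x using TensorProduct.induction_on with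
  | zero => simp only [map_zero]
  | tmul w v =>
    rw [TensorProduct.map_tmul, LinearMap.lTensor_tmul, LinearMap.lTensor_tmul,
      TensorProduct.map_tmul]
    rfl
  | add a b ha hb => simp only [map_add, ha, hb]

lemma mk_exact (U : Submodule E V) (x : W ⊗[E] V) (h : LinearMap.lTensor W U.mkQ x = 0) :
    ∃ t : W ⊗[E] U, LinearMap.lTensor W U.subtype t = x :=
  (lTensor_exact W (LinearMap.exact_subtype_mkQ U) U.mkQ_surjective x).1 h

/-- an eigenvector -/
lemma kd_line (F : End E V) (G : End E W) {v : V} (hv : v ≠ 0) {a : E} (hF : F v = a • v)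
    (hU : Submodule.span E {v} ≤ (Submodule.span E {v}).comap F) (c : E) (j : ℕ) :
    kd (TensorProduct.map G F) c j ≤ kd (a • G) c j +
      kd (TensorProduct.map G ((Submodule.span E {v}).mapQ (Submodule.span E {v}) F hU)) c j := by
  refine kd_ext ((TensorProduct.mk E W V).flip v) (LinearMap.lTensor W (Submodule.span E {v}).mkQ)
    (a • G) _ _ (fun w => ?_) (fun x => mapQ_inter _ F G hU x) ?_ (fun x hx => ?_) c j
  · show (a • G w) ⊗ₜ[E] v = TensorProduct.map G F (w ⊗ₜ[E] v)
    rw [TensorProduct.map_tmul, hF, TensorProduct.smul_tmul]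
  · rw [injective_iff_map_eq_zero]
    intro w hw
    exact tmul_inj hv hw
  · obtain ⟨t, rfl⟩ := mk_exact _ x hx
    clear hx
    induction t using TensorProduct.induction_on with
    | zero => exact ⟨0, by simp⟩
    | tmul w u =>
      obtain ⟨r, hr⟩ := Submodule.mem_span_singleton.1 u.2
      refine ⟨r • w, ?_⟩
      show (r • w) ⊗ₜ[E] v = w ⊗ₜ[E] (u : V)
      rw [TensorProduct.smul_tmul, hr]
    | add a b ha hb =>
      obtain ⟨y, hy⟩ := ha
      obtain ⟨z, hz⟩ := hb
      exact ⟨y + z, by rw [map_add, map_add, hy, hz]⟩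

/-- the endomorphism `(x, y) ↦ (a G x + G y, a G y)` -/
def jd (G : End E W) (a : E) : End E (W × W) :=
  LinearMap.prod (a • (G ∘ₗ LinearMap.fst E W W) + G ∘ₗ LinearMap.snd E W W)
    (a • (G ∘ₗ LinearMap.snd E W W))

lemma jd_apply (G : End E W) (a : E) (x y : W) : jd G a (x, y) = (a • G x + G y, a • G y) := rfl

/-- a Jordan block of size two -/
lemma kd_block (F : End E V) (G : End E W) {v u : V} (hu : u ≠ 0) {a : E} (hv : F v = a • v + u)
    (hFu : F u = a • u)
    (hU : Submodule.span E {v, u} ≤ (Submodule.span E {v, u}).comap F) (c : E) (j : ℕ) :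
    kd (TensorProduct.map G F) c j ≤ kd (jd G a) c j +
      kd (TensorProduct.map G ((Submodule.span E {v, u}).mapQ (Submodule.span E {v, u}) F hU)) c j := by
  refine kd_ext (LinearMap.coprod ((TensorProduct.mk E W V).flip u) ((TensorProduct.mk E W V).flip v))
    (LinearMap.lTensor W (Submodule.span E {v, u}).mkQ)
    (jd G a) _ _ (fun w => ?_) (fun x => mapQ_inter _ F G hU x) ?_ (fun x hx => ?_) c j
  · obtain ⟨x, y⟩ := w
    rw [jd_apply]
    show (a • G x + G y) ⊗ₜ[E] u + (a • G y) ⊗ₜ[E] v =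
      TensorProduct.map G F (x ⊗ₜ[E] u + y ⊗ₜ[E] v)
    rw [map_add, TensorProduct.map_tmul, TensorProduct.map_tmul, hv, hFu, TensorProduct.tmul_add,
      TensorProduct.add_tmul, TensorProduct.smul_tmul, TensorProduct.smul_tmul]
    abel
  · rw [injective_iff_map_eq_zero]
    rintro ⟨x, y⟩ hw
    have hw' : x ⊗ₜ[E] u + y ⊗ₜ[E] v = 0 := hw
    have hnot : v ∉ Submodule.span E {u} := by
      intro h
      obtain ⟨r, hr⟩ := Submodule.mem_span_singleton.1 h
      have h1 : F v = a • v := by
        rw [← hr, map_smul, hFu, smul_comm]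
      rw [h1] at hv
      exact hu (by simpa using hv)
    obtain ⟨φ, hφ1, hφ2⟩ := Submodule.exists_le_ker_of_notMem hnot
    have hφu : φ u = 0 := hφ2 (Submodule.mem_span_singleton_self u)
    have h2 : TensorProduct.rid E W (LinearMap.lTensor W φ (x ⊗ₜ[E] u + y ⊗ₜ[E] v)) = 0 := by
      rw [hw', map_zero, map_zero]
    rw [map_add, map_add, LinearMap.lTensor_tmul, LinearMap.lTensor_tmul, TensorProduct.rid_tmul,
      TensorProduct.rid_tmul, hφu, zero_smul, zero_add] at h2
    have hy : y = 0 := (smul_eq_zero.1 h2).resolve_left hφ1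
    rw [hy, TensorProduct.zero_tmul, add_zero] at hw'
    have hx : x = 0 := tmul_inj hu hw'
    rw [hx, hy]; rfl
  · obtain ⟨t, rfl⟩ := mk_exact _ x hx
    clear hx
    induction t using TensorProduct.induction_on with
    | zero => exact ⟨0, by simp⟩
    | tmul w z =>
      obtain ⟨r, s, hr⟩ := Submodule.mem_span_pair.1 z.2
      refine ⟨(s • w, r • w), ?_⟩
      show (s • w) ⊗ₜ[E] u + (r • w) ⊗ₜ[E] v = w ⊗ₜ[E] (z : V)
      rw [TensorProduct.smul_tmul, TensorProduct.smul_tmul, ← hr, TensorProduct.tmul_add, add_comm]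
    | add a b ha hb =>
      obtain ⟨y, hy⟩ := ha
      obtain ⟨z, hz⟩ := hb
      exact ⟨y + z, by rw [map_add, map_add, hy, hz]⟩

/-- scaling -/
lemma kd_smul (G : End E W) {a : E} (ha : a ≠ 0) (c : E) (j : ℕ) : kd (a • G) c j = kd G (c / a) j := by
  unfold kd
  have h1 : a • G - c • (1 : End E W) = a • (G - (c / a) • (1 : End E W)) := by
    rw [smul_sub, smul_smul, mul_div_cancel₀ _ ha]
  have h2 : LinearMap.ker (a ^ j • (G - (c / a) • (1 : End E W)) ^ j) =
      LinearMap.ker ((G - (c / a) • (1 : End E W)) ^ j) := LinearMap.ker_smul _ _ (pow_ne_zero _ ha)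
  rw [h1, smul_pow, h2]

section jd

lemma jd_pow (G : End E W) (a c : E) (j : ℕ) (x y : W) :
    ((jd G a - c • (1 : End E (W × W))) ^ j) (x, y) =
      (((a • G - c • (1 : End E W)) ^ j) x +
        (j : E) • ((a • G - c • (1 : End E W)) ^ (j - 1)) (G y),
        ((a • G - c • (1 : End E W)) ^ j) y) := by
  set D := a • G - c • (1 : End E W) with hD
  have hDa : ∀ x : W, D x = a • G x - c • x := fun x => rfl
  have hDG : ∀ (i : ℕ) (x : W), (D ^ i) (G x) = G ((D ^ i) x) := by
    intro i
    induction i with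
    | zero => intro x; rfl
    | succ i ih =>
      intro x
      rw [pow_succ, End.mul_apply, End.mul_apply, ← ih]
      congr 1
      rw [hDa, hDa, map_sub, map_smul, map_smul]
  induction j with
  | zero => simp
  | succ j ih =>
    rw [pow_succ', End.mul_apply, ih]
    have e1 : ∀ x y : W, (jd G a - c • (1 : End E (W × W))) (x, y) = (D x + G y, D y) := by
      intro x y
      rw [LinearMap.sub_apply, LinearMap.smul_apply, End.one_apply, jd_apply, hDa, hDa, Prod.smul_mk,
        Prod.mk_sub_mk]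
      congr 1
      abel
    rw [e1, Prod.mk.injEq]
    constructor
    · rw [map_add, map_smul, pow_succ', End.mul_apply, ← hDG, Nat.add_sub_cancel]
      rcases j with - | j
      · simp
      · have e2 : D ((D ^ (j + 1 - 1)) (G y)) = (D ^ (j + 1)) (G y) := by
          rw [Nat.add_sub_cancel, pow_succ' D j, End.mul_apply]
        rw [e2]
        push_cast
        rw [add_smul, add_smul, add_smul, one_smul]
        abel
    · rw [pow_succ' D j, End.mul_apply]

/-- the kernels for the tensor product with a block of size two -/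
lemma kd_jd [CharZero E] (G : End E W) {a c : E} (hc : c ≠ 0) {j : ℕ} (hj : 1 ≤ j) :
    kd (jd G a) c j ≤ kd (a • G) c (j + 1) + kd (a • G) c (j - 1) := by
  unfold kd
  set D := a • G - c • (1 : End E W) with hD
  have hDa : ∀ x : W, D x = a • G x - c • x := fun x => rfl
  set M := (jd G a - c • (1 : End E (W × W))) ^ j with hM
  -- the map
  let ψ : W × W →ₗ[E] W × W := LinearMap.prod (LinearMap.fst E W W)
    (D ∘ₗ LinearMap.fst E W W + (j : E) • (G ∘ₗ LinearMap.snd E W W))
  have hψ : ∀ x y, ψ (x, y) = (x, D x + (j : E) • G y) := fun x y => rfl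
  have hmem : ∀ p ∈ LinearMap.ker M, ψ p ∈ (LinearMap.ker (D ^ (j + 1))).prod
      (LinearMap.ker (D ^ (j - 1))) := by
    rintro ⟨x, y⟩ hp
    rw [LinearMap.mem_ker, hM, jd_pow, Prod.mk_eq_zero] at hp
    obtain ⟨h1, h2⟩ := hp
    rw [← hD] at h1 h2
    obtain ⟨i, rfl⟩ : ∃ i, j = i + 1 := ⟨j - 1, by omega⟩
    rw [Nat.add_sub_cancel] at h1 ⊢
    have h3 : (D ^ i) (D x + ((i + 1 : ℕ) : E) • G y) = 0 := by
      rw [map_add, map_smul]
      rw [pow_succ, End.mul_apply] at h1
      exact h1
    rw [hψ, Submodule.mem_prod, LinearMap.mem_ker, LinearMap.mem_ker]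
    refine ⟨?_, h3⟩
    have h4 : (D ^ (i + 1)) (G y) = 0 := by
      have hDG : ∀ (i : ℕ) (x : W), (D ^ i) (G x) = G ((D ^ i) x) := by
        intro i
        induction i with
        | zero => intro x; rfl
        | succ i ih =>
          intro x
          rw [pow_succ, End.mul_apply, End.mul_apply, ← ih]
          congr 1
          rw [hDa, hDa, map_sub, map_smul, map_smul]
      rw [hDG, h2, map_zero]
    have h5 : (D ^ (i + 1)) (D x + ((i + 1 : ℕ) : E) • G y) = 0 := by
      rw [pow_succ', End.mul_apply, h3, map_zero]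
    rw [map_add, map_smul, h4, smul_zero, add_zero] at h5
    show (D ^ (i + 1 + 1)) x = 0
    rw [pow_succ, End.mul_apply]
    exact h5
  have hinj : ∀ p ∈ LinearMap.ker M, ψ p = 0 → p = 0 := by
    rintro ⟨x, y⟩ hp h0
    rw [hψ, Prod.mk_eq_zero] at h0
    obtain ⟨hx, h1⟩ := h0
    rw [LinearMap.mem_ker, hM, jd_pow, Prod.mk_eq_zero] at hp
    obtain ⟨-, h2⟩ := hp
    rw [← hD] at h2
    rw [hx, map_zero, zero_add] at h1
    have hj0 : (j : E) ≠ 0 := by
      have : j ≠ 0 := by omega
      exact_mod_cast this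
    have hG : G y = 0 := (smul_eq_zero.1 h1).resolve_left hj0
    have h3 : ∀ i : ℕ, (D ^ i) y = (-c) ^ i • y := by
      intro i
      induction i with
      | zero => simp
      | succ i ih =>
        rw [pow_succ, End.mul_apply, hDa, hG, smul_zero, zero_sub, ← neg_smul, map_smul, ih,
          smul_smul, pow_succ, mul_comm]
    rw [h3] at h2
    have hy : y = 0 := (smul_eq_zero.1 h2).resolve_left (pow_ne_zero _ (neg_ne_zero.2 hc))
    rw [hx, hy]; rfl
  have hm1 : ∀ p : LinearMap.ker M, (LinearMap.fst E W W ∘ₗ ψ ∘ₗ (LinearMap.ker M).subtype) p ∈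
      LinearMap.ker (D ^ (j + 1)) := fun p => (Submodule.mem_prod.1 (hmem _ p.2)).1
  have hm2 : ∀ p : LinearMap.ker M, (LinearMap.snd E W W ∘ₗ ψ ∘ₗ (LinearMap.ker M).subtype) p ∈
      LinearMap.ker (D ^ (j - 1)) := fun p => (Submodule.mem_prod.1 (hmem _ p.2)).2
  let χ : LinearMap.ker M →ₗ[E] LinearMap.ker (D ^ (j + 1)) × LinearMap.ker (D ^ (j - 1)) :=
    LinearMap.prod (LinearMap.codRestrict _ _ hm1) (LinearMap.codRestrict _ _ hm2)
  have hχ : Function.Injective χ := by
    rw [injective_iff_map_eq_zero]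
    intro p hp
    have h1 : (ψ p).1 = 0 := congrArg Subtype.val (congrArg Prod.fst hp)
    have h2 : (ψ p).2 = 0 := congrArg Subtype.val (congrArg Prod.snd hp)
    exact Subtype.ext (hinj _ p.2 (Prod.ext h1 h2))
  have := LinearMap.finrank_le_finrank_of_injective hχ
  rwa [finrank_prod] at this

end jd

end Pool.Agent.Helper82.TP
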