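import Mathlib

/-!
# Words, and a walk which is killed at the origin
-/

set_option autoImplicit false

namespace Pool.Agent.Helper82.TP

open Finset

section walk

/-- the number of walks of length `k` with steps `± 1` from `j` which do not visit `0` -/
def pw (j k : ℕ) : ℕ := ∑ r ∈ range (k + 1), if k < 2 * r + j ∧ 2 * r ≤ k + j then k.choose r else 0

lemma pw_start {j : ℕ} (hj : 1 ≤ j) : pw j 0 = 1 := by
  unfold pw
  rw [zero_add, sum_range_one, if_pos (by omega), Nat.choose_self]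

lemma pw_le (j k : ℕ) : pw j k ≤ 2 ^ k := by
  unfold pw
  rw [← Nat.sum_range_choose]
  refine sum_le_sum fun r _ => ?_
  split_ifs
  · exact le_rfl
  · exact Nat.zero_le _

lemma pw_rec {j : ℕ} (hj : 1 ≤ j) (k : ℕ) : pw (j + 1) k + pw (j - 1) k = pw j (k + 1) := by
  have e1 : pw j (k + 1) = ∑ r ∈ range (k + 1),
      ((if k + 1 < 2 * r + j ∧ 2 * r ≤ k + 1 + j then k.choose r else 0) +
        (if k + 1 < 2 * (r + 1) + j ∧ 2 * (r + 1) ≤ k + 1 + j then k.choose r else 0)) := by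
    unfold pw
    rw [sum_range_succ', sum_add_distrib]
    have e2 : ∀ r ∈ range (k + 1), (if k + 1 < 2 * (r + 1) + j ∧ 2 * (r + 1) ≤ k + 1 + j
        then (k + 1).choose (r + 1) else 0) =
        (if k + 1 < 2 * (r + 1) + j ∧ 2 * (r + 1) ≤ k + 1 + j then k.choose r else 0) +
        (if k + 1 < 2 * (r + 1) + j ∧ 2 * (r + 1) ≤ k + 1 + j then k.choose (r + 1) else 0) := by
      intro r _
      rw [Nat.choose_succ_succ]
      split_ifs <;> rfl
    rw [sum_congr rfl e2, sum_add_distrib]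
    have e3 : ∑ r ∈ range (k + 1), (if k + 1 < 2 * r + j ∧ 2 * r ≤ k + 1 + j then k.choose r else 0) =
        ∑ r ∈ range (k + 2), (if k + 1 < 2 * r + j ∧ 2 * r ≤ k + 1 + j then k.choose r else 0) := by
      rw [sum_range_succ _ (k + 1), Nat.choose_succ_self, ite_self, add_zero]
    rw [e3, sum_range_succ' _ (k + 1)]
    simp only [Nat.choose_zero_right, mul_zero]
    ring
  rw [e1]
  unfold pw
  rw [← sum_add_distrib]
  refine sum_congr rfl fun r _ => ?_
  split_ifs <;> omega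

lemma pw_one (k : ℕ) : pw 1 k ≤ k.choose (k / 2) := by
  unfold pw
  have e : ∀ r ∈ range (k + 1), (if k < 2 * r + 1 ∧ 2 * r ≤ k + 1 then k.choose r else 0) ≤
      if r = (k + 1) / 2 then k.choose (k / 2) else 0 := by
    intro r _
    split_ifs with h1 h2 h2
    · exact Nat.choose_le_middle r k
    · omega
    · exact Nat.zero_le _
    · exact le_rfl
  refine (sum_le_sum e).trans ?_
  rw [sum_ite_eq']
  split_ifs
  · exact le_rfl
  · exact Nat.zero_le _

lemma central (n : ℕ) : n.centralBinom ^ 2 * (2 * n + 1) ≤ 16 ^ n := by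
  induction n with
  | zero => simp
  | succ n ih =>
    have h1 := Nat.succ_mul_centralBinom_succ n
    have h2 : ((n + 1) * (n + 1).centralBinom) ^ 2 * (2 * (n + 1) + 1) ≤
        (n + 1) ^ 2 * 16 ^ (n + 1) := by
      rw [h1]
      calc (2 * (2 * n + 1) * n.centralBinom) ^ 2 * (2 * (n + 1) + 1) =
          4 * ((2 * n + 1) * (2 * n + 3)) * (n.centralBinom ^ 2 * (2 * n + 1)) := by ring
        _ ≤ 4 * ((2 * n + 2) * (2 * n + 2)) * 16 ^ n :=
          Nat.mul_le_mul (Nat.mul_le_mul_left _ (by nlinarith)) ih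
        _ = (n + 1) ^ 2 * 16 ^ (n + 1) := by ring
    have h3 : (n + 1) ^ 2 * ((n + 1).centralBinom ^ 2 * (2 * (n + 1) + 1)) ≤
        (n + 1) ^ 2 * 16 ^ (n + 1) := by
      calc (n + 1) ^ 2 * ((n + 1).centralBinom ^ 2 * (2 * (n + 1) + 1)) =
          ((n + 1) * (n + 1).centralBinom) ^ 2 * (2 * (n + 1) + 1) := by ring
        _ ≤ _ := h2
    exact Nat.le_of_mul_le_mul_left h3 (by positivity)

lemma middle (k : ℕ) : (k.choose (k / 2)) ^ 2 * (k + 1) ≤ 4 ^ k := by
  rcases Nat.even_or_odd' k with ⟨n, rfl | rfl⟩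
  · have h := central n
    rw [Nat.centralBinom] at h
    rw [Nat.mul_div_cancel_left n two_pos, pow_mul]
    exact h
  · have h := central (n + 1)
    have h1 : (n + 1).centralBinom = 2 * (2 * n + 1).choose n := by
      rw [Nat.centralBinom, show 2 * (n + 1) = 2 * n + 1 + 1 by ring, Nat.choose_succ_succ,
        Nat.choose_symm_half]
      ring
    have h2 : (2 * n + 1) / 2 = n := by omega
    rw [h2]
    rw [h1] at h
    have h3 : 4 * (((2 * n + 1).choose n) ^ 2 * (2 * n + 3)) ≤ 4 * 4 ^ (2 * n + 1) := by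
      calc 4 * (((2 * n + 1).choose n) ^ 2 * (2 * n + 3)) =
          (2 * (2 * n + 1).choose n) ^ 2 * (2 * (n + 1) + 1) := by ring
        _ ≤ 16 ^ (n + 1) := h
        _ = 4 * 4 ^ (2 * n + 1) := by
          rw [show (16 : ℕ) = 4 ^ 2 by norm_num, ← pow_mul, ← pow_succ']
          congr 1
    have h4 := Nat.le_of_mul_le_mul_left h3 (by norm_num)
    refine le_trans (Nat.mul_le_mul_left _ (by omega)) h4

lemma pw_sqrt (k : ℕ) : (pw 1 k : ℝ) ≤ 2 ^ k / √(k + 1) := by
  have h1 : (0 : ℝ) < k + 1 := by positivity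
  rw [le_div_iff₀ (Real.sqrt_pos.2 h1)]
  refine (pow_le_pow_iff_left₀ (by positivity) (by positivity) two_ne_zero).1 ?_
  rw [mul_pow, Real.sq_sqrt h1.le]
  have h2 : ((pw 1 k : ℝ)) ^ 2 ≤ ((k.choose (k / 2) : ℕ) : ℝ) ^ 2 :=
    pow_le_pow_left₀ (Nat.cast_nonneg _) (by exact_mod_cast pw_one k) 2
  have h3 : (((k.choose (k / 2) : ℕ) : ℝ)) ^ 2 * (k + 1) ≤ 4 ^ k := by exact_mod_cast middle k
  calc (pw 1 k : ℝ) ^ 2 * (k + 1) ≤ (((k.choose (k / 2) : ℕ) : ℝ)) ^ 2 * (k + 1) :=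
        mul_le_mul_of_nonneg_right h2 h1.le
    _ ≤ 4 ^ k := h3
    _ = (2 ^ k) ^ 2 := by rw [← pow_mul, mul_comm k 2, pow_mul]; norm_num

end walk

end Pool.Agent.Helper82.TP
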